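import Pool.Agent.H662.TR.Stm

/-!
# Project TR, task AI: structure of the greedy matching
-/

set_option autoImplicit false

namespace Pool.Agent.H662.TR

namespace XAI

variable {β : (ℕ × Str) × ℕ → Bool} {b : ℕ}

theorem len_strs {n : ℕ} : ∀ {σ : Str}, σ ∈ strs n → σ.length = n := by
  induction n with
  | zero =>
    intro σ h
    rw [strs, List.mem_singleton] at h
    rw [h, List.length_nil]
  | succ n ih =>
    intro σ h
    rw [strs, List.mem_append, List.mem_map, List.mem_map] at h
    rcases h with ⟨τ, h, rfl⟩ | ⟨τ, h, rfl⟩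
    · rw [List.length_cons, ih h]
    · rw [List.length_cons, ih h]

theorem length_pairs {m : ℕ} {p : Str × Str} (h : p ∈ pairs m) : p.1.length = m ∧ p.2.length = m := by
  rw [pairs, List.mem_flatMap] at h
  obtain ⟨ξ, hξ, h⟩ := h
  rw [List.mem_map] at h
  obtain ⟨η, hη, rfl⟩ := h
  exact ⟨len_strs hξ, len_strs hη⟩

/-- the two pairs are incomparable in both coordinates -/
def Inc (p r : Str × Str) : Prop :=
  ¬ (p.1 <+: r.1) ∧ ¬ (r.1 <+: p.1) ∧ ¬ (p.2 <+: r.2) ∧ ¬ (r.2 <+: p.2)

/-- the invariant -/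
structure Inv (β : (ℕ × Str) × ℕ → Bool) (b m : ℕ) (l : List (Str × Str)) : Prop where
  mem : ∀ p ∈ l, p.1.length ≤ m ∧ p.2.length = p.1.length ∧ VV β b p.1.length p.1 p.2
  pw : l.Pairwise Inc

theorem not_pre {σ τ : Str} (h : pre σ τ = false) : ¬ (σ <+: τ) := by
  intro h1
  rw [pre_iff.2 h1] at h
  exact Bool.noConfusion h

theorem not_pre' {σ τ : Str} (h : pre σ τ = false) (hl : σ.length ≤ τ.length) : ¬ (τ <+: σ) := by
  intro h1
  have h2 : τ = σ := h1.eq_of_length_le hl
  subst h2
  exact not_pre h (List.prefix_refl _)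

theorem addp_eq {m : ℕ} (acc : List (Str × Str)) (p : Str × Str) :
    (addp β b m acc p = p :: acc ∧ VV β b m p.1 p.2 ∧ ∀ r ∈ acc, pre r.1 p.1 = false ∧ pre r.2 p.2 = false) ∨
      addp β b m acc p = acc := by
  unfold addp
  split_ifs with h
  · exact Or.inl ⟨rfl, h.1, h.2⟩
  · exact Or.inr rfl

theorem inv_addp {m : ℕ} {acc : List (Str × Str)} {p : Str × Str} (h : Inv β b m acc)
    (hp : p.1.length = m ∧ p.2.length = m) : Inv β b m (addp β b m acc p) := by
  rcases addp_eq (β := β) (b := b) (m := m) acc p with ⟨h1, h2, h3⟩ | h1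
  · rw [h1]
    refine ⟨fun q hq => ?_, List.pairwise_cons.2 ⟨fun r hr => ?_, h.pw⟩⟩
    · rcases List.mem_cons.1 hq with rfl | hq
      · refine ⟨hp.1.le, hp.2.trans hp.1.symm, ?_⟩
        rw [hp.1]
        exact h2
      · exact h.mem q hq
    · obtain ⟨a1, a2⟩ := h3 r hr
      obtain ⟨b1, b2, -⟩ := h.mem r hr
      have c1 : r.1.length ≤ p.1.length := by rw [hp.1]; exact b1
      have c2 : r.2.length ≤ p.2.length := by rw [hp.2, b2]; exact b1
      exact ⟨not_pre' a1 c1, not_pre a1, not_pre' a2 c2, not_pre a2⟩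
  · rw [h1]
    exact h

theorem inv_foldl {m : ℕ} (l : List (Str × Str)) : ∀ (acc : List (Str × Str)), Inv β b m acc →
    (∀ p ∈ l, p.1.length = m ∧ p.2.length = m) → Inv β b m (l.foldl (addp β b m) acc) := by
  induction l with
  | nil => exact fun acc h _ => h
  | cons p l ih =>
    intro acc h hl
    rw [List.foldl_cons]
    exact ih _ (inv_addp h (hl p (List.mem_cons_self ..))) fun q hq => hl q (List.mem_cons_of_mem _ hq)

theorem mem_foldl {m : ℕ} (l : List (Str × Str)) : ∀ (acc : List (Str × Str)), ∀ p ∈ acc,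
    p ∈ l.foldl (addp β b m) acc := by
  induction l with
  | nil => exact fun acc p h => h
  | cons q l ih =>
    intro acc p h
    rw [List.foldl_cons]
    apply ih
    rcases addp_eq (β := β) (b := b) (m := m) acc q with ⟨h1, -, -⟩ | h1
    · rw [h1]
      exact List.mem_cons_of_mem _ h
    · rw [h1]
      exact h

theorem inv_AL (m : ℕ) : Inv β b m (AL β b m) := by
  induction m with
  | zero =>
    rw [AL]
    exact ⟨fun p hp => absurd hp (List.not_mem_nil), List.Pairwise.nil⟩
  | succ m ih =>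
    rw [AL]
    refine inv_foldl _ _ ⟨fun p hp => ?_, ih.pw⟩ fun p hp => length_pairs hp
    obtain ⟨h1, h2⟩ := ih.mem p hp
    exact ⟨h1.trans (Nat.le_succ m), h2⟩

end XAI

open XAI in
theorem t_AI : S_AI := by
  intro β b m
  refine ⟨(inv_AL m).mem, (inv_AL m).pw, fun m' hm p hp => ?_⟩
  induction m', hm using Nat.le_induction with
  | base => exact hp
  | succ k _ ih =>
    rw [AL]
    exact mem_foldl _ _ p ih

end Pool.Agent.H662.TR
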