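import Pool.Agent.H662.TR.Stm

/-! Project TR (helper662), statement ALL (helper719). -/

set_option autoImplicit false

namespace Pool.Agent.H662.TR

namespace XALL

theorem foldl_and {τ : Type} (q : τ → Bool) (l : List τ) (c : Bool) :
    l.foldl (fun b t => b && q t) c = (c && l.all q) := by
  induction l generalizing c with
  | nil => simp
  | cons a l ih => rw [List.foldl_cons, ih, List.all_cons, Bool.and_assoc]

theorem foldl_or {τ : Type} (q : τ → Bool) (l : List τ) (c : Bool) :
    l.foldl (fun b t => b || q t) c = (c || l.any q) := by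
  induction l generalizing c with
  | nil => simp
  | cons a l ih => rw [List.foldl_cons, ih, List.any_cons, Bool.or_assoc]

theorem ev {α τ : Type} [Primcodable α] [Primcodable τ] {l : α → List τ} {p : α × τ → Prop}
    {gl : α × ℕ → List τ} {gp : (α × τ) × ℕ → Bool}
    (hl : ∀ a, ∀ᶠ s in Filter.atTop, gl (a, s) = l a)
    (hp : ∀ x, ∀ᶠ s in Filter.atTop, (gp (x, s) = true ↔ p x)) (a : α) :
    ∀ᶠ s in Filter.atTop, gl (a, s) = l a ∧ ∀ t ∈ l a, (gp ((a, t), s) = true ↔ p (a, t)) :=
  (hl a).and ((Filter.eventually_all_finite (l a).finite_toSet).2 fun t _ => hp (a, t))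

end XALL

open XALL Classical in
theorem t_ALL : S_ALL := by
  intro α τ _ _ l p ⟨gl, hgl, hl⟩ ⟨gp, hgp, hp⟩
  have hp' : ∀ x, ∀ᶠ s in Filter.atTop, (gp (x, s) = true ↔ p x) := by
    intro x
    filter_upwards [hp x] with s hs
    rw [hs, decide_eq_true_iff]
  have hq : Primrec fun z : (α × ℕ) × (Bool × τ) => gp ((z.1.1, z.2.2), z.1.2) :=
    hgp.comp (Primrec.pair (Primrec.pair (Primrec.fst.comp Primrec.fst)
      (Primrec.snd.comp Primrec.snd)) (Primrec.snd.comp Primrec.fst))
  have hfst : Primrec fun z : (α × ℕ) × (Bool × τ) => z.2.1 := Primrec.fst.comp Primrec.snd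
  have hand : Primrec₂ fun (x : α × ℕ) (y : Bool × τ) => y.1 && gp ((x.1, y.2), x.2) :=
    Primrec.and.comp hfst hq
  have hor : Primrec₂ fun (x : α × ℕ) (y : Bool × τ) => y.1 || gp ((x.1, y.2), x.2) :=
    Primrec.or.comp hfst hq
  constructor
  · refine ⟨fun x => (gl x).foldl (fun b t => b && gp ((x.1, t), x.2)) true, ?_, fun a => ?_⟩
    · exact Primrec.list_foldl hgl (Primrec.const true) hand
    · filter_upwards [ev hl hp' a] with s hs
      rw [foldl_and, Bool.true_and, hs.1, Bool.eq_iff_iff, List.all_eq_true]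
      exact (forall₂_congr fun t ht => hs.2 t ht).trans
        (@decide_eq_true_iff _ (Classical.propDecidable _)).symm
  · refine ⟨fun x => (gl x).foldl (fun b t => b || gp ((x.1, t), x.2)) false, ?_, fun a => ?_⟩
    · exact Primrec.list_foldl hgl (Primrec.const false) hor
    · filter_upwards [ev hl hp' a] with s hs
      rw [foldl_or, Bool.false_or, hs.1, Bool.eq_iff_iff, List.any_eq_true]
      exact (exists_congr fun t => and_congr_right fun ht => hs.2 t ht).trans
        (@decide_eq_true_iff _ (Classical.propDecidable _)).symm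

end Pool.Agent.H662.TR
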