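import Pool.Agent.H662.TR.Stm

/-!
# BAS: closure properties of limit computable functions
-/

set_option autoImplicit false

namespace Pool.Agent.H662.TR

namespace XBAS

theorem prim {α σ : Type} [Primcodable α] [Primcodable σ] (f : α → σ) (hf : Primrec f) :
    LP f :=
  ⟨fun x => f x.1, hf.comp Primrec.fst, fun _ => Filter.Eventually.of_forall fun _ => rfl⟩

theorem comp {α σ τ : Type} [Primcodable α] [Primcodable σ] [Primcodable τ] (f : σ → τ)
    (g : α → σ) (hf : LP f) (hg : LP g) : LP (fun a => f (g a)) := by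
  obtain ⟨F, hF, hF2⟩ := hf
  obtain ⟨G, hG, hG2⟩ := hg
  refine ⟨fun x => F (G x, x.2), hF.comp (hG.pair Primrec.snd), fun a => ?_⟩
  filter_upwards [hG2 a, hF2 (g a)] with s h1 h2
  show F (G (a, s), s) = f (g a)
  rw [h1, h2]

theorem pair {α σ τ : Type} [Primcodable α] [Primcodable σ] [Primcodable τ] (f : α → σ)
    (g : α → τ) (hf : LP f) (hg : LP g) : LP (fun a => (f a, g a)) := by
  obtain ⟨F, hF, hF2⟩ := hf
  obtain ⟨G, hG, hG2⟩ := hg
  refine ⟨fun x => (F x, G x), hF.pair hG, fun a => ?_⟩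
  filter_upwards [hG2 a, hF2 a] with s h1 h2
  show (F (a, s), G (a, s)) = (f a, g a)
  rw [h1, h2]

/-- a limit computable predicate from a limit computable Boolean function -/
theorem ofB {α : Type} [Primcodable α] (p : α → Prop) (f : α → Bool) (hf : LP f)
    (h : ∀ a, f a = true ↔ p a) : LPP p := by
  obtain ⟨F, hF, hF2⟩ := hf
  refine ⟨F, hF, fun a => ?_⟩
  filter_upwards [hF2 a] with s h1
  rw [h1, Bool.eq_iff_iff, h a]
  simp

theorem not {α : Type} [Primcodable α] (p : α → Prop) (hp : LPP p) : LPP (fun a => ¬ p a) := by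
  refine ofB _ _ (comp (fun b : Bool => !b) _ (prim _ Primrec.not) hp) fun a => ?_
  simp

theorem and {α : Type} [Primcodable α] (p q : α → Prop) (hp : LPP p) (hq : LPP q) :
    LPP (fun a => p a ∧ q a) := by
  refine ofB _ _ (comp (fun b : Bool × Bool => b.1 && b.2) _
    (prim _ (Primrec.and.comp Primrec.fst Primrec.snd)) (pair _ _ hp hq)) fun a => ?_
  simp

theorem or {α : Type} [Primcodable α] (p q : α → Prop) (hp : LPP p) (hq : LPP q) :
    LPP (fun a => p a ∨ q a) := by
  refine ofB _ _ (comp (fun b : Bool × Bool => b.1 || b.2) _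
    (prim _ (Primrec.or.comp Primrec.fst Primrec.snd)) (pair _ _ hp hq)) fun a => ?_
  simp

theorem imp {α : Type} [Primcodable α] (p q : α → Prop) (hp : LPP p) (hq : LPP q) :
    LPP (fun a => p a → q a) := by
  refine ofB _ _ (or _ _ (not _ hp) hq) fun a => ?_
  simp only [decide_eq_true_eq]
  tauto

end XBAS

theorem t_BAS : S_BAS := by
  refine ⟨?_, ?_, ?_, ?_, ?_⟩
  · intro α σ _ _ f hf
    exact XBAS.prim f hf
  · intro α σ τ _ _ _ f g hf hg
    exact XBAS.comp f g hf hg
  · intro α σ τ _ _ _ f g hf hg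
    exact XBAS.pair f g hf hg
  · intro α _ p q hp hq
    exact ⟨XBAS.not p hp, XBAS.and p q hp hq, XBAS.or p q hp hq, XBAS.imp p q hp hq⟩
  · intro α σ _ _ f p hp hf
    exact XBAS.comp _ f hp hf

end Pool.Agent.H662.TR
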