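import Pool.Agent.H662.TR.Stm

/-! Leaf BU of project TR (helper662): the bad strings of a machine; by helper696. -/

set_option autoImplicit false

namespace Pool.Agent.H662.TR

namespace XBU

open Nat.Partrec (Code)
open Encodable

/-- the strings of length `< m` -/
def lt (m : ℕ) : List Str := (List.range m).flatMap strs

theorem prim_strs : Primrec strs := by
  have h : Primrec₂ (fun (_ : ℕ) (l : List Str) =>
      l.map (fun σ => false :: σ) ++ l.map (fun σ => true :: σ)) :=
    Primrec.list_append.comp
      (Primrec.list_map Primrec.snd (Primrec.list_cons.comp (Primrec.const false) Primrec.snd).to₂)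
      (Primrec.list_map Primrec.snd (Primrec.list_cons.comp (Primrec.const true) Primrec.snd).to₂)
  refine (Primrec.nat_rec₁ [[]] h).of_eq fun n => ?_
  induction n with
  | zero => rfl
  | succ n ih =>
    rw [strs, ← ih]

theorem prim_lt : Primrec lt :=
  Primrec.list_flatMap Primrec.list_range (prim_strs.comp Primrec.snd).to₂

theorem mem_lt {m : ℕ} {σ : Str} : σ ∈ lt m ↔ σ.length < m := by
  unfold lt
  rw [List.mem_flatMap]
  constructor
  · rintro ⟨i, hi, h⟩
    rw [mem_strs] at h
    rw [List.mem_range] at hi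
    omega
  · intro h
    exact ⟨σ.length, List.mem_range.2 h, mem_strs.2 rfl⟩

theorem length_lt (m : ℕ) : (lt m).length + 1 = 2 ^ m := by
  induction m with
  | zero => rfl
  | succ m ih =>
    have h : lt (m + 1) = lt m ++ strs m := by
      unfold lt
      rw [List.range_succ, List.flatMap_append]
      simp
    rw [h, List.length_append, length_strs, pow_succ]
    omega

/-- the approximation of the set of bad strings -/
def be (c : Code) (x : (ℕ × Str) × ℕ) : Bool :=
  (lt (x.1.2.length - x.1.1)).foldr
    (fun q b => decide (Code.evaln x.2 c (encode q) = some (encode x.1.2)) || b) false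

theorem prim_be (c : Code) : Primrec (be c) := by
  have h1 : Primrec (fun x : ((ℕ × Str) × ℕ) × (Str × Bool) =>
      Code.evaln x.1.2 c (encode x.2.1)) :=
    Code.primrec_evaln.comp (Primrec.pair
      (Primrec.pair (Primrec.snd.comp Primrec.fst) (Primrec.const c))
      (Primrec.encode.comp (Primrec.fst.comp Primrec.snd)))
  have h2 : Primrec (fun x : ((ℕ × Str) × ℕ) × (Str × Bool) => some (encode x.1.1.2)) :=
    Primrec.option_some.comp
      (Primrec.encode.comp (Primrec.snd.comp (Primrec.fst.comp Primrec.fst)))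
  have h3 : Primrec (fun x : ((ℕ × Str) × ℕ) × (Str × Bool) =>
      decide (Code.evaln x.1.2 c (encode x.2.1) = some (encode x.1.1.2))) :=
    (Primrec.eq.comp h1 h2).decide
  have h4 : Primrec₂ (fun (a : (ℕ × Str) × ℕ) (y : Str × Bool) =>
      decide (Code.evaln a.2 c (encode y.1) = some (encode a.1.2)) || y.2) :=
    (Primrec.or.comp h3 (Primrec.snd.comp Primrec.snd)).to₂
  have h5 : Primrec (fun x : (ℕ × Str) × ℕ => lt (x.1.2.length - x.1.1)) :=
    prim_lt.comp (Primrec.nat_sub.comp
      (Primrec.list_length.comp (Primrec.snd.comp Primrec.fst)) (Primrec.fst.comp Primrec.fst))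
  exact Primrec.list_foldr h5 (Primrec.const false) h4

theorem foldr_or {α : Type} (p : α → Bool) (l : List α) :
    l.foldr (fun q b => p q || b) false = true ↔ ∃ q ∈ l, p q = true := by
  induction l with
  | nil => simp
  | cons a l ih =>
    rw [List.foldr_cons, Bool.or_eq_true, ih]
    simp

theorem be_iff {c : Code} {d s : ℕ} {σ : Str} : be c ((d, σ), s) = true ↔
    ∃ q : Str, q.length + d < σ.length ∧ Code.evaln s c (encode q) = some (encode σ) := by
  unfold be
  rw [foldr_or (fun q : Str => decide (Code.evaln s c (encode q) = some (encode σ)))]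
  constructor
  · rintro ⟨q, h1, h2⟩
    have h3 : q.length < σ.length - d := mem_lt.1 h1
    exact ⟨q, by omega, of_decide_eq_true h2⟩
  · rintro ⟨q, h1, h2⟩
    have h3 : q.length < σ.length - d := by omega
    exact ⟨q, mem_lt.2 h3, decide_eq_true h2⟩

theorem small (c : Code) (d n s : ℕ) : (bad (be c) d n s).length * 2 ^ d ≤ 2 ^ n := by
  obtain ⟨M, hM⟩ : ∃ M : List Str, M = (lt (n - d)).map
    (fun q => ((Code.evaln s c (encode q)).bind (decode (α := Str))).getD []) := ⟨_, rfl⟩
  have hsub : bad (be c) d n s ⊆ M := by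
    intro σ hσ
    rw [bad, List.mem_filter, mem_strs] at hσ
    obtain ⟨h1, h2⟩ := hσ
    obtain ⟨q, h3, h4⟩ := be_iff.1 h2
    rw [hM, List.mem_map]
    refine ⟨q, mem_lt.2 (by omega), ?_⟩
    rw [h4, Option.bind_some, encodek, Option.getD_some]
  have hnd : (bad (be c) d n s).Nodup := (nodup_strs n).filter _
  have hlen : (bad (be c) d n s).length ≤ (lt (n - d)).length := by
    have h := (hnd.subperm hsub).length_le
    rwa [hM, List.length_map] at h
  rcases le_total d n with h | h
  · have h1 := length_lt (n - d)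
    calc (bad (be c) d n s).length * 2 ^ d ≤ 2 ^ (n - d) * 2 ^ d :=
          Nat.mul_le_mul_right _ (by omega)
      _ = 2 ^ n := by rw [← pow_add, Nat.sub_add_cancel h]
  · have h1 := length_lt (n - d)
    rw [Nat.sub_eq_zero_of_le h, pow_zero] at h1
    rw [Nat.sub_eq_zero_of_le h] at hlen
    have h2 : (bad (be c) d n s).length = 0 := by omega
    rw [h2, zero_mul]
    exact Nat.zero_le _

end XBU

open XBU in
theorem t_BU : S_BU := by
  intro U hU
  obtain ⟨c, hc⟩ := Nat.Partrec.Code.exists_code.1 hU
  have hev : ∀ (q σ : Str), Encodable.encode σ ∈ c.eval (Encodable.encode q) ↔ σ ∈ U q := by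
    intro q σ
    rw [hc]
    simp only [Encodable.encodek, Part.coe_some, Part.bind_some, Part.mem_map_iff]
    constructor
    · rintro ⟨a, ha, he⟩
      rw [Encodable.encode_injective he] at ha
      exact ha
    · intro h
      exact ⟨σ, h, rfl⟩
  refine ⟨be c, prim_be c, ⟨?_, small c⟩, ?_⟩
  · intro d σ s t hst h
    obtain ⟨q, h1, h2⟩ := be_iff.1 h
    exact be_iff.2 ⟨q, h1, Nat.Partrec.Code.evaln_mono hst h2⟩
  · intro d σ
    constructor
    · rintro ⟨s, hs⟩
      obtain ⟨q, h1, h2⟩ := be_iff.1 hs
      exact ⟨q, (hev q σ).1 (Nat.Partrec.Code.evaln_sound h2), h1⟩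
    · rintro ⟨q, h1, h2⟩
      obtain ⟨k, hk⟩ := Nat.Partrec.Code.evaln_complete.1 ((hev q σ).2 h1)
      exact ⟨k, be_iff.2 ⟨q, h2, hk⟩⟩

end Pool.Agent.H662.TR
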