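import Pool.Agent.H662.TR.Stm

set_option autoImplicit false

/-!
# Task CL (helper190 for helper662): the tree is closed under nonempty initial segments
-/

namespace Pool.Agent.H662.TR

namespace XCL

open Classical in
theorem gr_succ (β : (ℕ × Str) × ℕ → Bool) (d e : ℕ) : Gr β d (e + 1) =
    (Encodable.decode (α := Node) e).elim (Gr β d e)
      (fun τ => if Good β d (τ :: Gr β d e) then τ :: Gr β d e else Gr β d e) := rfl

theorem gr_sub (β : (ℕ × Str) × ℕ → Bool) (d e : ℕ) {τ : Node} (h : τ ∈ Gr β d e) :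
    τ ∈ Gr β d (e + 1) := by
  rw [gr_succ]
  rcases Encodable.decode (α := Node) e with _ | σ
  · exact h
  · simp only [Option.elim]
    split_ifs
    · exact List.mem_cons_of_mem _ h
    · exact h

theorem gr_mono (β : (ℕ × Str) × ℕ → Bool) (d : ℕ) {e e' : ℕ} (he : e ≤ e') {τ : Node}
    (h : τ ∈ Gr β d e) : τ ∈ Gr β d e' := by
  induction e', he using Nat.le_induction with
  | base => exact h
  | succ m _ ih => exact gr_sub β d m ih

theorem avoid_iff {E : List Node} {n : ℕ} {B : List Str} : avoid E n B = true ↔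
    ∀ τ ∈ E, ¬ (τ.length ≤ n + 1 ∧ cc n B (τ.length - 1) = τ) := by
  unfold avoid
  rw [List.all_eq_true]
  refine forall_congr' fun τ => imp_congr_right fun _ => ?_
  simp only [Bool.not_eq_true', Bool.and_eq_false_iff, decide_eq_false_iff_not, not_and_or]

theorem okay_iff {β : (ℕ × Str) × ℕ → Bool} {d : ℕ} {E : List Node} {n s : ℕ} :
    okay β d E n s = true ↔ ∃ B ∈ subs (strs n), adm β d n s B = true ∧ avoid E n B = true := by
  unfold okay
  rw [List.any_eq_true]
  simp only [Bool.and_eq_true]

end XCL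

open XCL

theorem t_CL (hGG : S_GG) : S_CL := by
  intro β hβ d τ τ' hT hne hpre
  by_contra hT'
  have hmem : τ' ∈ Gr β d (Encodable.encode τ' + 1) := by
    by_contra h
    exact hT' h
  apply hT
  rw [gr_succ, Encodable.encodek]
  simp only [Option.elim]
  have hgood : Good β d (τ :: Gr β d (Encodable.encode τ)) := by
    intro n s
    obtain ⟨B, hB, hadm, hav⟩ := okay_iff.1
      (hGG β hβ d (max (Encodable.encode τ) (Encodable.encode τ' + 1)) n s)
    rw [avoid_iff] at hav
    refine okay_iff.2 ⟨B, hB, hadm, avoid_iff.2 fun σ hσ => ?_⟩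
    rcases List.mem_cons.1 hσ with rfl | hσ
    · rintro ⟨h1, h2⟩
      have hl := hpre.length_le
      have hpos : 0 < τ'.length := List.length_pos_iff.2 hne
      refine hav τ' (gr_mono β d (le_max_right _ _) hmem) ⟨hl.trans h1, ?_⟩
      have h3 := take_cc n B (show τ'.length - 1 ≤ σ.length - 1 by omega)
      rw [h2, Nat.sub_add_cancel hpos] at h3
      rw [← h3]
      exact (List.prefix_iff_eq_take.1 hpre).symm
    · exact hav σ (gr_mono β d (le_max_left _ _) hσ)
  rw [if_pos hgood]
  exact List.mem_cons_self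

end Pool.Agent.H662.TR
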