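import Pool.Agent.H662.TR.Stm

set_option autoImplicit false

namespace Pool.Agent.H662.TR

namespace XCN

theorem mem_prods (f : Str → ℕ) (N : ℕ) :
    ∀ l : List Str, (∀ σ ∈ l, f σ ≤ N) → l.map (fun σ => (σ, f σ)) ∈ prods l N
  | [], _ => by simp [prods]
  | σ :: l, h => by
    have ih := mem_prods f N l (fun τ hτ => h τ (List.mem_cons_of_mem _ hτ))
    have h1 : f σ ≤ N := h σ List.mem_cons_self
    simp only [prods, List.mem_flatMap, List.mem_map, List.mem_range, List.map_cons]
    exact ⟨f σ, Nat.lt_succ_of_le h1, _, ih, rfl⟩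

theorem cnt_le {n i : ℕ} (hi : i ≤ n) {B : List Str} (hB : List.Sublist B (strs n)) {σ : Str}
    (hσ : σ.length = i) : cnt B σ ≤ 2 ^ (n - i) := by
  have h1 : (B.filter (fun τ => pre σ τ)).Nodup := ((nodup_strs n).sublist hB).filter _
  have h2 : (B.filter (fun τ => pre σ τ)) ⊆ (strs (n - i)).map (fun t => σ ++ t) := by
    intro τ hτ
    rw [List.mem_filter] at hτ
    obtain ⟨h3, h4⟩ := hτ
    obtain ⟨t, ht⟩ := pre_iff.1 h4
    have h5 : τ.length = n := mem_strs.1 (hB.subset h3)
    rw [List.mem_map]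
    refine ⟨t, mem_strs.2 ?_, ht⟩
    rw [← ht, List.length_append] at h5
    omega
  have h3 := (h1.subperm h2).length_le
  rw [List.length_map, length_strs] at h3
  exact h3

theorem mem_code {n i : ℕ} (hi : i ≤ n) {B : List Str} (hB : List.Sublist B (strs n)) :
    code n B i ∈ prods (strs i) (2 ^ i) := by
  unfold code
  apply mem_prods (fun σ => 2 ^ i * cnt B σ / 2 ^ (n - i))
  intro σ hσ
  apply Nat.div_le_of_le_mul
  rw [mul_comm (2 ^ (n - i)) (2 ^ i)]
  exact Nat.mul_le_mul_left _ (cnt_le hi hB (mem_strs.1 hσ))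

theorem cc_succ (n : ℕ) (B : List Str) (m : ℕ) : cc n B (m + 1) = cc n B m ++ [code n B (m + 1)] := by
  unfold cc
  rw [List.range_succ (n := m + 1), List.map_append, List.map_singleton]

end XCN

theorem t_CN : S_CN := by
  intro n B m hm hB
  have hB' := mem_subs.1 hB
  induction m with
  | zero =>
    simp only [nodes, List.mem_map]
    exact ⟨code n B 0, XCN.mem_code (Nat.zero_le n) hB', by simp [cc]⟩
  | succ m ih =>
    simp only [nodes, List.mem_flatMap, List.mem_map]
    exact ⟨cc n B m, ih (by omega), code n B (m + 1), XCN.mem_code hm hB', (XCN.cc_succ n B m).symm⟩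

end Pool.Agent.H662.TR
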