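import Pool.Agent.H662.TR.Stm

/-!
# Project TR (helper662), leaf CO (helper294): greedy matching covers
-/

set_option autoImplicit false

namespace Pool.Agent.H662.TR.XCO

open Pool.Agent.H662.TR

theorem addp_grow (β : (ℕ × Str) × ℕ → Bool) (b m : ℕ) (acc : List (Str × Str)) (p r : Str × Str)
    (hr : r ∈ acc) : r ∈ addp β b m acc p := by
  unfold addp
  split_ifs with h
  · exact List.mem_cons_of_mem _ hr
  · exact hr

theorem fold_grow (β : (ℕ × Str) × ℕ → Bool) (b m : ℕ) (l : List (Str × Str)) :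
    ∀ (acc : List (Str × Str)) (r : Str × Str), r ∈ acc → r ∈ l.foldl (addp β b m) acc := by
  induction l with
  | nil => intro acc r hr; exact hr
  | cons p l ih =>
    intro acc r hr
    rw [List.foldl_cons]
    exact ih _ r (addp_grow β b m acc p r hr)

theorem fold_cover (β : (ℕ × Str) × ℕ → Bool) (b m : ℕ) (l : List (Str × Str)) (p : Str × Str)
    (hp : VV β b m p.1 p.2) :
    ∀ acc : List (Str × Str), p ∈ l →
      ∃ r ∈ l.foldl (addp β b m) acc, pre r.1 p.1 = true ∨ pre r.2 p.2 = true := by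
  induction l with
  | nil => intro acc h; exact absurd h List.not_mem_nil
  | cons q l ih =>
    intro acc h
    rw [List.foldl_cons]
    rcases List.mem_cons.1 h with rfl | h
    · have h1 : ∃ r ∈ addp β b m acc p, pre r.1 p.1 = true ∨ pre r.2 p.2 = true := by
        unfold addp
        split_ifs with hc
        · exact ⟨p, List.mem_cons_self, Or.inl (pre_iff.2 (List.prefix_refl _))⟩
        · by_contra hcon
          push Not at hcon
          refine hc ⟨hp, fun r hr => ?_⟩
          obtain ⟨h1, h2⟩ := hcon r hr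
          exact ⟨Bool.eq_false_iff.2 h1, Bool.eq_false_iff.2 h2⟩
      obtain ⟨r, hr, hr2⟩ := h1
      exact ⟨r, fold_grow β b m l _ r hr, hr2⟩
    · exact ih _ h

theorem eq_xs {X : ℕ → Bool} {n : ℕ} {σ : Str} (h : pre σ (xs X n) = true) : σ = xs X σ.length := by
  have h1 := pre_iff.1 h
  have h2 : σ.length ≤ n := by
    have := h1.length_le
    rwa [length_xs] at this
  have h3 := List.prefix_iff_eq_take.1 h1
  rwa [take_xs X h2] at h3

end Pool.Agent.H662.TR.XCO

namespace Pool.Agent.H662.TR

open XCO in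
theorem t_CO : S_CO := by
  intro β b m X Y h
  have hmem : (xs X (m + 1), xs Y (m + 1)) ∈ pairs (m + 1) := by
    unfold pairs
    rw [List.mem_flatMap]
    exact ⟨xs X (m + 1), mem_strs.2 (length_xs X _), List.mem_map.2 ⟨xs Y (m + 1),
      mem_strs.2 (length_xs Y _), rfl⟩⟩
  obtain ⟨r, hr, hr2⟩ := fold_cover β b (m + 1) (pairs (m + 1)) (xs X (m + 1), xs Y (m + 1)) h
    (AL β b m) hmem
  refine ⟨r, hr, ?_⟩
  rcases hr2 with hr2 | hr2
  · exact Or.inl (eq_xs hr2)
  · exact Or.inr (eq_xs hr2)

end Pool.Agent.H662.TR
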