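import Pool.Agent.H662.TR.Stm

/-!
# The maximal inequality for the densities of a set of strings (leaf DB)
-/

set_option autoImplicit false

namespace Pool.Agent.H662.TR

namespace XDB

/-- the string `σ` is heavy: at least `1/32` of its extensions of length `n` are in `B` -/
def hv (n : ℕ) (B : List Str) (σ : Str) : Prop := 2 ^ (n - σ.length) ≤ 32 * cnt B σ

/-- `ρ ++ ξ` has a heavy initial segment that extends `ρ` -/
def HP (n : ℕ) (B : List Str) (ρ ξ : Str) : Prop := ∃ j, hv n B (ρ ++ ξ.take j)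

theorem cnt_eq (B : List Str) (σ : Str) : cnt B σ = B.countP (fun τ => pre σ τ) := by
  rw [cnt, List.countP_eq_length_filter]

theorem pre_app_left (ρ τ : Str) (x : Bool) (h : pre (ρ ++ [x]) τ = true) : pre ρ τ = true := by
  rw [pre_iff] at h ⊢
  exact (List.prefix_append ρ [x]).trans h

theorem pre_app_disj (ρ τ : Str) (h : pre (ρ ++ [false]) τ = true) : ¬ pre (ρ ++ [true]) τ = true := by
  intro h2
  rw [pre_iff] at h h2
  have h3 : ρ ++ [false] = ρ ++ [true] := by
    have e1 := List.prefix_iff_eq_take.1 h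
    have e2 := List.prefix_iff_eq_take.1 h2
    rw [e1, e2]
    simp
  simp at h3

theorem cnt_split (B : List Str) (ρ : Str) :
    cnt B (ρ ++ [false]) + cnt B (ρ ++ [true]) ≤ cnt B ρ := by
  rw [cnt_eq, cnt_eq, cnt_eq]
  induction B with
  | nil => simp
  | cons τ B ih =>
    rw [List.countP_cons, List.countP_cons, List.countP_cons]
    have key : (if pre (ρ ++ [false]) τ = true then 1 else 0) +
        (if pre (ρ ++ [true]) τ = true then 1 else 0) ≤ (if pre ρ τ = true then 1 else 0) := by
      by_cases h0 : pre (ρ ++ [false]) τ = true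
      · have h1 := pre_app_disj ρ τ h0
        have h2 := pre_app_left ρ τ false h0
        rw [if_pos h0, if_neg h1, if_pos h2]
      · by_cases h1 : pre (ρ ++ [true]) τ = true
        · have h2 := pre_app_left ρ τ true h1
          rw [if_neg h0, if_pos h1, if_pos h2]
        · rw [if_neg h0, if_neg h1]
          exact Nat.zero_le _
    omega

open Classical in
/-- `HP` as a Boolean -/
noncomputable def hb (n : ℕ) (B : List Str) (ρ ξ : Str) : Bool := decide (HP n B ρ ξ)

open Classical in
theorem hb_iff {n : ℕ} {B : List Str} {ρ ξ : Str} : hb n B ρ ξ = true ↔ HP n B ρ ξ := by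
  rw [hb, decide_eq_true_eq]

/-- the number of the strings of length `k` such that `ρ ++ ξ` has a heavy initial segment -/
noncomputable def num (n : ℕ) (B : List Str) (k : ℕ) (ρ : Str) : ℕ :=
  (strs k).countP (fun ξ => hb n B ρ ξ)

theorem hp_cons {n : ℕ} {B : List Str} {ρ : Str} (h : ¬ hv n B ρ) (x : Bool) (ξ : Str) :
    HP n B ρ (x :: ξ) ↔ HP n B (ρ ++ [x]) ξ := by
  constructor
  · rintro ⟨j, hj⟩
    cases j with
    | zero =>
      rw [List.take_zero, List.append_nil] at hj
      exact absurd hj h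
    | succ j =>
      refine ⟨j, ?_⟩
      rw [List.append_assoc]
      exact hj
  · rintro ⟨j, hj⟩
    refine ⟨j + 1, ?_⟩
    rw [List.append_assoc] at hj
    exact hj

theorem num_le (n : ℕ) (B : List Str) (k : ℕ) (ρ : Str) : num n B k ρ ≤ 2 ^ k := by
  rw [num]
  exact List.countP_le_length.trans (length_strs k).le

theorem num_succ {n : ℕ} {B : List Str} (k : ℕ) {ρ : Str} (h : ¬ hv n B ρ) :
    num n B (k + 1) ρ = num n B k (ρ ++ [false]) + num n B k (ρ ++ [true]) := by
  have e : ∀ x : Bool, (strs k).countP ((fun ξ => hb n B ρ ξ) ∘ fun σ => x :: σ) =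
      num n B k (ρ ++ [x]) := by
    intro x
    rw [num]
    apply List.countP_congr
    intro ξ _
    simp only [Function.comp_apply, hb_iff]
    exact hp_cons h x ξ
  rw [num, strs, List.countP_append, List.countP_map, List.countP_map, e, e]

theorem main (n m : ℕ) (B : List Str) (hmn : m ≤ n) :
    ∀ (k : ℕ) (ρ : Str), ρ.length + k = m → num n B k ρ * 2 ^ (n - m) ≤ 32 * cnt B ρ := by
  intro k
  induction k with
  | zero =>
    intro ρ hρ
    by_cases h : hv n B ρ
    · have h1 := num_le n B 0 ρ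
      have h2 : (2:ℕ) ^ (n - m) ≤ 32 * cnt B ρ := by
        have : n - m = n - ρ.length := by omega
        rw [this]; exact h
      calc num n B 0 ρ * 2 ^ (n - m) ≤ 2 ^ 0 * 2 ^ (n - m) := Nat.mul_le_mul_right _ h1
        _ = 2 ^ (n - m) := by rw [pow_zero, one_mul]
        _ ≤ 32 * cnt B ρ := h2
    · have h1 : num n B 0 ρ = 0 := by
        rw [num, List.countP_eq_zero]
        intro ξ hξ
        rw [hb_iff]
        rintro ⟨j, hj⟩
        have : ξ = [] := by
          have := mem_strs.1 hξ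
          exact List.eq_nil_of_length_eq_zero this
        rw [this, List.take_nil, List.append_nil] at hj
        exact h hj
      rw [h1, zero_mul]
      exact Nat.zero_le _
  | succ k ih =>
    intro ρ hρ
    by_cases h : hv n B ρ
    · have h1 := num_le n B (k + 1) ρ
      have h2 : (2:ℕ) ^ (k + 1) * 2 ^ (n - m) = 2 ^ (n - ρ.length) := by
        rw [← pow_add]
        apply congrArg
        omega
      calc num n B (k + 1) ρ * 2 ^ (n - m) ≤ 2 ^ (k + 1) * 2 ^ (n - m) := Nat.mul_le_mul_right _ h1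
        _ = 2 ^ (n - ρ.length) := h2
        _ ≤ 32 * cnt B ρ := h
    · rw [num_succ k h, add_mul]
      have h1 := ih (ρ ++ [false]) (by rw [List.length_append, List.length_singleton]; omega)
      have h2 := ih (ρ ++ [true]) (by rw [List.length_append, List.length_singleton]; omega)
      have h3 := cnt_split B ρ
      omega

theorem f1_hp {n m : ℕ} (B : List Str) (ξ : Str) (h : F1 (cc n B m) ξ = true) :
    HP n B [] ξ := by
  rw [F1, List.any_eq_true] at h
  obtain ⟨p, hp, h1⟩ := h
  rw [Bool.and_eq_true, decide_eq_true_eq] at h1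
  obtain ⟨h1, h2⟩ := h1
  rw [List.mem_flatten] at hp
  obtain ⟨l, hl, hp⟩ := hp
  rw [cc, List.mem_map] at hl
  obtain ⟨i, hi, rfl⟩ := hl
  rw [List.mem_range] at hi
  rw [code, List.mem_map] at hp
  obtain ⟨σ, hσ, rfl⟩ := hp
  rw [mem_strs] at hσ
  dsimp only at h1 h2
  refine ⟨σ.length, ?_⟩
  have h3 : ξ.take σ.length = σ := by
    rw [pre, decide_eq_true_eq] at h1
    exact h1
  rw [h3, List.nil_append, hv, hσ]
  rw [hσ] at h2
  have h4 : 2 ^ i * cnt B σ / 2 ^ (n - i) * 2 ^ (n - i) ≤ 2 ^ i * cnt B σ := Nat.div_mul_le_self _ _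
  have h5 : 2 ^ i * 2 ^ (n - i) ≤ 2 ^ i * (32 * cnt B σ) := by
    calc 2 ^ i * 2 ^ (n - i) ≤ 32 * (2 ^ i * cnt B σ / 2 ^ (n - i)) * 2 ^ (n - i) :=
          Nat.mul_le_mul_right _ h2
      _ = 32 * (2 ^ i * cnt B σ / 2 ^ (n - i) * 2 ^ (n - i)) := by rw [mul_assoc]
      _ ≤ 32 * (2 ^ i * cnt B σ) := Nat.mul_le_mul_left _ h4
      _ = 2 ^ i * (32 * cnt B σ) := by ring
  exact Nat.le_of_mul_le_mul_left h5 (by positivity)

end XDB

open XDB in
theorem t_DB : S_DB := by
  intro n m d B hmn _ hd
  have h1 := main n m B hmn m [] (by simp)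
  have h2 : ((strs m).filter (fun ξ => F1 (cc n B m) ξ)).length ≤ num n B m [] := by
    rw [← List.countP_eq_length_filter, num]
    apply List.countP_mono_left
    intro ξ _ h
    rw [hb_iff]
    exact f1_hp B ξ h
  have h3 : cnt B [] ≤ B.length := by
    rw [cnt_eq]
    exact List.countP_le_length
  have h4 : (2:ℕ) ^ n = 2 ^ m * 2 ^ (n - m) := by
    rw [← pow_add]
    apply congrArg
    omega
  have h5 : ((strs m).filter (fun ξ => F1 (cc n B m) ξ)).length * 2 ^ d * 2 ^ (n - m) ≤
      32 * 2 ^ m * 2 ^ (n - m) := by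
    calc ((strs m).filter (fun ξ => F1 (cc n B m) ξ)).length * 2 ^ d * 2 ^ (n - m)
        ≤ num n B m [] * 2 ^ d * 2 ^ (n - m) :=
          Nat.mul_le_mul_right _ (Nat.mul_le_mul_right _ h2)
      _ = (num n B m [] * 2 ^ (n - m)) * 2 ^ d := by ring
      _ ≤ (32 * cnt B []) * 2 ^ d := Nat.mul_le_mul_right _ h1
      _ ≤ (32 * B.length) * 2 ^ d := Nat.mul_le_mul_right _ (Nat.mul_le_mul_left _ h3)
      _ = 32 * (B.length * 2 ^ d) := by ring
      _ ≤ 32 * 2 ^ n := Nat.mul_le_mul_left _ hd
      _ = 32 * 2 ^ m * 2 ^ (n - m) := by rw [h4]; ring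
  exact Nat.le_of_mul_le_mul_right h5 (by positivity)

end Pool.Agent.H662.TR
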