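import Pool.Agent.H662.TR.Stm

/-! DW: the chosen witness is a witness (helper94 for helper662) -/

set_option autoImplicit false

namespace Pool.Agent.H662.TR

theorem t_DW (hWE : S_WE) : S_DW := by
  intro β hβ d τ hτ
  obtain ⟨v, hv⟩ := hWE β hβ d τ hτ
  have hne : {c : ℕ | Q β d τ c}.Nonempty :=
    ⟨Encodable.encode v, Or.inr ⟨v, Encodable.encodek v, hv⟩⟩
  have h : Q β d τ (dcode β d τ) := Nat.sInf_mem hne
  rcases h with h | ⟨w, hw, hW⟩
  · exact absurd hτ h
  · unfold dat
    rw [hw]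
    exact hW

end Pool.Agent.H662.TR
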