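import Pool.Agent.H662.TR.Stm

/-!
# Project TR of helper662: the final combination (helper225)
-/

set_option autoImplicit false

namespace Pool.Agent.H662.TR

namespace XFI

theorem ofFn_eq (Z : ℕ → Bool) (n : ℕ) : List.ofFn (fun i : Fin n => Z i) = xs Z n := by
  apply List.ext_getElem
  · simp [xs]
  · intro i h1 h2
    simp [xs]

theorem esc_false (hSG : S_SG) (hWT : S_WT) (A : ℕ × ℕ → List Str) (hA : LP A)
    (hmono : ∀ b m m', m ≤ m' → ∀ σ ∈ A (b, m), σ ∈ A (b, m'))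
    (hw : ∀ b m, ((A (b, m)).map (fun σ => ((1:ℝ)/2) ^ σ.length)).sum ≤ 4 * ((1:ℝ)/2) ^ b)
    (Z : ℕ → Bool) (hZ : Esc Z)
    (h : ∀ k, ∃ b, k ≤ b ∧ ∃ m, ∃ σ ∈ A (b, m), σ = xs Z σ.length) : False := by
  obtain ⟨R, hR, hR2⟩ := hSG A hA
  apply hZ
  refine ⟨R, hR, ?_, ?_⟩
  · intro k S hS
    exact hWT A hmono hw k S (fun σ hσ => (hR2 k σ).1 (hS σ hσ))
  · intro k
    obtain ⟨b, hb, m, σ, hσ, e⟩ := h (k + 4)
    obtain ⟨a, ha⟩ := (hR2 k σ).2 ⟨b, m, hb, hσ⟩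
    refine ⟨σ.length, a, fun t => ?_⟩
    rw [ofFn_eq, ← e]
    exact ha t

end XFI

open XFI in
theorem t_FI (hKO : S_KO) (hCO : S_CO) (hMB : S_MB) (hAI : S_AI) (hLA : S_LA) (hSG : S_SG)
    (hWT : S_WT) (hBAS : S_BAS) : S_FI := by
  intro β hP hβ X Y hX hY
  by_contra hcon
  have key : ∀ b, ∃ m, ∃ p ∈ AL β b m, p.1 = xs X p.1.length ∨ p.2 = xs Y p.2.length := by
    intro b
    have h1 : ¬ ∃ᶠ n in Filter.atTop, ¬ Bd β (b + 5) (xs X n) ∧ ¬ Bd β (b + 5) (xs Y n) :=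
      fun h => hcon ⟨b, h⟩
    rw [Filter.not_frequently] at h1
    obtain ⟨N, hN⟩ := Filter.eventually_atTop.1 h1
    obtain ⟨m, hm⟩ := hKO β hβ b X Y ⟨N, fun n hn => by
      have h2 := hN n hn
      by_contra h3
      rw [not_or] at h3
      exact h2 h3⟩
    obtain ⟨p, hp, h⟩ := hCO β b m X Y hm
    exact ⟨m + 1, p, hp, h⟩
  have hA := hLA β hP hβ
  have hf1 : Primrec (fun l : List (Str × Str) => l.map Prod.fst) :=
    Primrec.list_map Primrec.id (Primrec.fst.comp Primrec.snd).to₂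
  have hf2 : Primrec (fun l : List (Str × Str) => l.map Prod.snd) :=
    Primrec.list_map Primrec.id (Primrec.snd.comp Primrec.snd).to₂
  have hA1 : LP (fun x : ℕ × ℕ => (AL β x.1 x.2).map Prod.fst) :=
    hBAS.2.1 _ _ _ (fun l : List (Str × Str) => l.map Prod.fst) _ (hBAS.1 _ _ _ hf1) hA
  have hA2 : LP (fun x : ℕ × ℕ => (AL β x.1 x.2).map Prod.snd) :=
    hBAS.2.1 _ _ _ (fun l : List (Str × Str) => l.map Prod.snd) _ (hBAS.1 _ _ _ hf2) hA
  by_cases hc : ∀ k, ∃ b, k ≤ b ∧ ∃ m, ∃ p ∈ AL β b m, p.1 = xs X p.1.length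
  · refine esc_false hSG hWT (fun x : ℕ × ℕ => (AL β x.1 x.2).map Prod.fst) hA1 ?_ ?_ X hX ?_
    · intro b m m' hm σ hσ
      obtain ⟨p, hp, rfl⟩ := List.mem_map.1 hσ
      exact List.mem_map.2 ⟨p, (hAI β b m).2.2 m' hm p hp, rfl⟩
    · intro b m
      have h1 := (hMB β hβ b m).1
      rw [List.map_map]
      exact h1
    · intro k
      obtain ⟨b, hb, m, p, hp, h⟩ := hc k
      exact ⟨b, hb, m, p.1, List.mem_map.2 ⟨p, hp, rfl⟩, h⟩
  · rw [not_forall] at hc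
    obtain ⟨k0, hk0⟩ := hc
    refine esc_false hSG hWT (fun x : ℕ × ℕ => (AL β x.1 x.2).map Prod.snd) hA2 ?_ ?_ Y hY ?_
    · intro b m m' hm σ hσ
      obtain ⟨p, hp, rfl⟩ := List.mem_map.1 hσ
      exact List.mem_map.2 ⟨p, (hAI β b m).2.2 m' hm p hp, rfl⟩
    · intro b m
      have h1 := (hMB β hβ b m).2
      rw [List.map_map]
      exact h1
    · intro k
      obtain ⟨m, p, hp, h | h⟩ := key (max k k0)
      · exact absurd ⟨max k k0, le_max_right _ _, m, p, hp, h⟩ hk0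
      · exact ⟨max k k0, le_max_left _ _, m, p.2, List.mem_map.2 ⟨p, hp, rfl⟩, h⟩

end Pool.Agent.H662.TR
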