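import Pool.Agent.H662.TR.Stm

/-!
# Limit computability under `foldl`
-/

set_option autoImplicit false

namespace Pool.Agent.H662.TR

namespace XFOLD

/-- for a fixed list and a fixed starting value the folds of the approximations converge -/
theorem conv {τ σ : Type} (H : (σ × τ) × ℕ → σ) (h : σ × τ → σ)
    (hH : ∀ x, ∀ᶠ s in Filter.atTop, H (x, s) = h x) (l : List τ) :
    ∀ x : σ, ∀ᶠ s in Filter.atTop,
      l.foldl (fun y t => H ((y, t), s)) x = l.foldl (fun y t => h (y, t)) x := by
  induction l with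
  | nil => intro x; exact Filter.Eventually.of_forall (fun _ => rfl)
  | cons t l ih =>
    intro x
    filter_upwards [hH (x, t), ih (h (x, t))] with s h1 h2
    simp only [List.foldl_cons]
    rw [h1, h2]

end XFOLD

theorem t_FOLD : S_FOLD := by
  intro α τ σ _ _ _ l g h hl hg hh
  obtain ⟨L, hL, hL'⟩ := hl
  obtain ⟨G, hG, hG'⟩ := hg
  obtain ⟨H, hH, hH'⟩ := hh
  refine ⟨fun x => (L x).foldl (fun y t => H ((x.1, (y, t)), x.2)) (G x), ?_, ?_⟩
  · have h2 : Primrec₂ (fun (x : α × ℕ) (z : σ × τ) => H ((x.1, z), x.2)) :=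
      hH.comp (Primrec.pair (Primrec.pair (Primrec.fst.comp Primrec.fst) Primrec.snd)
        (Primrec.snd.comp Primrec.fst))
    exact Primrec.list_foldl hL hG h2
  · intro a
    have h3 := XFOLD.conv (fun z : (σ × τ) × ℕ => H ((a, z.1), z.2)) (fun z => h (a, z))
      (fun x => hH' (a, x)) (l a) (g a)
    filter_upwards [hL' a, hG' a, h3] with s e1 e2 e3
    simp only [e1, e2]
    exact e3

end Pool.Agent.H662.TR
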