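import Pool.Agent.H662.TR.Stm

set_option autoImplicit false

namespace Pool.Agent.H662.TR

theorem t_GG : S_GG := by
  intro β hβ d e
  induction e with
  | zero =>
    intro n s
    unfold okay
    rw [List.any_eq_true]
    refine ⟨bad β d n s, mem_subs.2 List.filter_sublist, ?_⟩
    rw [Bool.and_eq_true]
    refine ⟨?_, rfl⟩
    unfold adm
    rw [Bool.and_eq_true, List.all_eq_true]
    exact ⟨fun σ hσ => decide_eq_true hσ, decide_eq_true (hβ.small d n s)⟩
  | succ e ih =>
    unfold Gr
    cases h : Encodable.decode (α := Node) e with
    | none => exact ih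
    | some τ =>
      rw [Option.elim_some]
      split_ifs with hg
      · exact hg
      · exact ih

end Pool.Agent.H662.TR
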