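import Pool.Agent.H662.TR.Stm

set_option autoImplicit false

namespace Pool.Agent.H662.TR

theorem t_ITE : S_ITE := by
  intro α σ _ _ p f g hp hf hg
  obtain ⟨P, hP, hP2⟩ := hp
  obtain ⟨F, hF, hF2⟩ := hf
  obtain ⟨G, hG, hG2⟩ := hg
  refine ⟨fun x => bif P x then F x else G x, Primrec.cond hP hF hG, fun a => ?_⟩
  filter_upwards [hP2 a, hF2 a, hG2 a] with s h1 h2 h3
  rw [h1, h2, h3]
  by_cases h : p a
  · simp only [h, decide_true, cond_true, if_true]
  · simp only [h, decide_false, cond_false, if_false]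

end Pool.Agent.H662.TR
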