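import Pool.Agent.H662.TR.Stm

set_option autoImplicit false

namespace Pool.Agent.H662.TR

namespace XITR

theorem conv {α σ : Type} (h : α × σ → σ) (h' : (α × σ) × ℕ → σ)
    (hh : ∀ x, ∀ᶠ s in Filter.atTop, h' (x, s) = h x) (a : α) (x₀ : σ) (i : ℕ) :
    ∀ᶠ s in Filter.atTop, (fun x => h' ((a, x), s))^[i] x₀ = (fun x => h (a, x))^[i] x₀ := by
  induction i with
  | zero => exact Filter.Eventually.of_forall fun _ => rfl
  | succ i ih =>
    filter_upwards [ih, hh (a, (fun x => h (a, x))^[i] x₀)] with s h1 h2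
    rw [Function.iterate_succ_apply', Function.iterate_succ_apply', h1, h2]

end XITR

open XITR in
theorem t_ITR : S_ITR := by
  intro α σ _ _ n g h hn hg hh
  obtain ⟨n', pn, cn⟩ := hn
  obtain ⟨g', pg, cg⟩ := hg
  obtain ⟨h', ph, ch⟩ := hh
  refine ⟨fun p => (fun x => h' ((p.1, x), p.2))^[n' p] (g' p), ?_, ?_⟩
  · have h1 : Primrec₂ (fun (p : α × ℕ) (x : σ) => h' ((p.1, x), p.2)) :=
      ph.comp (((Primrec.fst.comp Primrec.fst).pair Primrec.snd).pair
        (Primrec.snd.comp Primrec.fst))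
    exact Primrec.nat_iterate pn pg h1
  · intro a
    filter_upwards [cn a, cg a, conv h h' ch a (g a) (n a)] with s h1 h2 h3
    simp only [h1, h2]
    exact h3

end Pool.Agent.H662.TR
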