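import Pool.Agent.H662.TR.Stm

/-!
# KO: compactness (by helper261)
-/

set_option autoImplicit false

namespace Pool.Agent.H662.TR

namespace XKO

theorem length_nodes (m : ℕ) : ∀ τ ∈ nodes m, τ.length = m + 1 := by
  induction m with
  | zero =>
    intro τ hτ
    simp only [nodes, List.mem_map] at hτ
    obtain ⟨r, _, rfl⟩ := hτ
    rfl
  | succ m ih =>
    intro τ hτ
    simp only [nodes, List.mem_flatMap, List.mem_map] at hτ
    obtain ⟨σ, hσ, r, _, rfl⟩ := hτ
    rw [List.length_append, ih σ hσ]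
    rfl

theorem xs_prefix (X : ℕ → Bool) {i n : ℕ} (h : i ≤ n) : xs X i <+: xs X n := by
  rw [← take_xs X h]
  exact List.take_prefix _ _

end XKO

theorem t_KO (hCL : S_CL) (hMO : S_MO) (hPA : S_PA) (hKL : S_KL) : S_KO := by
  intro β hβ b X Y hN
  by_contra hcon
  have h1 : ∀ m, ∃ τ ∈ nodes (m + 1), inT β (b + 5) τ ∧ ¬ US β b τ (xs X (m + 1)) ∧
      ¬ US β b τ (xs Y (m + 1)) := by
    intro m
    by_contra h
    apply hcon
    refine ⟨m, fun τ hτ hT => ?_⟩
    by_contra hU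
    rw [not_or] at hU
    exact h ⟨τ, hτ, hT, hU⟩
  have hmono : ∀ (Z : ℕ → Bool) (τ τ' : Node), inT β (b + 5) τ → τ' ≠ [] → τ' <+: τ →
      US β b τ' (xs Z (τ'.length - 1)) → US β b τ (xs Z (τ.length - 1)) := by
    intro Z τ τ' hT hne hpre hU
    have l1 : 0 < τ'.length := List.length_pos_iff.2 hne
    have l2 : τ'.length ≤ τ.length := hpre.length_le
    refine hMO β hβ b τ' τ _ _ hT hpre (XKO.xs_prefix Z (by omega)) ?_ ?_ hU
    · rw [length_xs]; omega
    · rw [length_xs]; omega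
  obtain ⟨P, hP⟩ := hKL (fun τ => τ ≠ [] ∧ inT β (b + 5) τ ∧ ¬ US β b τ (xs X (τ.length - 1)) ∧
    ¬ US β b τ (xs Y (τ.length - 1))) (by
      rintro τ τ' ⟨_, hT, hX, hY⟩ hne hpre
      exact ⟨hne, hCL β hβ (b + 5) τ τ' hT hne hpre,
        fun h => hX (hmono X τ τ' hT hne hpre h), fun h => hY (hmono Y τ τ' hT hne hpre h)⟩) (by
      intro m
      obtain ⟨τ, hτ, hT, hX, hY⟩ := h1 m
      have hl := XKO.length_nodes (m + 1) τ hτ
      refine ⟨τ, hτ, ?_, hT, ?_, ?_⟩
      · intro h0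
        rw [h0] at hl
        simp at hl
      · rw [hl]; exact hX
      · rw [hl]; exact hY)
  obtain ⟨m, hm⟩ := hPA β hβ b X Y P hN (fun m => (hP m).2.1)
  obtain ⟨_, _, hX, hY⟩ := hP m
  rw [length_seg, Nat.add_sub_cancel] at hX hY
  rcases hm with h | h
  · exact hX h
  · exact hY h

end Pool.Agent.H662.TR
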