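import Pool.Agent.H662.TR.Stm

/-!
Project TR (helper662), task LA: limit computability of `VV`, `addp`, `AL`.
-/

set_option autoImplicit false

namespace Pool.Agent.H662.TR

namespace XLA

theorem lp_congr {α σ : Type} [Primcodable α] [Primcodable σ] {f f' : α → σ} (h : LP f)
    (e : ∀ a, f' a = f a) : LP f' := by
  rw [funext e]
  exact h

/-- `VV` is limit computable -/
theorem vv (hLU : S_LU) (hLT : S_LT) (hPR4 : S_PR4) (hBAS : S_BAS) (hALL : S_ALL)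
    (β : (ℕ × Str) × ℕ → Bool) (hβ : Primrec β) (hH : Hyp β) :
    LPP (fun x : (ℕ × ℕ) × (Str × Str) => VV β x.1.1 x.1.2 x.2.1 x.2.2) := by
  obtain ⟨B1, B2, B3, B4, B5⟩ := hBAS
  have hl : LP (fun x : (ℕ × ℕ) × (Str × Str) => nodes x.1.2) :=
    B1 _ _ _ (hPR4.1.comp (Primrec.snd.comp Primrec.fst))
  have fb : Primrec (fun x : ((ℕ × ℕ) × (Str × Str)) × Node => x.1.1.1) :=
    Primrec.fst.comp (Primrec.fst.comp Primrec.fst)
  have h1 : LPP (fun x : ((ℕ × ℕ) × (Str × Str)) × Node => inT β (x.1.1.1 + 5) x.2) :=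
    B5 _ _ (fun x : ((ℕ × ℕ) × (Str × Str)) × Node => (x.1.1.1 + 5, x.2))
      (fun x : ℕ × Node => inT β x.1 x.2) (hLT β hβ).2
      (B1 _ _ _ (Primrec.pair (Primrec.nat_add.comp fb (Primrec.const 5)) Primrec.snd))
  have h2 : LPP (fun x : ((ℕ × ℕ) × (Str × Str)) × Node => US β x.1.1.1 x.2 x.1.2.1) :=
    B5 _ _ (fun x : ((ℕ × ℕ) × (Str × Str)) × Node => ((x.1.1.1, x.2), x.1.2.1))
      (fun x : (ℕ × Node) × Str => US β x.1.1 x.1.2 x.2) (hLU β hβ hH)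
      (B1 _ _ _ (Primrec.pair (Primrec.pair fb Primrec.snd)
        (Primrec.fst.comp (Primrec.snd.comp Primrec.fst))))
  have h3 : LPP (fun x : ((ℕ × ℕ) × (Str × Str)) × Node => US β x.1.1.1 x.2 x.1.2.2) :=
    B5 _ _ (fun x : ((ℕ × ℕ) × (Str × Str)) × Node => ((x.1.1.1, x.2), x.1.2.2))
      (fun x : (ℕ × Node) × Str => US β x.1.1 x.1.2 x.2) (hLU β hβ hH)
      (B1 _ _ _ (Primrec.pair (Primrec.pair fb Primrec.snd)
        (Primrec.snd.comp (Primrec.snd.comp Primrec.fst))))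
  have h4 := (B4 _ _ _ h2 h3).2.2.1
  have h5 := (B4 _ _ _ h1 h4).2.2.2
  exact (hALL _ _ _ _ hl h5).1

/-- equality to `false` is limit computable -/
theorem isF (hBAS : S_BAS) {α : Type} [Primcodable α] (f : α → Bool) (hf : Primrec f) :
    LPP (fun a => f a = false) :=
  hBAS.2.2.2.2 α Bool f (fun c => c = false) (hBAS.1 _ _ _ (Primrec.dom_bool _))
    (hBAS.1 _ _ _ hf)

/-- the second condition in `addp` -/
theorem cond (hPR1 : S_PR1) (hBAS : S_BAS) (hALL : S_ALL) :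
    LPP (fun x : (ℕ × ℕ) × (List (Str × Str) × (Str × Str)) =>
      ∀ r ∈ x.2.1, pre r.1 x.2.2.1 = false ∧ pre r.2 x.2.2.2 = false) := by
  have hl : LP (fun x : (ℕ × ℕ) × (List (Str × Str) × (Str × Str)) => x.2.1) :=
    hBAS.1 _ _ _ (Primrec.fst.comp Primrec.snd)
  have f1 : Primrec (fun x : ((ℕ × ℕ) × (List (Str × Str) × (Str × Str))) × (Str × Str) =>
      pre x.2.1 x.1.2.2.1) :=
    hPR1.2.2.1.comp (Primrec.pair (Primrec.fst.comp Primrec.snd)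
      (Primrec.fst.comp (Primrec.snd.comp (Primrec.snd.comp Primrec.fst))))
  have f2 : Primrec (fun x : ((ℕ × ℕ) × (List (Str × Str) × (Str × Str))) × (Str × Str) =>
      pre x.2.2 x.1.2.2.2) :=
    hPR1.2.2.1.comp (Primrec.pair (Primrec.snd.comp Primrec.snd)
      (Primrec.snd.comp (Primrec.snd.comp (Primrec.snd.comp Primrec.fst))))
  have h := (hBAS.2.2.2.1 _ _ _ (isF hBAS _ f1) (isF hBAS _ f2)).2.1
  exact (hALL _ _ _ _ hl h).1

/-- `addp` is limit computable -/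
theorem ad (hLU : S_LU) (hLT : S_LT) (hPR1 : S_PR1) (hPR4 : S_PR4) (hBAS : S_BAS) (hITE : S_ITE)
    (hALL : S_ALL) (β : (ℕ × Str) × ℕ → Bool) (hβ : Primrec β) (hH : Hyp β) :
    LP (fun x : (ℕ × ℕ) × (List (Str × Str) × (Str × Str)) =>
      addp β x.1.1 x.1.2 x.2.1 x.2.2) := by
  have hv := vv hLU hLT hPR4 hBAS hALL β hβ hH
  have hv' : LPP (fun x : (ℕ × ℕ) × (List (Str × Str) × (Str × Str)) =>
      VV β x.1.1 x.1.2 x.2.2.1 x.2.2.2) :=
    hBAS.2.2.2.2 _ _ (fun x : (ℕ × ℕ) × (List (Str × Str) × (Str × Str)) => (x.1, x.2.2))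
      (fun x : (ℕ × ℕ) × (Str × Str) => VV β x.1.1 x.1.2 x.2.1 x.2.2) hv
      (hBAS.1 _ _ _ (Primrec.pair Primrec.fst (Primrec.snd.comp Primrec.snd)))
  have hc := (hBAS.2.2.2.1 _ _ _ hv' (cond hPR1 hBAS hALL)).2.1
  have h1 : LP (fun x : (ℕ × ℕ) × (List (Str × Str) × (Str × Str)) => x.2.2 :: x.2.1) :=
    hBAS.1 _ _ _ (Primrec.list_cons.comp (Primrec.snd.comp Primrec.snd)
      (Primrec.fst.comp Primrec.snd))
  have h2 : LP (fun x : (ℕ × ℕ) × (List (Str × Str) × (Str × Str)) => x.2.1) :=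
    hBAS.1 _ _ _ (Primrec.fst.comp Primrec.snd)
  have h3 := hITE _ _ _ _ _ hc h1 h2
  refine lp_congr h3 fun x => ?_
  unfold addp
  by_cases hx : VV β x.1.1 x.1.2 x.2.2.1 x.2.2.2 ∧
      ∀ r ∈ x.2.1, pre r.1 x.2.2.1 = false ∧ pre r.2 x.2.2.2 = false
  · rw [if_pos hx, if_pos hx]
  · rw [if_neg hx, if_neg hx]

end XLA

open XLA in
theorem t_LA (hLU : S_LU) (hLT : S_LT) (hPR1 : S_PR1) (hPR4 : S_PR4) (hBAS : S_BAS)
    (hITE : S_ITE) (hALL : S_ALL) (hFOLD : S_FOLD) (hREC : S_REC) : S_LA := by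
  intro β hβ hH
  have ha := ad hLU hLT hPR1 hPR4 hBAS hITE hALL β hβ hH
  have hl : LP (fun a : ℕ × (ℕ × List (Str × Str)) => pairs (a.2.1 + 1)) :=
    hBAS.1 _ _ _ (hPR4.2.1.comp (Primrec.succ.comp (Primrec.fst.comp Primrec.snd)))
  have hg : LP (fun a : ℕ × (ℕ × List (Str × Str)) => a.2.2) :=
    hBAS.1 _ _ _ (Primrec.snd.comp Primrec.snd)
  have hh : LP (fun x : (ℕ × (ℕ × List (Str × Str))) × (List (Str × Str) × (Str × Str)) =>
      addp β x.1.1 (x.1.2.1 + 1) x.2.1 x.2.2) :=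
    hBAS.2.1 _ _ _ (fun x : (ℕ × ℕ) × (List (Str × Str) × (Str × Str)) =>
      addp β x.1.1 x.1.2 x.2.1 x.2.2)
      (fun x : (ℕ × (ℕ × List (Str × Str))) × (List (Str × Str) × (Str × Str)) =>
        ((x.1.1, x.1.2.1 + 1), x.2)) ha
      (hBAS.1 _ _ _ (Primrec.pair (Primrec.pair (Primrec.fst.comp Primrec.fst)
        (Primrec.succ.comp (Primrec.fst.comp (Primrec.snd.comp Primrec.fst)))) Primrec.snd))
  have hf := hFOLD _ _ _ _ _ _ hl hg hh
  have hr := hREC ℕ (List (Str × Str)) (fun _ => []) _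
    (hBAS.1 _ _ _ (Primrec.const [])) hf
  refine lp_congr hr fun x => ?_
  obtain ⟨b, m⟩ := x
  show AL β b m = Nat.rec (motive := fun _ => List (Str × Str)) []
    (fun n ih => (pairs (n + 1)).foldl (fun s t => addp β b (n + 1) s t) ih) m
  induction m with
  | zero => rfl
  | succ m ih =>
    show (pairs (m + 1)).foldl (addp β b (m + 1)) (AL β b m) = _
    rw [ih]

end Pool.Agent.H662.TR
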