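import Pool.Agent.H662.TR.Stm

/-!
# S_LD : the chosen witness is limit computable
-/

set_option autoImplicit false

namespace Pool.Agent.H662.TR

namespace XLD

/-- a primitive recursive predicate is limit computable -/
theorem lpp_of_pp (hBAS : S_BAS) {α : Type} [Primcodable α] {p : α → Prop} (h : PrimrecPred p) :
    LPP p := by
  obtain ⟨hd, hp⟩ := h
  have h1 : LP (fun a => @decide (p a) (hd a)) := hBAS.1 α Bool _ hp
  obtain ⟨g, hg, hl⟩ := h1
  refine ⟨g, hg, fun a => ?_⟩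
  filter_upwards [hl a] with s hs
  rw [hs]
  exact decide_eq_decide.2 Iff.rfl

/-- limit computability of a predicate only depends on its extension -/
theorem lpp_of_iff {α : Type} [Primcodable α] {p q : α → Prop} (hp : LPP p)
    (h : ∀ a, p a ↔ q a) : LPP q := by
  have e : p = q := funext (fun a => propext (h a))
  rw [← e]
  exact hp

/-- the witness coded by `c` -/
def wd (c : ℕ) : ℕ × List Str := (Encodable.decode (α := ℕ × List Str) c).getD (0, [])

theorem pr_wd : Primrec wd :=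
  Primrec.option_getD.comp Primrec.decode (Primrec.const (0, []))

theorem pp_mem (hPR1 : S_PR1) :
    PrimrecPred (fun v : ℕ × List Str => v.2 ∈ subs (strs v.1)) := by
  have h1 : Primrec (fun v : ℕ × List Str => subs (strs v.1)) :=
    hPR1.2.1.comp (hPR1.1.comp Primrec.fst)
  have h2 : PrimrecPred (fun v : ℕ × List Str => ∃ B ∈ subs (strs v.1), B = v.2) := by
    refine PrimrecRel.comp (R := fun (l : List (List Str)) (v : List Str) => ∃ B ∈ l, B = v) ?_ h1
      Primrec.snd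
    exact PrimrecRel.exists_mem_list Primrec.eq
  refine h2.of_eq (fun v => ?_)
  constructor
  · rintro ⟨B, hB, rfl⟩
    exact hB
  · intro h
    exact ⟨v.2, h, rfl⟩

theorem Q_iff (β : (ℕ × Str) × ℕ → Bool) (d : ℕ) (τ : Node) (c : ℕ) :
    (¬ inT β d τ ∨ ((Encodable.decode (α := ℕ × List Str) c).isSome = true ∧
      (τ.length ≤ (wd c).1 + 1 ∧ ((wd c).2 ∈ subs (strs (wd c).1) ∧
        ((∀ s, adm β d (wd c).1 s (wd c).2 = true) ∧
          cc (wd c).1 (wd c).2 (τ.length - 1) = τ))))) ↔ Q β d τ c := by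
  unfold Q
  constructor
  · rintro (h | ⟨h1, h2⟩)
    · exact Or.inl h
    · right
      obtain ⟨w, hw⟩ := Option.isSome_iff_exists.1 h1
      have e : wd c = w := by
        unfold wd
        rw [hw]
        rfl
      rw [e] at h2
      exact ⟨w, hw, h2⟩
  · rintro (h | ⟨w, hw, h2⟩)
    · exact Or.inl h
    · right
      have e : wd c = w := by
        unfold wd
        rw [hw]
        rfl
      rw [e]
      refine ⟨?_, h2⟩
      rw [hw]
      rfl

theorem lpp_Q (hLT : S_LT) (hPR1 : S_PR1) (hPR2 : S_PR2) (hPR3 : S_PR3) (hBAS : S_BAS)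
    (hPI : S_PI) (β : (ℕ × Str) × ℕ → Bool) (hβ : Primrec β) :
    LPP (fun x : (ℕ × Node) × ℕ => Q β x.1.1 x.1.2 x.2) := by
  -- components
  have pw : Primrec (fun x : (ℕ × Node) × ℕ => wd x.2) := pr_wd.comp Primrec.snd
  have pw1 : Primrec (fun x : (ℕ × Node) × ℕ => (wd x.2).1) := Primrec.fst.comp pw
  have pw2 : Primrec (fun x : (ℕ × Node) × ℕ => (wd x.2).2) := Primrec.snd.comp pw
  have pd : Primrec (fun x : (ℕ × Node) × ℕ => x.1.1) := Primrec.fst.comp Primrec.fst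
  have pt : Primrec (fun x : (ℕ × Node) × ℕ => x.1.2) := Primrec.snd.comp Primrec.fst
  have pl : Primrec (fun x : (ℕ × Node) × ℕ => x.1.2.length) := Primrec.list_length.comp pt
  -- inT
  have h1 : LPP (fun x : (ℕ × Node) × ℕ => inT β x.1.1 x.1.2) :=
    hBAS.2.2.2.2 ((ℕ × Node) × ℕ) (ℕ × Node) (fun x => x.1) (fun y => inT β y.1 y.2)
      (hLT β hβ).2 (hBAS.1 _ _ _ Primrec.fst)
  have h1' : LPP (fun x : (ℕ × Node) × ℕ => ¬ inT β x.1.1 x.1.2) :=
    (hBAS.2.2.2.1 _ _ _ h1 h1).1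
  -- isSome
  have h2 : LPP (fun x : (ℕ × Node) × ℕ =>
      (Encodable.decode (α := ℕ × List Str) x.2).isSome = true) := by
    refine lpp_of_pp hBAS ?_
    refine ⟨inferInstance, ?_⟩
    have : Primrec (fun x : (ℕ × Node) × ℕ =>
        (Encodable.decode (α := ℕ × List Str) x.2).isSome) :=
      Primrec.option_isSome.comp (Primrec.decode.comp Primrec.snd)
    refine this.of_eq (fun x => ?_)
    simp
  -- length
  have h3 : LPP (fun x : (ℕ × Node) × ℕ => x.1.2.length ≤ (wd x.2).1 + 1) :=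
    lpp_of_pp hBAS (Primrec.nat_le.comp pl (Primrec.succ.comp pw1))
  -- membership
  have h4 : LPP (fun x : (ℕ × Node) × ℕ => (wd x.2).2 ∈ subs (strs (wd x.2).1)) :=
    lpp_of_pp hBAS ((pp_mem hPR1).comp pw)
  -- admissibility
  have h5 : LPP (fun x : (ℕ × Node) × ℕ => ∀ s, adm β x.1.1 (wd x.2).1 s (wd x.2).2 = true) := by
    refine hPI _ (fun y : ((ℕ × Node) × ℕ) × ℕ => adm β y.1.1.1 (wd y.1.2).1 y.2 (wd y.1.2).2) ?_
    have q : Primrec (fun y : ((ℕ × Node) × ℕ) × ℕ =>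
        ((((y.1.1.1, (wd y.1.2).1), y.2), (wd y.1.2).2) : ((ℕ × ℕ) × ℕ) × List Str)) :=
      Primrec.pair (Primrec.pair (Primrec.pair (pd.comp Primrec.fst) (pw1.comp Primrec.fst))
        Primrec.snd) (pw2.comp Primrec.fst)
    exact (hPR3 β hβ).1.comp q
  -- the node
  have h6 : LPP (fun x : (ℕ × Node) × ℕ =>
      cc (wd x.2).1 (wd x.2).2 (x.1.2.length - 1) = x.1.2) := by
    refine lpp_of_pp hBAS ?_
    have q : Primrec (fun x : (ℕ × Node) × ℕ =>
        ((((wd x.2).1, (wd x.2).2), x.1.2.length - 1) : (ℕ × List Str) × ℕ)) :=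
      Primrec.pair (Primrec.pair pw1 pw2) (Primrec.nat_sub.comp pl (Primrec.const 1))
    have q2 : Primrec (fun x : (ℕ × Node) × ℕ => cc (wd x.2).1 (wd x.2).2 (x.1.2.length - 1)) :=
      hPR2.2.comp q
    exact Primrec.eq.comp q2 pt
  have h56 := (hBAS.2.2.2.1 _ _ _ h5 h6).2.1
  have h456 := (hBAS.2.2.2.1 _ _ _ h4 h56).2.1
  have h3456 := (hBAS.2.2.2.1 _ _ _ h3 h456).2.1
  have h23456 := (hBAS.2.2.2.1 _ _ _ h2 h3456).2.1
  have h := (hBAS.2.2.2.1 _ _ _ h1' h23456).2.2.1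
  exact lpp_of_iff h (fun x => Q_iff β x.1.1 x.1.2 x.2)

end XLD

open XLD in
/-- LD. -/
theorem t_LD (hLT : S_LT) (hPR1 : S_PR1) (hPR2 : S_PR2) (hPR3 : S_PR3) (hBAS : S_BAS)
    (hMIN : S_MIN) (hPI : S_PI) (hWE : S_WE) : S_LD := by
  intro β hβ hH
  have hQ := lpp_Q hLT hPR1 hPR2 hPR3 hBAS hPI β hβ
  have htot : ∀ a : ℕ × Node, ∃ n, Q β a.1 a.2 n := by
    intro a
    by_cases ha : inT β a.1 a.2
    · obtain ⟨v, hv⟩ := hWE β hH a.1 a.2 ha
      exact ⟨Encodable.encode v, Or.inr ⟨v, Encodable.encodek v, hv⟩⟩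
    · exact ⟨0, Or.inl ha⟩
  have hm : LP (fun a : ℕ × Node => sInf {n : ℕ | Q β a.1 a.2 n}) :=
    hMIN (ℕ × Node) (fun x => Q β x.1.1 x.1.2 x.2) hQ htot
  exact hBAS.2.1 (ℕ × Node) ℕ (ℕ × List Str) wd (fun a => sInf {n : ℕ | Q β a.1 a.2 n})
    (hBAS.1 _ _ _ pr_wd) hm

end Pool.Agent.H662.TR
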