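import Pool.Agent.H662.TR.Stm

/-!
# Project TR (helper662), leaf LG: limit computability of Good
-/

set_option autoImplicit false

namespace Pool.Agent.H662.TR

/-- LG. -/
theorem t_LG (hPR3 : S_PR3) (hPI : S_PI) : S_LG := by
  intro β hβ
  have h := (hPR3 β hβ).2.2
  have hR : Primrec (fun x : (ℕ × List Node) × ℕ =>
      okay β x.1.1 x.1.2 (Nat.unpair x.2).1 (Nat.unpair x.2).2) :=
    h.comp (Primrec.pair (Primrec.pair Primrec.fst
      (Primrec.fst.comp (Primrec.unpair.comp Primrec.snd)))
      (Primrec.snd.comp (Primrec.unpair.comp Primrec.snd)))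
  have h1 := hPI (ℕ × List Node) _ hR
  have e : (fun x : ℕ × List Node => Good β x.1 x.2) = fun a : ℕ × List Node =>
      ∀ n : ℕ, okay β a.1 a.2 (Nat.unpair n).1 (Nat.unpair n).2 = true := by
    funext a
    apply propext
    constructor
    · intro hg n
      exact hg _ _
    · intro hg n s
      have h2 := hg (Nat.pair n s)
      rw [Nat.unpair_pair] at h2
      exact h2
  rw [e]
  exact h1

end Pool.Agent.H662.TR
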