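import Pool.Agent.H662.TR.Stm

/-!
# Limit computability of `Gr` and of the tree (statement LT), by helper550
-/

set_option autoImplicit false

namespace Pool.Agent.H662.TR

namespace XLT

open Classical in
/-- primitive recursive predicates are limit computable -/
theorem lpp_of_primrec {α : Type} [Primcodable α] (hBAS : S_BAS) {p : α → Prop}
    (h : PrimrecPred p) : LPP p :=
  hBAS.1 α Bool (fun a => decide (p a)) h.decide

open Classical in
/-- the step of the recursion -/
noncomputable def F (β : (ℕ × Str) × ℕ → Bool) (y : ℕ × (ℕ × List Node)) : List Node :=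
  (Encodable.decode (α := Node) y.2.1).elim y.2.2
    (fun τ => if Good β y.1 (τ :: y.2.2) then τ :: y.2.2 else y.2.2)

theorem lp_F {β : (ℕ × Str) × ℕ → Bool} (hβ : Primrec β) (hLG : S_LG) (hBAS : S_BAS)
    (hITE : S_ITE) : LP (F β) := by
  classical
  have hd : Primrec fun y : ℕ × (ℕ × List Node) => Encodable.decode (α := Node) y.2.1 :=
    Primrec.decode.comp (Primrec.fst.comp Primrec.snd)
  have hg : Primrec fun y : ℕ × (ℕ × List Node) =>
      ((Encodable.decode (α := Node) y.2.1).getD []) :: y.2.2 :=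
    Primrec.list_cons.comp (Primrec.option_getD.comp hd (Primrec.const []))
      (Primrec.snd.comp Primrec.snd)
  have h1 : LPP fun y : ℕ × (ℕ × List Node) =>
      Good β y.1 (((Encodable.decode (α := Node) y.2.1).getD []) :: y.2.2) :=
    hBAS.2.2.2.2 _ _ (fun y : ℕ × (ℕ × List Node) =>
        (y.1, ((Encodable.decode (α := Node) y.2.1).getD []) :: y.2.2))
      (fun x : ℕ × List Node => Good β x.1 x.2) (hLG β hβ)
      (hBAS.1 _ _ _ (Primrec.pair Primrec.fst hg))
  have h2 : LPP fun y : ℕ × (ℕ × List Node) =>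
      (Encodable.decode (α := Node) y.2.1).isSome = true :=
    lpp_of_primrec hBAS (Primrec.eq.comp (Primrec.option_isSome.comp hd) (Primrec.const true))
  have h3 := hITE _ _ _ (fun y : ℕ × (ℕ × List Node) =>
      ((Encodable.decode (α := Node) y.2.1).getD []) :: y.2.2)
    (fun y : ℕ × (ℕ × List Node) => y.2.2) (hBAS.2.2.2.1 _ _ _ h2 h1).2.1 (hBAS.1 _ _ _ hg)
    (hBAS.1 _ _ _ (Primrec.snd.comp Primrec.snd))
  refine (congrArg LP ?_).mpr h3
  funext y
  unfold F
  cases hy : Encodable.decode (α := Node) y.2.1 with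
  | none =>
    rw [if_neg]
    · rfl
    · rintro ⟨h, -⟩
      exact absurd h (by simp)
  | some τ =>
    by_cases hG : Good β y.1 (τ :: y.2.2)
    · rw [if_pos ⟨rfl, hG⟩]
      exact if_pos hG
    · rw [if_neg fun h => hG h.2]
      exact if_neg hG

theorem gr_rec (β : (ℕ × Str) × ℕ → Bool) (d e : ℕ) :
    Gr β d e = Nat.rec (motive := fun _ => List Node) [] (fun n ih => F β (d, (n, ih))) e := by
  induction e with
  | zero => rfl
  | succ e ih =>
    rw [Gr]
    show _ = F β (d, (e, _))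
    rw [← ih]
    rfl

end XLT

/-- LT -/
theorem t_LT (hLG : S_LG) (hBAS : S_BAS) (hITE : S_ITE) (hREC : S_REC) (hALL : S_ALL) :
    S_LT := by
  intro β hβ
  have h1 : LP (fun x : ℕ × ℕ => Gr β x.1 x.2) := by
    have h2 := hREC ℕ (List Node) (fun _ => []) (XLT.F β)
      (hBAS.1 _ _ _ (Primrec.const [])) (XLT.lp_F hβ hLG hBAS hITE)
    refine (congrArg LP ?_).mpr h2
    funext x
    exact XLT.gr_rec β x.1 x.2
  refine ⟨h1, ?_⟩
  have h3 : LP (fun a : ℕ × Node => Gr β a.1 (Encodable.encode a.2 + 1)) :=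
    hBAS.2.1 _ _ _ (fun x : ℕ × ℕ => Gr β x.1 x.2)
      (fun a : ℕ × Node => (a.1, Encodable.encode a.2 + 1)) h1
      (hBAS.1 _ _ _ (Primrec.pair Primrec.fst
        (Primrec.succ.comp (Primrec.encode.comp Primrec.snd))))
  have h4 : LPP (fun q : (ℕ × Node) × Node => q.2 = q.1.2) :=
    XLT.lpp_of_primrec hBAS (Primrec.eq.comp Primrec.snd (Primrec.snd.comp Primrec.fst))
  have h5 := (hBAS.2.2.2.1 _ _ _ (hALL _ _ _ _ h3 h4).2 (hALL _ _ _ _ h3 h4).2).1
  refine (congrArg LPP ?_).mpr h5
  funext x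
  refine propext ?_
  unfold inT
  constructor
  · rintro h ⟨t, ht, h6⟩
    exact h (h6 ▸ ht)
  · intro h h6
    exact h ⟨x.2, h6, rfl⟩

end Pool.Agent.H662.TR
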