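import Pool.Agent.H662.TR.Stm

/-!
Limit computability of the small open set (project TR, leaf LU).
-/

set_option autoImplicit false

namespace Pool.Agent.H662.TR.XLU

open Pool.Agent.H662.TR

theorem bool_eq_dec (b : Bool) (I : Decidable (b = true)) : b = @decide (b = true) I := by
  cases I with
  | isFalse h => exact Bool.eq_false_iff.mpr h
  | isTrue h => exact h

/-- a Boolean valued limit computable function gives a limit computable predicate -/
theorem lpp_of_lp {α : Type} [Primcodable α] {f : α → Bool} (h : LP f) :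
    LPP (fun a => f a = true) := by
  obtain ⟨g, hg1, hg2⟩ := h
  refine ⟨g, hg1, fun a => ?_⟩
  filter_upwards [hg2 a] with s hs
  rw [hs]
  exact bool_eq_dec (f a) _

/-- the argument of `dat` -/
def argd (y : ((ℕ × Node) × Str) × St) : ℕ × Node :=
  (y.1.1.1 + 5, y.1.1.2.take (y.2.1 + 1))

theorem primrec_argd : Primrec argd := by
  have h1 : Primrec (fun y : ((ℕ × Node) × Str) × St => y.1.1.1) :=
    Primrec.fst.comp (Primrec.fst.comp Primrec.fst)
  have h2 : Primrec (fun y : ((ℕ × Node) × Str) × St => y.1.1.2) :=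
    Primrec.snd.comp (Primrec.fst.comp Primrec.fst)
  have h5 : Primrec (fun y : ((ℕ × Node) × Str) × St => y.2.1 + 1) :=
    Primrec.succ.comp (Primrec.fst.comp Primrec.snd)
  have h6 : Primrec (fun y : ((ℕ × Node) × Str) × St => y.1.1.1 + 5) :=
    Primrec.nat_add.comp h1 (Primrec.const 5)
  have h7 : Primrec (fun y : ((ℕ × Node) × Str) × St => y.1.1.2.take (y.2.1 + 1)) :=
    Primrec.list_take.comp h5 h2
  exact Primrec.pair h6 h7

/-- the witness which is used -/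
noncomputable def argv (β : (ℕ × Str) × ℕ → Bool) (y : ((ℕ × Node) × Str) × St) : ℕ × List Str :=
  dat β (argd y).1 (argd y).2

theorem lp_argv (hLD : S_LD) (hBAS : S_BAS) (β : (ℕ × Str) × ℕ → Bool) (hβ : Primrec β)
    (hH : Hyp β) : LP (argv β) :=
  hBAS.2.1 (((ℕ × Node) × Str) × St) (ℕ × Node) (ℕ × List Str)
    (fun x : ℕ × Node => dat β x.1 x.2) argd (hLD β hβ hH) (hBAS.1 _ _ argd primrec_argd)

/-- the argument of `stepc` -/
noncomputable def arg (β : (ℕ × Str) × ℕ → Bool) (y : ((ℕ × Node) × Str) × St) :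
    ((ℕ × (ℕ × List Str)) × Str) × St :=
  (((y.1.1.1, argv β y), y.1.2), y.2)

theorem lp_arg (hLD : S_LD) (hBAS : S_BAS) (β : (ℕ × Str) × ℕ → Bool) (hβ : Primrec β)
    (hH : Hyp β) : LP (arg β) := by
  have h1 : LP (fun y : ((ℕ × Node) × Str) × St => y.1.1.1) :=
    hBAS.1 _ _ (fun y : ((ℕ × Node) × Str) × St => y.1.1.1)
      (Primrec.fst.comp (Primrec.fst.comp Primrec.fst))
  have h3 : LP (fun y : ((ℕ × Node) × Str) × St => y.1.2) :=
    hBAS.1 _ _ (fun y : ((ℕ × Node) × Str) × St => y.1.2) (Primrec.snd.comp Primrec.fst)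
  have h4 : LP (fun y : ((ℕ × Node) × Str) × St => y.2) :=
    hBAS.1 _ _ (fun y : ((ℕ × Node) × Str) × St => y.2) Primrec.snd
  have h10 : LP (fun y : ((ℕ × Node) × Str) × St => (y.1.1.1, argv β y)) :=
    hBAS.2.2.1 _ _ _ (fun y : ((ℕ × Node) × Str) × St => y.1.1.1) (argv β) h1
      (lp_argv hLD hBAS β hβ hH)
  have h11 : LP (fun y : ((ℕ × Node) × Str) × St => ((y.1.1.1, argv β y), y.1.2)) :=
    hBAS.2.2.1 _ _ _ (fun y : ((ℕ × Node) × Str) × St => (y.1.1.1, argv β y))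
      (fun y : ((ℕ × Node) × Str) × St => y.1.2) h10 h3
  exact hBAS.2.2.1 _ _ _ (fun y : ((ℕ × Node) × Str) × St => ((y.1.1.1, argv β y), y.1.2))
    (fun y : ((ℕ × Node) × Str) × St => y.2) h11 h4

theorem lp_step (hLD : S_LD) (hPR5 : S_PR5) (hBAS : S_BAS) (β : (ℕ × Str) × ℕ → Bool)
    (hβ : Primrec β) (hH : Hyp β) :
    LP (fun y : ((ℕ × Node) × Str) × St => step β (y.1.1.1 + 5) y.1.1.1 y.1.1.2 y.1.2 y.2) :=
  hBAS.2.1 _ _ _ (fun x : ((ℕ × (ℕ × List Str)) × Str) × St =>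
      stepc x.1.1.1 x.1.1.2 x.1.2 x.2) (arg β) (hBAS.1 _ _ _ hPR5) (lp_arg hLD hBAS β hβ hH)

theorem lp_run (hLD : S_LD) (hPR5 : S_PR5) (hBAS : S_BAS) (hITR : S_ITR)
    (β : (ℕ × Str) × ℕ → Bool) (hβ : Primrec β) (hH : Hyp β) :
    LP (fun x : (ℕ × Node) × Str => run β (x.1.1 + 5) x.1.1 x.1.2 x.2) := by
  have h1 : Primrec (fun x : (ℕ × Node) × Str => x.2.length) :=
    Primrec.list_length.comp Primrec.snd
  have h2 : Primrec (fun _ : (ℕ × Node) × Str => ((5, 0, 0, false) : St)) := Primrec.const _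
  exact hITR _ _ (fun x : (ℕ × Node) × Str => x.2.length) (fun _ => ((5, 0, 0, false) : St))
    (fun y => step β (y.1.1.1 + 5) y.1.1.1 y.1.1.2 y.1.2 y.2) (hBAS.1 _ _ _ h1)
    (hBAS.1 _ _ _ h2) (lp_step hLD hPR5 hBAS β hβ hH)

end Pool.Agent.H662.TR.XLU

namespace Pool.Agent.H662.TR

/-- LU -/
theorem t_LU (hLD : S_LD) (hPR4 : S_PR4) (hPR5 : S_PR5) (hBAS : S_BAS) (hITR : S_ITR) : S_LU := by
  intro β hβ hH
  have h1 : Primrec (fun x : (ℕ × Node) × Str => F1 x.1.2 x.2) :=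
    hPR4.2.2.comp (Primrec.pair (Primrec.snd.comp Primrec.fst) Primrec.snd)
  have h2 : LPP (fun x : (ℕ × Node) × Str => F1 x.1.2 x.2 = true) :=
    XLU.lpp_of_lp (hBAS.1 _ _ _ h1)
  have h3 : Primrec (fun q : St => q.2.2.2) :=
    Primrec.snd.comp (Primrec.snd.comp Primrec.snd)
  have h4 : LP (fun x : (ℕ × Node) × Str => (run β (x.1.1 + 5) x.1.1 x.1.2 x.2).2.2.2) :=
    hBAS.2.1 _ _ _ (fun q : St => q.2.2.2) _ (hBAS.1 _ _ _ h3)
      (XLU.lp_run hLD hPR5 hBAS hITR β hβ hH)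
  have h5 : LPP (fun x : (ℕ × Node) × Str =>
      (run β (x.1.1 + 5) x.1.1 x.1.2 x.2).2.2.2 = true) := XLU.lpp_of_lp h4
  exact (hBAS.2.2.2.1 _ _ _ h2 h5).2.2.1

end Pool.Agent.H662.TR
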