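import Pool.Agent.H662.TR.Stm

/-! # MB: weight bound for the greedy matching (helper878, for helper662) -/

set_option autoImplicit false

namespace Pool.Agent.H662.TR

namespace XMB

theorem mem_nodes_zero {τ : Node} : τ ∈ nodes 0 ↔ ∃ r ∈ prods (strs 0) (2 ^ 0), [r] = τ := by
  simp only [nodes, List.mem_map]

theorem mem_nodes_succ {m : ℕ} {τ : Node} : τ ∈ nodes (m + 1) ↔
    ∃ τ' ∈ nodes m, ∃ r ∈ prods (strs (m + 1)) (2 ^ (m + 1)), τ' ++ [r] = τ := by
  simp only [nodes, List.mem_flatMap, List.mem_map]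

theorem length_of_mem {m : ℕ} {τ : Node} (h : τ ∈ nodes m) : τ.length = m + 1 := by
  induction m generalizing τ with
  | zero =>
    obtain ⟨r, -, rfl⟩ := mem_nodes_zero.1 h
    rfl
  | succ m ih =>
    obtain ⟨τ', h1, r, -, rfl⟩ := mem_nodes_succ.1 h
    rw [List.length_append, ih h1]
    rfl

theorem take_mem {m : ℕ} {τ : Node} (h : τ ∈ nodes m) {i : ℕ} (hi : i ≤ m) :
    τ.take (i + 1) ∈ nodes i := by
  induction m generalizing τ with
  | zero =>
    obtain rfl : i = 0 := by omega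
    rw [List.take_of_length_le (length_of_mem h).le]
    exact h
  | succ m ih =>
    rcases Nat.lt_or_ge m i with h1 | h1
    · obtain rfl : i = m + 1 := by omega
      rw [List.take_of_length_le (length_of_mem h).le]
      exact h
    · obtain ⟨τ', h2, r, -, rfl⟩ := mem_nodes_succ.1 h
      rw [List.take_append_of_le_length (by rw [length_of_mem h2]; omega)]
      exact ih h2 h1

theorem sum_filter_split {α : Type} (l : List α) (P : α → Bool) (f : α → ℝ) :
    (l.map f).sum = ((l.filter P).map f).sum + ((l.filter (fun x => !P x)).map f).sum := by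
  induction l with
  | nil => simp
  | cons a l ih =>
    by_cases h : P a = true
    · have h' : (!P a) = false := by rw [h]; rfl
      rw [List.map_cons, List.sum_cons, ih, List.filter_cons_of_pos h,
        List.filter_cons_of_neg (p := fun x => !P x) (by rw [h']; exact Bool.false_ne_true),
        List.map_cons,
        List.sum_cons, add_assoc]
    · have h' : (!P a) = true := by
        rw [Bool.not_eq_true] at h
        rw [h]
        rfl
      rw [List.map_cons, List.sum_cons, ih, List.filter_cons_of_neg h,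
        List.filter_cons_of_pos (p := fun x => !P x) h', List.map_cons, List.sum_cons]
      ring

end XMB

open Classical in
theorem t_MB (hNE : S_NE) (hCL : S_CL) (hUB : S_UB) (hMO : S_MO) (hAI : S_AI) (hPW : S_PW) :
    S_MB := by
  intro β hβ b m
  obtain ⟨a1, a2, -⟩ := hAI β b m
  obtain ⟨τ, hτ, hτT⟩ := hNE β hβ (b + 5) m
  have hlen := XMB.length_of_mem hτ
  have hub := hUB β hβ b m τ hτT hlen
  obtain ⟨N, hN⟩ : ∃ N, N = ((strs m).filter (fun ξ => decide (US β b τ ξ))).length := ⟨_, rfl⟩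
  rw [← hN] at hub
  have hcardN : ∀ S : Finset Str, (∀ ξ ∈ S, ξ.length = m ∧ US β b τ ξ) → S.card ≤ N := by
    intro S hS
    rw [hN]
    refine le_trans (Finset.card_le_card ?_) (List.toFinset_card_le _)
    intro ξ hξ
    rw [List.mem_toFinset, List.mem_filter, mem_strs]
    exact ⟨(hS ξ hξ).1, decide_eq_true (hS ξ hξ).2⟩
  have hsub : ∀ p ∈ AL β b m, inT β (b + 5) (τ.take (p.1.length + 1)) ∧
      (τ.take (p.1.length + 1)).length = p.1.length + 1 ∧
      (US β b (τ.take (p.1.length + 1)) p.1 ∨ US β b (τ.take (p.1.length + 1)) p.2) := by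
    intro p hp
    obtain ⟨c1, c2, c3⟩ := a1 p hp
    have hl : (τ.take (p.1.length + 1)).length = p.1.length + 1 := by
      rw [List.length_take, hlen]
      omega
    have h1 : inT β (b + 5) (τ.take (p.1.length + 1)) := by
      refine hCL β hβ (b + 5) τ _ hτT ?_ (List.take_prefix _ _)
      intro h0
      rw [h0] at hl
      simp at hl
    exact ⟨h1, hl, c3 _ (XMB.take_mem hτ c1) h1⟩
  obtain ⟨P, hP⟩ : ∃ P : Str × Str → Bool,
    P = fun p => decide (US β b (τ.take (p.1.length + 1)) p.1) := ⟨_, rfl⟩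
  -- first coordinates
  have hs1 : ((((AL β b m).filter P).map Prod.fst).map
      (fun σ => ((1:ℝ)/2) ^ σ.length)).sum * 2 ^ m ≤ N := by
    refine hPW m _ (fun ξ => US β b τ ξ) N ?_ ?_ ?_ hcardN
    · intro σ hσ
      obtain ⟨p, hp, rfl⟩ := List.mem_map.1 hσ
      exact (a1 p (List.mem_filter.1 hp).1).1
    · rw [List.pairwise_map]
      exact (a2.sublist List.filter_sublist).imp fun h => ⟨h.1, h.2.1⟩
    · intro σ hσ ξ hξ hpre
      obtain ⟨p, hp, rfl⟩ := List.mem_map.1 hσ
      obtain ⟨hp1, hp2⟩ := List.mem_filter.1 hp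
      obtain ⟨d1, d2, -⟩ := hsub p hp1
      rw [hP] at hp2
      exact hMO β hβ b _ τ p.1 ξ hτT (List.take_prefix _ _) hpre d2 (by rw [hlen, hξ])
        (of_decide_eq_true hp2)
  -- second coordinates
  have hs2 : ((((AL β b m).filter (fun p => !P p)).map Prod.snd).map
      (fun σ => ((1:ℝ)/2) ^ σ.length)).sum * 2 ^ m ≤ N := by
    refine hPW m _ (fun ξ => US β b τ ξ) N ?_ ?_ ?_ hcardN
    · intro σ hσ
      obtain ⟨p, hp, rfl⟩ := List.mem_map.1 hσ
      obtain ⟨c1, c2, -⟩ := a1 p (List.mem_filter.1 hp).1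
      rw [c2]
      exact c1
    · rw [List.pairwise_map]
      exact (a2.sublist List.filter_sublist).imp fun h => ⟨h.2.2.1, h.2.2.2⟩
    · intro σ hσ ξ hξ hpre
      obtain ⟨p, hp, rfl⟩ := List.mem_map.1 hσ
      obtain ⟨hp1, hp2⟩ := List.mem_filter.1 hp
      obtain ⟨d1, d2, d3⟩ := hsub p hp1
      obtain ⟨c1, c2, -⟩ := a1 p hp1
      have hnot : ¬ US β b (τ.take (p.1.length + 1)) p.1 := by
        intro h0
        rw [hP] at hp2
        simp [h0] at hp2
      exact hMO β hβ b _ τ p.2 ξ hτT (List.take_prefix _ _) hpre (by rw [d2, c2])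
        (by rw [hlen, hξ]) (d3.resolve_left hnot)
  have hcong : ((AL β b m).filter (fun p => !P p)).map (fun p => ((1:ℝ)/2) ^ p.1.length) =
      ((AL β b m).filter (fun p => !P p)).map (fun p => ((1:ℝ)/2) ^ p.2.length) := by
    refine List.map_congr_left fun p hp => ?_
    rw [(a1 p (List.mem_filter.1 hp).1).2.1]
  have htot : ((AL β b m).map (fun p => ((1:ℝ)/2) ^ p.1.length)).sum * 2 ^ m ≤ 2 * N := by
    rw [XMB.sum_filter_split _ P, hcong, add_mul]
    rw [List.map_map] at hs1 hs2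
    have e1 : ((AL β b m).filter P).map (fun p => ((1:ℝ)/2) ^ p.1.length) =
        ((AL β b m).filter P).map ((fun σ : Str => ((1:ℝ)/2) ^ σ.length) ∘ Prod.fst) := rfl
    have e2 : ((AL β b m).filter (fun p => !P p)).map (fun p => ((1:ℝ)/2) ^ p.2.length) =
        ((AL β b m).filter (fun p => !P p)).map
          ((fun σ : Str => ((1:ℝ)/2) ^ σ.length) ∘ Prod.snd) := rfl
    rw [e1, e2]
    linarith
  have hmain : ((AL β b m).map (fun p => ((1:ℝ)/2) ^ p.1.length)).sum ≤ 4 * ((1:ℝ)/2) ^ b := by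
    have h1 : (N : ℝ) * 2 ^ b ≤ 2 * 2 ^ m := by exact_mod_cast hub
    have h2m : (0 : ℝ) < 2 ^ m := by positivity
    have h2b : (0 : ℝ) < 2 ^ b := by positivity
    have h3 : ((1:ℝ)/2) ^ b = 1 / 2 ^ b := by rw [div_pow, one_pow]
    rw [h3, mul_one_div, le_div_iff₀ h2b]
    have h4 : ((AL β b m).map (fun p => ((1:ℝ)/2) ^ p.1.length)).sum * 2 ^ b * 2 ^ m ≤
        4 * 2 ^ m := by
      calc ((AL β b m).map (fun p => ((1:ℝ)/2) ^ p.1.length)).sum * 2 ^ b * 2 ^ m =
            (((AL β b m).map (fun p => ((1:ℝ)/2) ^ p.1.length)).sum * 2 ^ m) * 2 ^ b := by ring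
        _ ≤ (2 * N) * 2 ^ b := mul_le_mul_of_nonneg_right htot h2b.le
        _ = 2 * (N * 2 ^ b) := by ring
        _ ≤ 2 * (2 * 2 ^ m) := by linarith
        _ = 4 * 2 ^ m := by ring
    exact le_of_mul_le_mul_right h4 h2m
  refine ⟨hmain, ?_⟩
  have hc : (AL β b m).map (fun p => ((1:ℝ)/2) ^ p.2.length) =
      (AL β b m).map (fun p => ((1:ℝ)/2) ^ p.1.length) := by
    refine List.map_congr_left fun p hp => ?_
    rw [(a1 p hp).2.1]
  rw [hc]
  exact hmain

end Pool.Agent.H662.TR
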