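import Pool.Agent.H662.TR.Stm

/-!
# Project TR, leaf MIN: limit computability under total search
-/

set_option autoImplicit false

namespace Pool.Agent.H662.TR

namespace XMIN

/-- the first index in the range with a given property -/
theorem findIdx_range (q : ℕ → Bool) (s N : ℕ) (hN : N ≤ s) (h1 : q N = true)
    (h2 : ∀ n, n < N → q n = false) : (List.range (s + 1)).findIdx q = N := by
  have hlt : N < (List.range (s + 1)).length := by
    rw [List.length_range]
    omega
  rw [List.findIdx_eq hlt]
  refine ⟨?_, fun j hj => ?_⟩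
  · rw [List.getElem_range]
    exact h1
  · rw [List.getElem_range]
    exact h2 j hj

end XMIN

theorem t_MIN : S_MIN := by
  intro α _ p hp htot
  classical
  obtain ⟨g, hg, hlim⟩ := hp
  refine ⟨fun x => (List.range (x.2 + 1)).findIdx (fun n => g ((x.1, n), x.2)), ?_, ?_⟩
  · refine Primrec.list_findIdx (Primrec.list_range.comp (Primrec.succ.comp Primrec.snd)) ?_
    exact hg.comp (Primrec.pair
      (Primrec.pair (Primrec.fst.comp Primrec.fst) Primrec.snd)
      (Primrec.snd.comp Primrec.fst))
  · intro a
    have hmem : p (a, sInf {n : ℕ | p (a, n)}) := Nat.sInf_mem (s := {n : ℕ | p (a, n)}) (htot a)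
    have hnot : ∀ n, n < sInf {n : ℕ | p (a, n)} → ¬ p (a, n) := fun n hn =>
      Nat.notMem_of_lt_sInf hn
    have hall : ∀ᶠ s in Filter.atTop, ∀ n ∈ Finset.range (sInf {n : ℕ | p (a, n)} + 1),
        g ((a, n), s) = decide (p (a, n)) :=
      (Filter.eventually_all_finset _).2 fun n _ => hlim (a, n)
    filter_upwards [hall, Filter.eventually_ge_atTop (sInf {n : ℕ | p (a, n)})] with s hs hs2
    refine XMIN.findIdx_range (fun n => g ((a, n), s)) s _ hs2 ?_ ?_
    · have h := hs _ (Finset.mem_range.2 (Nat.lt_succ_self _))
      show g ((a, sInf {n : ℕ | p (a, n)}), s) = true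
      rw [h]
      exact decide_eq_true hmem
    · intro n hn
      have h := hs n (Finset.mem_range.2 (by omega))
      show g ((a, n), s) = false
      rw [h]
      exact decide_eq_false (hnot n hn)

end Pool.Agent.H662.TR
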