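import Pool.Agent.H662.TR.Stm

/-!
# MO: monotonicity of the betting strategy (leaf of the project TR, by helper612)
-/

set_option autoImplicit false

namespace Pool.Agent.H662.TR.XMO

open Pool.Agent.H662.TR

theorem F1_mono {τ τ' : Node} {ξ ξ' : Str} (h : τ <+: τ') (h' : ξ <+: ξ') (hF : F1 τ ξ = true) :
    F1 τ' ξ' = true := by
  unfold F1 at hF ⊢
  rw [List.any_eq_true] at hF ⊢
  obtain ⟨p, hp, hq⟩ := hF
  rw [Bool.and_eq_true] at hq
  refine ⟨p, ?_, ?_⟩
  · rw [List.mem_flatten] at hp ⊢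
    obtain ⟨l, hl, hpl⟩ := hp
    exact ⟨l, h.subset hl, hpl⟩
  · rw [Bool.and_eq_true]
    exact ⟨pre_iff.2 ((pre_iff.1 hq.1).trans h'), hq.2⟩

theorem stepc_flag (b : ℕ) (v : ℕ × List Str) (ξ : Str) (q : St) (h : q.2.2.2 = true) :
    (stepc b v ξ q).2.2.2 = true := by
  unfold stepc
  split_ifs
  · simp [h]
  · exact h
  · exact h

theorem iter_flag (β : (ℕ × Str) × ℕ → Bool) (d b : ℕ) (τ : Node) (ξ : Str) (q : St)
    (h : q.2.2.2 = true) (k : ℕ) : ((step β d b τ ξ)^[k] q).2.2.2 = true := by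
  induction k with
  | zero => exact h
  | succ k ih =>
    rw [Function.iterate_succ_apply']
    exact stepc_flag _ _ _ _ ih

/-- one step -/
theorem step_cmp (β : (ℕ × Str) × ℕ → Bool) (d b : ℕ) {τ τ' : Node} {ξ ξ' : Str} (hτ : τ <+: τ')
    (hξ : ξ <+: ξ') (hl : τ.length = ξ.length + 1) (q : St) (hq : q.1 ≤ ξ.length) :
    (step β d b τ ξ q = step β d b τ' ξ' q ∧ (step β d b τ ξ q).1 ≤ ξ.length) ∨
      step β d b τ ξ q = q := by
  have ht : ∀ i, i ≤ ξ.length → ξ'.take i = ξ.take i := by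
    intro i hi
    obtain ⟨t, rfl⟩ := hξ
    rw [List.take_append_of_le_length hi]
  have hτt : τ'.take (q.1 + 1) = τ.take (q.1 + 1) := by
    obtain ⟨t, rfl⟩ := hτ
    rw [List.take_append_of_le_length (by omega)]
  have hlen : ξ.length ≤ ξ'.length := hξ.length_le
  unfold step
  rw [hτt]
  generalize dat β d (τ.take (q.1 + 1)) = v
  unfold stepc
  by_cases hc : v.1 + 1 ≤ ξ.length ∧ 16 * cnt v.2 (ξ.take q.1) ≤ 2 ^ (v.1 - q.1)
  · left
    have hc' : v.1 + 1 ≤ ξ'.length ∧ 16 * cnt v.2 (ξ'.take q.1) ≤ 2 ^ (v.1 - q.1) := by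
      rw [ht _ hq]
      exact ⟨hc.1.trans hlen, hc.2⟩
    rw [if_pos hc, if_pos hc', ht v.1 (by omega)]
    refine ⟨rfl, ?_⟩
    split_ifs
    · exact hc.1
    · exact hc.1
  · right
    rw [if_neg hc]

theorem inv (β : (ℕ × Str) × ℕ → Bool) (d b : ℕ) {τ τ' : Node} {ξ ξ' : Str} (hτ : τ <+: τ')
    (hξ : ξ <+: ξ') (hl : τ.length = ξ.length + 1) (q0 : St)
    (h0 : q0.1 ≤ ξ.length ∨ step β d b τ ξ q0 = q0) (j : ℕ) :
    ((step β d b τ ξ)^[j] q0 = (step β d b τ' ξ')^[j] q0 ∧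
      ((step β d b τ ξ)^[j] q0).1 ≤ ξ.length) ∨
    (step β d b τ ξ ((step β d b τ ξ)^[j] q0) = (step β d b τ ξ)^[j] q0 ∧
      (((step β d b τ ξ)^[j] q0).2.2.2 = true → ((step β d b τ' ξ')^[j] q0).2.2.2 = true)) := by
  induction j with
  | zero =>
    rcases h0 with h | h
    · exact Or.inl ⟨rfl, h⟩
    · exact Or.inr ⟨h, fun h => h⟩
  | succ j ih =>
    rw [Function.iterate_succ_apply', Function.iterate_succ_apply']
    rcases ih with ⟨h1, h2⟩ | ⟨h1, h2⟩
    · rw [← h1]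
      rcases step_cmp β d b hτ hξ hl _ h2 with ⟨h3, h4⟩ | h3
      · exact Or.inl ⟨h3, h4⟩
      · right
        refine ⟨by rw [h3, h3], fun h => ?_⟩
        rw [h3] at h
        exact stepc_flag _ _ _ _ h
    · right
      refine ⟨by rw [h1, h1], fun h => ?_⟩
      rw [h1] at h
      exact stepc_flag _ _ _ _ (h2 h)

end Pool.Agent.H662.TR.XMO

namespace Pool.Agent.H662.TR

/-- MO -/
theorem t_MO (hCL : S_CL) (hDW : S_DW) : S_MO := by
  intro β hβ b τ τ' ξ ξ' hT hτ hξ hl hl' hU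
  rcases hU with h | h
  · exact Or.inl (XMO.F1_mono hτ hξ h)
  · right
    have hne : τ ≠ [] := by
      rintro rfl
      simp at hl
    have hTτ : inT β (b + 5) τ := hCL β hβ (b + 5) τ' τ hT hne hτ
    have h0 : ((5, 0, 0, false) : St).1 ≤ ξ.length ∨
        step β (b + 5) b τ ξ (5, 0, 0, false) = (5, 0, 0, false) := by
      by_cases h5 : 5 ≤ ξ.length
      · exact Or.inl h5
      · right
        have ht : τ.take (5 + 1) = τ := List.take_of_length_le (by omega)
        have hW := hDW β hβ (b + 5) τ hTτ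
        obtain ⟨hW1, -⟩ := hW
        show stepc b (dat β (b + 5) (τ.take (5 + 1))) ξ (5, 0, 0, false) = (5, 0, 0, false)
        rw [ht]
        unfold stepc
        rw [if_neg]
        rintro ⟨hc, -⟩
        omega
    have hinv := XMO.inv β (b + 5) b hτ hξ hl (5, 0, 0, false) h0 ξ.length
    have hflag : ((step β (b + 5) b τ' ξ')^[ξ.length] (5, 0, 0, false)).2.2.2 = true := by
      unfold run at h
      rcases hinv with ⟨h1, -⟩ | ⟨-, h2⟩
      · rw [← h1]
        exact h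
      · exact h2 h
    unfold run
    have hlen : ξ.length ≤ ξ'.length := hξ.length_le
    have hsplit : ξ'.length = (ξ'.length - ξ.length) + ξ.length := by omega
    rw [hsplit, Function.iterate_add_apply]
    exact XMO.iter_flag β (b + 5) b τ' ξ' _ hflag _

end Pool.Agent.H662.TR
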