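import Pool.Agent.H662.TR.Stm

/-!
# NE of project TR (helper662), by helper722: every level of the tree is nonempty
-/

set_option autoImplicit false

namespace Pool.Agent.H662.TR

namespace XNE

theorem Gr_succ {β : (ℕ × Str) × ℕ → Bool} {d e : ℕ} {τ : Node} (h : τ ∈ Gr β d e) :
    τ ∈ Gr β d (e + 1) := by
  rw [Gr]
  cases Encodable.decode (α := Node) e with
  | none => exact h
  | some τ' =>
    simp only [Option.elim_some]
    split_ifs
    · exact List.mem_cons_of_mem _ h
    · exact h

theorem Gr_mono {β : (ℕ × Str) × ℕ → Bool} {d e f : ℕ} (hef : e ≤ f) {τ : Node}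
    (h : τ ∈ Gr β d e) : τ ∈ Gr β d f := by
  induction f, hef using Nat.le_induction with
  | base => exact h
  | succ f _ ih => exact Gr_succ ih

theorem exists_bound (l : List Node) : ∃ f : ℕ, ∀ τ ∈ l, Encodable.encode τ + 1 ≤ f := by
  induction l with
  | nil => exact ⟨0, fun τ h => by simp at h⟩
  | cons a l ih =>
    obtain ⟨f, hf⟩ := ih
    refine ⟨max f (Encodable.encode a + 1), fun τ h => ?_⟩
    rcases List.mem_cons.1 h with rfl | h
    · exact le_max_right _ _
    · exact (hf τ h).trans (le_max_left _ _)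

end XNE

open XNE in
theorem t_NE (hGG : S_GG) (hCN : S_CN) : S_NE := by
  intro β hβ d m
  by_contra hcon
  push Not at hcon
  obtain ⟨f, hf⟩ := exists_bound (nodes m)
  have hall : ∀ τ ∈ nodes m, τ ∈ Gr β d f := by
    intro τ hτ
    have h1 : τ ∈ Gr β d (Encodable.encode τ + 1) := by
      have := hcon τ hτ
      rw [inT] at this
      exact not_not.1 this
    exact Gr_mono (hf τ hτ) h1
  have hg := hGG β hβ d f m 0
  rw [okay, List.any_eq_true] at hg
  obtain ⟨B, hB, hB2⟩ := hg
  rw [Bool.and_eq_true] at hB2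
  have hc := hall _ (hCN m B m le_rfl hB)
  have hav := hB2.2
  rw [avoid, List.all_eq_true] at hav
  have h := hav _ hc
  rw [length_cc, Nat.add_sub_cancel] at h
  simp at h

end Pool.Agent.H662.TR
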