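import Pool.Agent.H662.TR.Stm

set_option autoImplicit false

/-! S_PA (the path argument), written by helper142. -/

namespace Pool.Agent.H662.TR

namespace XPA

/-- positions of the betting strategy along the path -/
noncomputable def mu (β : (ℕ × Str) × ℕ → Bool) (d : ℕ) (P : ℕ → Vec) : ℕ → ℕ
  | 0 => 5
  | j + 1 => (dat β d (seg P (mu β d P j))).1 + 1

/-- the witnesses along the path -/
noncomputable def vv (β : (ℕ × Str) × ℕ → Bool) (d : ℕ) (P : ℕ → Vec) (j : ℕ) : ℕ × List Str :=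
  dat β d (seg P (mu β d P j))

theorem mu_succ (β : (ℕ × Str) × ℕ → Bool) (d : ℕ) (P : ℕ → Vec) (j : ℕ) :
    mu β d P (j + 1) = (vv β d P j).1 + 1 := rfl

/-- the states along the path -/
noncomputable def stt (β : (ℕ × Str) × ℕ → Bool) (d b : ℕ) (P : ℕ → Vec) (Z : ℕ → Bool) : ℕ → St
  | 0 => (5, 0, 0, false)
  | j + 1 =>
    if xs Z (vv β d P j).1 ∈ (vv β d P j).2 then
      (mu β d P (j + 1), (stt β d b P Z j).2.1 + 1, (stt β d b P Z j).2.2.1,
        (stt β d b P Z j).2.2.2 ||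
          decide ((stt β d b P Z j).2.2.1 + b ≤ 3 * ((stt β d b P Z j).2.1 + 1)))
    else (mu β d P (j + 1), (stt β d b P Z j).2.1, (stt β d b P Z j).2.2.1 + 1,
      (stt β d b P Z j).2.2.2)

theorem stt_fst (β : (ℕ × Str) × ℕ → Bool) (d b : ℕ) (P : ℕ → Vec) (Z : ℕ → Bool) (j : ℕ) :
    (stt β d b P Z j).1 = mu β d P j := by
  cases j with
  | zero => rfl
  | succ j =>
    simp only [stt]
    split_ifs <;> rfl

section main

variable {β : (ℕ × Str) × ℕ → Bool} {d : ℕ} {P : ℕ → Vec}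

theorem mu_le (hW : ∀ m, W β d (seg P m) (dat β d (seg P m))) (j : ℕ) : mu β d P j ≤ (vv β d P j).1 := by
  have h := (hW (mu β d P j)).1
  rw [length_seg] at h
  exact Nat.le_of_succ_le_succ h

theorem le_mu (hW : ∀ m, W β d (seg P m) (dat β d (seg P m))) (j : ℕ) : 5 + j ≤ mu β d P j := by
  induction j with
  | zero => exact le_rfl
  | succ j ih =>
    have h := mu_le hW j
    rw [mu_succ]
    omega

/-- few elements of the witness extend the initial segment of `Z` -/
theorem small_cnt (hW : ∀ m, W β d (seg P m) (dat β d (seg P m))) {Z : ℕ → Bool}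
    (hZ : ∀ m, ¬ F1 (seg P m) (xs Z m) = true) (j : ℕ) :
    16 * cnt (vv β d P j).2 (xs Z (mu β d P j)) ≤ 2 ^ ((vv β d P j).1 - mu β d P j) := by
  have hW' := (hW (mu β d P j)).2.2.2
  rw [length_seg, Nat.add_sub_cancel] at hW'
  have h5 : 5 ≤ mu β d P j := le_trans (Nat.le_add_right 5 j) (le_mu hW j)
  have hF := hZ (mu β d P j)
  change cc (vv β d P j).1 (vv β d P j).2 (mu β d P j) = seg P (mu β d P j) at hW'
  generalize hm : mu β d P j = μ at *
  generalize hn : (vv β d P j).1 = n at *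
  generalize hB : (vv β d P j).2 = B at *
  by_contra hlt
  push Not at hlt
  apply hF
  rw [← hW']
  unfold F1
  rw [List.any_eq_true]
  refine ⟨(xs Z μ, 2 ^ μ * cnt B (xs Z μ) / 2 ^ (n - μ)), ?_, ?_⟩
  · rw [List.mem_flatten]
    refine ⟨code n B μ, ?_, ?_⟩
    · unfold cc
      exact List.mem_map.2 ⟨μ, List.mem_range.2 (Nat.lt_succ_self μ), rfl⟩
    · unfold code
      exact List.mem_map.2 ⟨xs Z μ, mem_strs.2 (length_xs Z μ), rfl⟩
  · rw [Bool.and_eq_true]
    refine ⟨pre_iff.2 (List.prefix_refl _), ?_⟩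
    rw [decide_eq_true_eq]
    rw [length_xs]
    by_contra hq
    push Not at hq
    obtain ⟨e, rfl⟩ := Nat.exists_eq_add_of_le h5
    generalize hc : cnt B (xs Z (5 + e)) = c at *
    generalize hk : n - (5 + e) = k at *
    have hpk : 0 < 2 ^ k := Nat.two_pow_pos k
    have hpe : 0 < 2 ^ e := Nat.two_pow_pos e
    have e1 : (2:ℕ) ^ (5 + e) = 32 * 2 ^ e := by rw [pow_add]; norm_num
    rw [e1] at hq
    have h1 : 32 * 2 ^ e * c / 2 ^ k < 2 ^ e := by
      exact Nat.lt_of_mul_lt_mul_left hq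
    have h2 : 32 * 2 ^ e * c < 2 ^ e * 2 ^ k := (Nat.div_lt_iff_lt_mul hpk).1 h1
    have h3 : 2 ^ e * (32 * c) < 2 ^ e * 2 ^ k := by
      calc 2 ^ e * (32 * c) = 32 * 2 ^ e * c := by ring
        _ < _ := h2
    have h4 : 32 * c < 2 ^ k := Nat.lt_of_mul_lt_mul_left h3
    omega

/-- the run of the betting strategy follows the path -/
theorem iter (hW : ∀ m, W β d (seg P m) (dat β d (seg P m))) {b : ℕ} {Z : ℕ → Bool}
    (hZ : ∀ m, ¬ F1 (seg P m) (xs Z m) = true) (j m : ℕ) (hm : mu β d P j ≤ m) :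
    (step β d b (seg P m) (xs Z m))^[j] (5, 0, 0, false) = stt β d b P Z j := by
  induction j with
  | zero => rfl
  | succ j ih =>
    have h1 := mu_le hW j
    have h2 := mu_succ β d P j
    have h3 : mu β d P j ≤ m := by omega
    rw [Function.iterate_succ_apply', ih h3]
    unfold step
    rw [stt_fst, take_seg P h3]
    change stepc b (vv β d P j) (xs Z m) (stt β d b P Z j) = _
    unfold stepc
    have h4 : (vv β d P j).1 + 1 ≤ m := by omega
    have h5 := small_cnt hW hZ j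
    rw [stt_fst, length_xs, take_xs Z h3, take_xs Z (by omega : (vv β d P j).1 ≤ m), if_pos ⟨h4, h5⟩]
    rfl

theorem step_flag (b : ℕ) (τ : Node) (ξ : Str) (q : St) (hq : q.2.2.2 = true) :
    (step β d b τ ξ q).2.2.2 = true := by
  unfold step stepc
  split_ifs
  · simp [hq]
  · exact hq
  · exact hq

theorem iter_flag (b : ℕ) (τ : Node) (ξ : Str) (k : ℕ) (q : St) (hq : q.2.2.2 = true) :
    ((step β d b τ ξ)^[k] q).2.2.2 = true := by
  induction k with
  | zero => exact hq
  | succ k ih =>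
    rw [Function.iterate_succ_apply']
    exact step_flag b τ ξ _ ih

theorem flag_false (hW : ∀ m, W β d (seg P m) (dat β d (seg P m))) {b : ℕ} {Z : ℕ → Bool}
    (hZ : ∀ m, ¬ F1 (seg P m) (xs Z m) = true)
    (hR : ∀ m, ¬ (run β d b (seg P m) (xs Z m)).2.2.2 = true) (j : ℕ) :
    (stt β d b P Z j).2.2.2 = false := by
  by_contra h
  have h' : (stt β d b P Z j).2.2.2 = true := by simpa using h
  apply hR (mu β d P j)
  have hj : j ≤ mu β d P j := by
    have := le_mu hW j
    omega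
  obtain ⟨k, hk⟩ := Nat.exists_eq_add_of_le hj
  unfold run
  rw [length_xs]
  have e : (step β d b (seg P (mu β d P j)) (xs Z (mu β d P j)))^[mu β d P j] (5, 0, 0, false) =
      (step β d b (seg P (mu β d P j)) (xs Z (mu β d P j)))^[k]
        ((step β d b (seg P (mu β d P j)) (xs Z (mu β d P j)))^[j] (5, 0, 0, false)) := by
    rw [← Function.iterate_add_apply, Nat.add_comm k j, ← hk]
  rw [e, iter hW hZ j _ le_rfl]
  exact iter_flag b _ _ k _ h'

theorem counts (hW : ∀ m, W β d (seg P m) (dat β d (seg P m))) {b : ℕ} {Z : ℕ → Bool}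
    (hZ : ∀ m, ¬ F1 (seg P m) (xs Z m) = true)
    (hR : ∀ m, ¬ (run β d b (seg P m) (xs Z m)).2.2.2 = true) (j : ℕ) :
    (stt β d b P Z j).2.1 + (stt β d b P Z j).2.2.1 = j ∧
      (3 * (stt β d b P Z j).2.1 < (stt β d b P Z j).2.2.1 + b ∨ (stt β d b P Z j).2.1 = 0) := by
  induction j with
  | zero => exact ⟨rfl, Or.inr rfl⟩
  | succ j ih =>
    have hf := flag_false hW hZ hR (j + 1)
    obtain ⟨h1, h2⟩ := ih
    by_cases hb : xs Z (vv β d P j).1 ∈ (vv β d P j).2
    · have e : stt β d b P Z (j + 1) = (mu β d P (j + 1), (stt β d b P Z j).2.1 + 1, (stt β d b P Z j).2.2.1,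
        (stt β d b P Z j).2.2.2 ||
          decide ((stt β d b P Z j).2.2.1 + b ≤ 3 * ((stt β d b P Z j).2.1 + 1))) := by
        rw [stt, if_pos hb]
      rw [e] at hf ⊢
      simp only [Bool.or_eq_false_iff, decide_eq_false_iff_not] at hf ⊢
      omega
    · have e : stt β d b P Z (j + 1) = (mu β d P (j + 1), (stt β d b P Z j).2.1, (stt β d b P Z j).2.2.1 + 1,
        (stt β d b P Z j).2.2.2) := by
        rw [stt, if_neg hb]
      rw [e]
      simp only
      omega

theorem mono_bd (b : ℕ) (Z : ℕ → Bool) (j : ℕ) :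
    (stt β d b P Z j).2.1 ≤ (stt β d b P Z (j + 1)).2.1 := by
  rw [stt]
  split_ifs
  · exact Nat.le_succ _
  · exact le_rfl

theorem bad_bd (b : ℕ) (Z : ℕ → Bool) (j : ℕ) (h : xs Z (vv β d P j).1 ∈ (vv β d P j).2) :
    (stt β d b P Z (j + 1)).2.1 = (stt β d b P Z j).2.1 + 1 := by
  rw [stt, if_pos h]

theorem mem_of_Bd (hW : ∀ m, W β d (seg P m) (dat β d (seg P m))) (Z : ℕ → Bool) (j : ℕ)
    (h : Bd β d (xs Z (vv β d P j).1)) : xs Z (vv β d P j).1 ∈ (vv β d P j).2 := by
  obtain ⟨s, hs⟩ := h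
  have ha := (hW (mu β d P j)).2.2.1 s
  change adm β d (vv β d P j).1 s (vv β d P j).2 = true at ha
  unfold adm at ha
  rw [Bool.and_eq_true] at ha
  have h1 := List.all_eq_true.1 ha.1 (xs Z (vv β d P j).1)
    (List.mem_filter.2 ⟨mem_strs.2 (length_xs _ _), hs⟩)
  exact of_decide_eq_true h1

end main

end XPA

open XPA in
theorem t_PA (hDW : S_DW) : S_PA := by
  intro β hβ b X Y P ⟨N, hN⟩ hT
  by_contra hno
  push Not at hno
  have hW : ∀ m, W β (b + 5) (seg P m) (dat β (b + 5) (seg P m)) := fun m => hDW β hβ (b + 5) _ (hT m)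
  have hX1 : ∀ m, ¬ F1 (seg P m) (xs X m) = true := fun m h => (hno m).1 (Or.inl h)
  have hX2 : ∀ m, ¬ (run β (b + 5) b (seg P m) (xs X m)).2.2.2 = true := fun m h => (hno m).1 (Or.inr h)
  have hY1 : ∀ m, ¬ F1 (seg P m) (xs Y m) = true := fun m h => (hno m).2 (Or.inl h)
  have hY2 : ∀ m, ¬ (run β (b + 5) b (seg P m) (xs Y m)).2.2.2 = true := fun m h => (hno m).2 (Or.inr h)
  have key : ∀ k, k ≤ (stt β (b + 5) b P X (N + k)).2.1 + (stt β (b + 5) b P Y (N + k)).2.1 := by
    intro k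
    induction k with
    | zero => exact Nat.zero_le _
    | succ k ih =>
      have h1 := mu_le hW (N + k)
      have h2 := le_mu hW (N + k)
      have hmX := mono_bd (β := β) (d := b + 5) (P := P) b X (N + k)
      have hmY := mono_bd (β := β) (d := b + 5) (P := P) b Y (N + k)
      rw [← Nat.add_assoc]
      rcases hN (vv β (b + 5) P (N + k)).1 (by omega) with h | h
      · have h3 := bad_bd b X (N + k) (mem_of_Bd hW X (N + k) h)
        omega
      · have h3 := bad_bd b Y (N + k) (mem_of_Bd hW Y (N + k) h)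
        omega
  have hk := key (N + b + 1)
  have cX := counts hW hX1 hX2 (N + (N + b + 1))
  have cY := counts hW hY1 hY2 (N + (N + b + 1))
  omega

end Pool.Agent.H662.TR
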