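import Pool.Agent.H662.TR.Stm

/-!
# PI: a predicate `∀ n, R (a, n)` with `R` primitive recursive is limit computable
-/

set_option autoImplicit false

namespace Pool.Agent.H662.TR

namespace XPI

/-- the approximation -/
def ap {α : Type} (R : α × ℕ → Bool) (x : α × ℕ) : Bool :=
  Nat.rec (motive := fun _ => Bool) true (fun n ih => ih && R (x.1, n)) x.2

theorem ap_true {α : Type} (R : α × ℕ → Bool) (a : α) (s : ℕ) :
    ap R (a, s) = true ↔ ∀ n < s, R (a, n) = true := by
  induction s with
  | zero => simp [ap]
  | succ s ih =>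
    have h1 : ap R (a, s + 1) = (ap R (a, s) && R (a, s)) := rfl
    rw [h1, Bool.and_eq_true, ih]
    constructor
    · rintro ⟨h2, h3⟩ n hn
      rcases Nat.lt_succ_iff_lt_or_eq.1 hn with h4 | h4
      · exact h2 n h4
      · rw [h4]
        exact h3
    · intro h2
      exact ⟨fun n hn => h2 n (by omega), h2 s (by omega)⟩

theorem primrec_ap {α : Type} [Primcodable α] {R : α × ℕ → Bool} (hR : Primrec R) :
    Primrec (ap R) := by
  have h1 : Primrec₂ (fun (x : α × ℕ) (p : ℕ × Bool) => p.2 && R (x.1, p.1)) := by
    refine Primrec.and.comp (Primrec.snd.comp Primrec.snd) (hR.comp ?_)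
    exact Primrec.pair (Primrec.fst.comp Primrec.fst) (Primrec.fst.comp Primrec.snd)
  exact Primrec.nat_rec' Primrec.snd (Primrec.const true) h1

end XPI

open XPI in
/-- PI. -/
theorem t_PI : S_PI := by
  intro α _ R hR
  classical
  refine ⟨ap R, primrec_ap hR, fun a => ?_⟩
  by_cases h : ∀ n, R (a, n) = true
  · refine Filter.Eventually.of_forall fun s => ?_
    rw [(ap_true R a s).2 fun n _ => h n]
    simp [h]
  · have h' := h
    push Not at h
    obtain ⟨n, hn⟩ := h
    filter_upwards [Filter.eventually_gt_atTop n] with s hs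
    have h1 : ap R (a, s) ≠ true := fun h2 => hn ((ap_true R a s).1 h2 n hs)
    rw [Bool.eq_false_of_not_eq_true h1]
    simp only [h']
    rfl

end Pool.Agent.H662.TR
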