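import Pool.Agent.H662.TR.Stm

/-!
# PR1: the basic functions on strings are primitive recursive
-/

set_option autoImplicit false

namespace Pool.Agent.H662.TR

namespace XPR1

open Primrec

theorem p_strs : Primrec strs := by
  have h : Primrec (fun n : ℕ => Nat.rec (motive := fun _ => List Str) [[]]
      (fun _ (ih : List Str) => ih.map (fun σ => false :: σ) ++ ih.map (fun σ => true :: σ)) n) := by
    refine Primrec.nat_rec₁ (f := fun (_ : ℕ) (ih : List Str) =>
      ih.map (fun σ => false :: σ) ++ ih.map (fun σ => true :: σ)) [[]] ?_
    refine Primrec.list_append.comp ?_ ?_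
    · refine Primrec.list_map Primrec.snd ?_
      exact Primrec.list_cons.comp (Primrec.const false) Primrec.snd
    · refine Primrec.list_map Primrec.snd ?_
      exact Primrec.list_cons.comp (Primrec.const true) Primrec.snd
  refine h.of_eq fun n => ?_
  induction n with
  | zero => rfl
  | succ n ih =>
    simp only [strs]
    rw [← ih]

theorem p_subs : Primrec subs := by
  have h : Primrec (fun l : List Str => l.foldr (fun (b : Str) (s : List (List Str)) =>
      s ++ s.map (fun m => b :: m)) [[]]) := by
    refine Primrec.list_foldr (h := fun (_ : List Str) (p : Str × List (List Str)) =>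
      p.2 ++ p.2.map (fun m => p.1 :: m)) Primrec.id (Primrec.const [[]]) ?_
    refine Primrec.list_append.comp (Primrec.snd.comp Primrec.snd) ?_
    refine Primrec.list_map (Primrec.snd.comp Primrec.snd) ?_
    exact Primrec.list_cons.comp (Primrec.fst.comp (Primrec.snd.comp Primrec.fst)) Primrec.snd
  refine h.of_eq fun l => ?_
  induction l with
  | nil => rfl
  | cons a l ih =>
    simp only [subs, List.foldr_cons]
    rw [ih]

theorem p_pre : Primrec (fun x : Str × Str => pre x.1 x.2) := by
  unfold pre
  exact (Primrec.eq.comp (Primrec.list_take.comp (Primrec.list_length.comp Primrec.fst)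
    Primrec.snd) Primrec.fst).decide

theorem p_cnt : Primrec (fun x : List Str × Str => cnt x.1 x.2) := by
  have h : PrimrecRel (fun (τ σ : Str) => pre σ τ = true) :=
    Primrec.eq.comp (p_pre.comp (Primrec.pair Primrec.snd Primrec.fst)) (Primrec.const true)
  have h2 := Primrec.list_length.comp (PrimrecRel.listFilter h)
  refine h2.of_eq fun x => ?_
  unfold cnt
  simp only [Bool.decide_eq_true]

end XPR1

theorem t_PR1 : S_PR1 := ⟨XPR1.p_strs, XPR1.p_subs, XPR1.p_pre, XPR1.p_cnt⟩

end Pool.Agent.H662.TR
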