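import Pool.Agent.H662.TR.Stm

set_option autoImplicit false

namespace Pool.Agent.H662.TR

namespace XPR2

open Primrec in
theorem pow2 : Primrec (fun n : ℕ => 2 ^ n) := by
  refine (Primrec.nat_rec₁ (f := fun _ ih : ℕ => ih * 2) 1 ?_).of_eq ?_
  · exact (Primrec.nat_mul.comp Primrec.snd (Primrec.const 2)).to₂
  · intro n
    induction n with
    | zero => rfl
    | succ n ih => rw [pow_succ, ← ih]

theorem code_prim (hPR1 : S_PR1) : Primrec (fun x : (ℕ × List Str) × ℕ => code x.1.1 x.1.2 x.2) := by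
  obtain ⟨h1, -, -, h4⟩ := hPR1
  have e1 : Primrec (fun p : ((ℕ × List Str) × ℕ) × Str => 2 ^ p.1.2) :=
    pow2.comp (Primrec.snd.comp Primrec.fst)
  have e2 : Primrec (fun p : ((ℕ × List Str) × ℕ) × Str => 2 ^ (p.1.1.1 - p.1.2)) :=
    pow2.comp (Primrec.nat_sub.comp (Primrec.fst.comp (Primrec.fst.comp Primrec.fst))
      (Primrec.snd.comp Primrec.fst))
  have e3 : Primrec (fun p : ((ℕ × List Str) × ℕ) × Str => cnt p.1.1.2 p.2) :=
    h4.comp (Primrec.pair (Primrec.snd.comp (Primrec.fst.comp Primrec.fst)) Primrec.snd)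
  have e4 : Primrec (fun p : ((ℕ × List Str) × ℕ) × Str =>
      2 ^ p.1.2 * cnt p.1.1.2 p.2 / 2 ^ (p.1.1.1 - p.1.2)) :=
    Primrec.nat_div.comp (Primrec.nat_mul.comp e1 e3) e2
  have e5 : Primrec₂ (fun (x : (ℕ × List Str) × ℕ) (σ : Str) =>
      (σ, 2 ^ x.2 * cnt x.1.2 σ / 2 ^ (x.1.1 - x.2))) :=
    (Primrec.pair Primrec.snd e4).to₂
  exact Primrec.list_map (h1.comp Primrec.snd) e5

theorem cc_prim (hPR1 : S_PR1) : Primrec (fun x : (ℕ × List Str) × ℕ => cc x.1.1 x.1.2 x.2) := by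
  have e1 : Primrec₂ (fun (x : (ℕ × List Str) × ℕ) (i : ℕ) => code x.1.1 x.1.2 i) :=
    ((code_prim hPR1).comp (Primrec.pair (Primrec.fst.comp Primrec.fst) Primrec.snd)).to₂
  have e2 : Primrec (fun x : (ℕ × List Str) × ℕ => List.range (x.2 + 1)) :=
    Primrec.list_range.comp (Primrec.succ.comp Primrec.snd)
  exact Primrec.list_map e2 e1

end XPR2

theorem t_PR2 (hPR1 : S_PR1) : S_PR2 := ⟨XPR2.code_prim hPR1, XPR2.cc_prim hPR1⟩

end Pool.Agent.H662.TR
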