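import Pool.Agent.H662.TR.Stm

/-!
# Project TR (helper662), task PR3: `adm`, `avoid`, `okay` are primitive recursive
-/

set_option autoImplicit false

namespace Pool.Agent.H662.TR.XPR3

open Pool.Agent.H662.TR

section
variable {α β : Type} [Primcodable α] [Primcodable β]

theorem p_any {f : α → List β} {g : α → β → Bool} (hf : Primrec f) (hg : Primrec₂ g) :
    Primrec fun a => (f a).any (g a) := by
  have h := Primrec.list_foldr (f := f) (g := fun _ => false)
    (h := fun a (x : β × Bool) => g a x.1 || x.2) hf (Primrec.const false)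
    (Primrec.or.comp (hg.comp Primrec.fst (Primrec.fst.comp Primrec.snd))
      (Primrec.snd.comp Primrec.snd))
  refine h.of_eq fun a => ?_
  generalize f a = l
  induction l with
  | nil => rfl
  | cons b l ih => rw [List.foldr_cons, List.any_cons, ih]

theorem p_all {f : α → List β} {g : α → β → Bool} (hf : Primrec f) (hg : Primrec₂ g) :
    Primrec fun a => (f a).all (g a) := by
  have h := Primrec.list_foldr (f := f) (g := fun _ => true)
    (h := fun a (x : β × Bool) => g a x.1 && x.2) hf (Primrec.const true)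
    (Primrec.and.comp (hg.comp Primrec.fst (Primrec.fst.comp Primrec.snd))
      (Primrec.snd.comp Primrec.snd))
  refine h.of_eq fun a => ?_
  generalize f a = l
  induction l with
  | nil => rfl
  | cons b l ih => rw [List.foldr_cons, List.all_cons, ih]

theorem p_eq {f g : α → β} {inst : ∀ a, Decidable (f a = g a)} (hf : Primrec f)
    (hg : Primrec g) : Primrec fun a => @decide (f a = g a) (inst a) := by
  classical
  have h := Primrec₂.comp (Primrec.eq (α := β)).decide hf hg
  exact h.of_eq fun a => decide_eq_decide.2 Iff.rfl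

theorem p_le {f g : α → ℕ} (hf : Primrec f) (hg : Primrec g) :
    Primrec fun a => decide (f a ≤ g a) :=
  Primrec₂.comp Primrec.nat_le.decide hf hg

theorem p_mem {f : α → β} {l : α → List β} {inst : ∀ a, Decidable (f a ∈ l a)}
    (hf : Primrec f) (hl : Primrec l) : Primrec fun a => @decide (f a ∈ l a) (inst a) := by
  classical
  have h := p_any (f := l) (g := fun a b => decide (b = f a)) hl
    (p_eq Primrec.snd (hf.comp Primrec.fst))
  refine h.of_eq fun a => ?_
  rw [Bool.eq_iff_iff, List.any_eq_true, decide_eq_true_iff]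
  constructor
  · rintro ⟨x, hx, he⟩
    rw [decide_eq_true_iff] at he
    rw [← he]
    exact hx
  · intro hx
    exact ⟨f a, hx, by rw [decide_eq_true_iff]⟩

theorem p_pow {f : α → ℕ} (hf : Primrec f) : Primrec fun a => 2 ^ f a :=
  Primrec₂.comp (f := fun a b : ℕ => a ^ b) (Primrec₂.unpaired'.1 Nat.Primrec.pow)
    (Primrec.const 2) hf

end

theorem adm_eq (β : (ℕ × Str) × ℕ → Bool) (d n s : ℕ) (B : List Str) :
    adm β d n s B = ((strs n).all (fun σ => !(β ((d, σ), s)) || decide (σ ∈ B)) &&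
      decide (B.length * 2 ^ d ≤ 2 ^ n)) := by
  unfold adm bad
  congr 1
  rw [List.all_filter]

section
variable (β : (ℕ × Str) × ℕ → Bool) (hβ : Primrec β) (hstrs : Primrec strs)

abbrev A1 := ((ℕ × ℕ) × ℕ) × List Str

include hβ in
theorem beta1 : Primrec (fun y : A1 × Str => β ((y.1.1.1.1, y.2), y.1.1.2)) :=
  hβ.comp (Primrec.pair (Primrec.pair (Primrec.fst.comp (Primrec.fst.comp (Primrec.fst.comp
    Primrec.fst))) Primrec.snd) (Primrec.snd.comp (Primrec.fst.comp Primrec.fst)))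

include hβ in
theorem beta2 : Primrec (fun y : A1 × Str =>
    (!(β ((y.1.1.1.1, y.2), y.1.1.2)) || decide (y.2 ∈ y.1.2))) :=
  Primrec.or.comp (Primrec.not.comp (beta1 β hβ)) (p_mem Primrec.snd (Primrec.snd.comp Primrec.fst))

include hβ hstrs in
theorem adm1 : Primrec (fun x : A1 =>
    (strs x.1.1.2).all (fun σ => !(β ((x.1.1.1, σ), x.1.2)) || decide (σ ∈ x.2))) :=
  p_all (g := fun (x : A1) (σ : Str) =>
    !(β ((x.1.1.1, σ), x.1.2)) || decide (σ ∈ x.2))
    (hstrs.comp (Primrec.snd.comp (Primrec.fst.comp Primrec.fst))) (beta2 β hβ)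

theorem adm2 : Primrec (fun x : A1 => decide (x.2.length * 2 ^ x.1.1.1 ≤ 2 ^ x.1.1.2)) :=
  p_le (Primrec.nat_mul.comp (Primrec.list_length.comp Primrec.snd)
    (p_pow (Primrec.fst.comp (Primrec.fst.comp Primrec.fst))))
    (p_pow (Primrec.snd.comp (Primrec.fst.comp Primrec.fst)))

include hβ hstrs in
theorem adm3 : Primrec (fun x : A1 => adm β x.1.1.1 x.1.1.2 x.1.2 x.2) :=
  (Primrec.and.comp (adm1 β hβ hstrs) adm2).of_eq
    fun x => (adm_eq β x.1.1.1 x.1.1.2 x.1.2 x.2).symm

end

section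
variable (hcc : Primrec (fun x : (ℕ × List Str) × ℕ => cc x.1.1 x.1.2 x.2))

abbrev A2 := (List Node × ℕ) × List Str

include hcc in
theorem av1 : Primrec (fun y : A2 × Node => cc y.1.1.2 y.1.2 (y.2.length - 1)) :=
  Primrec.comp (f := fun x : (ℕ × List Str) × ℕ => cc x.1.1 x.1.2 x.2) hcc
    (g := fun y : A2 × Node => ((y.1.1.2, y.1.2), y.2.length - 1))
    (Primrec.pair (Primrec.pair (Primrec.snd.comp (Primrec.fst.comp Primrec.fst))
      (Primrec.snd.comp Primrec.fst)) (Primrec.pred.comp (Primrec.list_length.comp Primrec.snd)))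

theorem av2 : Primrec (fun y : A2 × Node => decide (y.2.length ≤ y.1.1.2 + 1)) :=
  p_le (Primrec.list_length.comp Primrec.snd)
    (Primrec.succ.comp (Primrec.snd.comp (Primrec.fst.comp Primrec.fst)))

include hcc in
theorem av3 : Primrec (fun y : A2 × Node => decide (cc y.1.1.2 y.1.2 (y.2.length - 1) = y.2)) :=
  p_eq (av1 hcc) Primrec.snd

include hcc in
theorem av4 : Primrec (fun y : A2 × Node => !(decide (y.2.length ≤ y.1.1.2 + 1) &&
    decide (cc y.1.1.2 y.1.2 (y.2.length - 1) = y.2))) :=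
  Primrec.not.comp (Primrec.and.comp av2 (av3 hcc))

include hcc in
theorem av5 : Primrec (fun x : A2 => avoid x.1.1 x.1.2 x.2) :=
  p_all (g := fun (x : A2) (τ : Node) =>
    !(decide (τ.length ≤ x.1.2 + 1) && decide (cc x.1.2 x.2 (τ.length - 1) = τ)))
    (Primrec.fst.comp Primrec.fst) (av4 hcc)

end

section
variable (β : (ℕ × Str) × ℕ → Bool)
variable (h1 : Primrec (fun x : A1 => adm β x.1.1.1 x.1.1.2 x.1.2 x.2))
variable (h2 : Primrec (fun x : A2 => avoid x.1.1 x.1.2 x.2))

abbrev A3 := ((ℕ × List Node) × ℕ) × ℕ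

include h1 in
theorem ok1 : Primrec (fun y : A3 × List Str => adm β y.1.1.1.1 y.1.1.2 y.1.2 y.2) :=
  Primrec.comp (f := fun x : A1 => adm β x.1.1.1 x.1.1.2 x.1.2 x.2) h1
    (g := fun y : A3 × List Str => (((y.1.1.1.1, y.1.1.2), y.1.2), y.2))
    (Primrec.pair (Primrec.pair (Primrec.pair
      (Primrec.fst.comp (Primrec.fst.comp (Primrec.fst.comp Primrec.fst)))
      (Primrec.snd.comp (Primrec.fst.comp Primrec.fst)))
      (Primrec.snd.comp Primrec.fst)) Primrec.snd)

include h2 in
theorem ok2 : Primrec (fun y : A3 × List Str => avoid y.1.1.1.2 y.1.1.2 y.2) :=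
  Primrec.comp (f := fun x : A2 => avoid x.1.1 x.1.2 x.2) h2
    (g := fun y : A3 × List Str => ((y.1.1.1.2, y.1.1.2), y.2))
    (Primrec.pair (Primrec.pair
      (Primrec.snd.comp (Primrec.fst.comp (Primrec.fst.comp Primrec.fst)))
      (Primrec.snd.comp (Primrec.fst.comp Primrec.fst))) Primrec.snd)

include h1 h2 in
theorem ok3 : Primrec (fun y : A3 × List Str =>
    (adm β y.1.1.1.1 y.1.1.2 y.1.2 y.2 && avoid y.1.1.1.2 y.1.1.2 y.2)) :=
  Primrec.and.comp (ok1 β h1) (ok2 h2)

include h1 h2 in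
theorem ok4 (hstrs : Primrec strs) (hsubs : Primrec subs) :
    Primrec (fun x : A3 => okay β x.1.1.1 x.1.1.2 x.1.2 x.2) :=
  p_any (g := fun (x : A3) (B : List Str) =>
    adm β x.1.1.1 x.1.2 x.2 B && avoid x.1.1.2 x.1.2 B)
    (hsubs.comp (hstrs.comp (Primrec.snd.comp Primrec.fst))) (ok3 β h1 h2)

end

end Pool.Agent.H662.TR.XPR3

namespace Pool.Agent.H662.TR

open XPR3

theorem t_PR3 (hPR1 : S_PR1) (hPR2 : S_PR2) : S_PR3 := by
  intro β hβ
  obtain ⟨hstrs, hsubs, _, _⟩ := hPR1
  obtain ⟨_, hcc⟩ := hPR2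
  exact ⟨adm3 β hβ hstrs, av5 hcc, ok4 β (adm3 β hβ hstrs) (av5 hcc) hstrs hsubs⟩

end Pool.Agent.H662.TR
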