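import Pool.Agent.H662.TR.Stm

set_option autoImplicit false

namespace Pool.Agent.H662.TR

namespace XPR5

theorem pow2 : Primrec (fun n : ℕ => 2 ^ n) := by
  have h : Primrec₂ (fun (_ : ℕ) (r : ℕ) => 2 * r) :=
    Primrec.nat_mul.comp (Primrec.const 2) Primrec.snd
  refine (Primrec.nat_rec₁ (f := fun (_ : ℕ) (r : ℕ) => 2 * r) 1 h).of_eq fun n => ?_
  induction n with
  | zero => rfl
  | succ n ih =>
    show 2 * _ = 2 ^ (n + 1)
    rw [ih, pow_succ, mul_comm]

theorem mem_list {α : Type} [Primcodable α] :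
    PrimrecRel (fun (L : List α) (b : α) => b ∈ L) := by
  have h : PrimrecRel (fun (L : List α) (b : α) => ∃ a ∈ L, a = b) :=
    PrimrecRel.exists_mem_list (R := fun a b : α => a = b) Primrec.eq
  refine PrimrecRel.of_eq h fun L b => ?_
  constructor
  · rintro ⟨a, ha, rfl⟩
    exact ha
  · intro hb
    exact ⟨b, hb, rfl⟩

end XPR5

open XPR5 Primrec in
theorem t_PR5 (hPR1 : S_PR1) : S_PR5 := by
  obtain ⟨-, -, -, hcnt⟩ := hPR1
  let X : Type := ((ℕ × (ℕ × List Str)) × Str) × St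
  have hb : Primrec (fun x : X => x.1.1.1) := fst.comp (fst.comp fst)
  have hv1 : Primrec (fun x : X => x.1.1.2.1) := fst.comp (snd.comp (fst.comp fst))
  have hv2 : Primrec (fun x : X => x.1.1.2.2) := snd.comp (snd.comp (fst.comp fst))
  have hξ : Primrec (fun x : X => x.1.2) := snd.comp fst
  have hq : Primrec (fun x : X => x.2) := snd
  have hq1 : Primrec (fun x : X => x.2.1) := fst.comp snd
  have hq2 : Primrec (fun x : X => x.2.2.1) := fst.comp (snd.comp snd)
  have hq3 : Primrec (fun x : X => x.2.2.2.1) := fst.comp (snd.comp (snd.comp snd))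
  have hq4 : Primrec (fun x : X => x.2.2.2.2) := snd.comp (snd.comp (snd.comp snd))
  have hv1s : Primrec (fun x : X => x.1.1.2.1 + 1) := nat_add.comp hv1 (const 1)
  have hq2s : Primrec (fun x : X => x.2.2.1 + 1) := nat_add.comp hq2 (const 1)
  have hq3s : Primrec (fun x : X => x.2.2.2.1 + 1) := nat_add.comp hq3 (const 1)
  have hlen : Primrec (fun x : X => x.1.2.length) := list_length.comp hξ
  have htq : Primrec (fun x : X => x.1.2.take x.2.1) := list_take.comp hq1 hξ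
  have htv : Primrec (fun x : X => x.1.2.take x.1.1.2.1) := list_take.comp hv1 hξ
  have hc : Primrec (fun x : X => cnt x.1.1.2.2 (x.1.2.take x.2.1)) := hcnt.comp (hv2.pair htq)
  have hc16 : Primrec (fun x : X => 16 * cnt x.1.1.2.2 (x.1.2.take x.2.1)) :=
    nat_mul.comp (const 16) hc
  have hpow : Primrec (fun x : X => 2 ^ (x.1.1.2.1 - x.2.1)) := pow2.comp (nat_sub.comp hv1 hq1)
  have hP : PrimrecPred (fun x : X => x.1.1.2.1 + 1 ≤ x.1.2.length ∧
      16 * cnt x.1.1.2.2 (x.1.2.take x.2.1) ≤ 2 ^ (x.1.1.2.1 - x.2.1)) :=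
    (nat_le.comp hv1s hlen).and (nat_le.comp hc16 hpow)
  have hM : PrimrecPred (fun x : X => x.1.2.take x.1.1.2.1 ∈ x.1.1.2.2) :=
    mem_list.comp hv2 htv
  have hD : PrimrecPred (fun x : X => x.2.2.2.1 + x.1.1.1 ≤ 3 * (x.2.2.1 + 1)) :=
    nat_le.comp (nat_add.comp hq3 hb) (nat_mul.comp (const 3) hq2s)
  have hflag : Primrec (fun x : X => x.2.2.2.2 || decide (x.2.2.2.1 + x.1.1.1 ≤ 3 * (x.2.2.1 + 1))) :=
    Primrec.or.comp hq4 hD.decide
  have hA : Primrec (fun x : X => ((x.1.1.2.1 + 1, x.2.2.1 + 1, x.2.2.2.1,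
      x.2.2.2.2 || decide (x.2.2.2.1 + x.1.1.1 ≤ 3 * (x.2.2.1 + 1))) : St)) :=
    hv1s.pair (hq2s.pair (hq3.pair hflag))
  have hB : Primrec (fun x : X => ((x.1.1.2.1 + 1, x.2.2.1, x.2.2.2.1 + 1, x.2.2.2.2) : St)) :=
    hv1s.pair (hq2.pair (hq3s.pair hq4))
  exact Primrec.ite hP (Primrec.ite hM hA hB) hq

end Pool.Agent.H662.TR
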