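import Pool.Agent.H662.TR.Stm

/-! # PW: Kraft type inequality (helper878, for helper662) -/

set_option autoImplicit false

namespace Pool.Agent.H662.TR

namespace XPW

/-- the extensions of `σ` of length `m` -/
def ext (m : ℕ) (σ : Str) : Finset Str :=
  ((strs (m - σ.length)).map (fun ρ => σ ++ ρ)).toFinset

theorem mem_ext {m : ℕ} {σ : Str} (h : σ.length ≤ m) {ξ : Str} :
    ξ ∈ ext m σ ↔ ξ.length = m ∧ σ <+: ξ := by
  unfold ext
  rw [List.mem_toFinset, List.mem_map]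
  constructor
  · rintro ⟨ρ, hρ, rfl⟩
    rw [mem_strs] at hρ
    refine ⟨?_, List.prefix_append _ _⟩
    rw [List.length_append, hρ]
    omega
  · rintro ⟨h1, ρ, rfl⟩
    refine ⟨ρ, ?_, rfl⟩
    rw [mem_strs]
    rw [List.length_append] at h1
    omega

theorem card_ext (m : ℕ) (σ : Str) : (ext m σ).card = 2 ^ (m - σ.length) := by
  unfold ext
  rw [List.toFinset_card_of_nodup, List.length_map, length_strs]
  exact (nodup_strs _).map (List.append_right_injective σ)

theorem exists_S (m : ℕ) (l : List Str) (h1 : ∀ σ ∈ l, σ.length ≤ m)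
    (h2 : l.Pairwise (fun σ ρ => ¬ (σ <+: ρ) ∧ ¬ (ρ <+: σ))) :
    ∃ S : Finset Str, (∀ ξ ∈ S, ξ.length = m ∧ ∃ σ ∈ l, σ <+: ξ) ∧
      (l.map (fun σ => ((1:ℝ)/2) ^ σ.length)).sum * 2 ^ m = S.card := by
  classical
  induction l with
  | nil =>
    refine ⟨∅, fun ξ hξ => absurd hξ (Finset.notMem_empty ξ), ?_⟩
    simp
  | cons σ l ih =>
    rw [List.pairwise_cons] at h2
    obtain ⟨S, hS1, hS2⟩ := ih (fun ρ hρ => h1 ρ (List.mem_cons_of_mem _ hρ)) h2.2
    have hσ := h1 σ List.mem_cons_self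
    refine ⟨ext m σ ∪ S, ?_, ?_⟩
    · intro ξ hξ
      rcases Finset.mem_union.1 hξ with h | h
      · rw [mem_ext hσ] at h
        exact ⟨h.1, σ, List.mem_cons_self, h.2⟩
      · obtain ⟨h3, ρ, h4, h5⟩ := hS1 ξ h
        exact ⟨h3, ρ, List.mem_cons_of_mem _ h4, h5⟩
    · have hd : Disjoint (ext m σ) S := by
        rw [Finset.disjoint_left]
        intro ξ h3 h4
        rw [mem_ext hσ] at h3
        obtain ⟨-, ρ, h6, h7⟩ := hS1 ξ h4
        rcases List.prefix_or_prefix_of_prefix h3.2 h7 with h8 | h8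
        · exact (h2.1 ρ h6).1 h8
        · exact (h2.1 ρ h6).2 h8
      rw [Finset.card_union_of_disjoint hd, card_ext, List.map_cons, List.sum_cons, add_mul, hS2]
      push_cast
      congr 1
      have h3 : (2 : ℝ) ^ m = 2 ^ σ.length * 2 ^ (m - σ.length) := by
        rw [← pow_add]
        congr 1
        omega
      rw [h3, ← mul_assoc, ← mul_pow]
      norm_num

end XPW

theorem t_PW : S_PW := by
  intro m l E N h1 h2 h3 h4
  obtain ⟨S, hS1, hS2⟩ := XPW.exists_S m l h1 h2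
  rw [hS2]
  have h5 := h4 S fun ξ hξ => by
    obtain ⟨h6, σ, h7, h8⟩ := hS1 ξ hξ
    exact ⟨h6, h3 σ h7 ξ h6 h8⟩
  exact_mod_cast h5

end Pool.Agent.H662.TR
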