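import Pool.Agent.H662.TR.Stm

/-! # `S_REC` (helper404) -/

set_option autoImplicit false

namespace Pool.Agent.H662.TR

namespace XREC

/-- the approximation of a primitive recursion -/
def approx {α σ : Type} (gf : α × ℕ → σ) (gh : (α × (ℕ × σ)) × ℕ → σ) (x : (α × ℕ) × ℕ) : σ :=
  Nat.rec (motive := fun _ => σ) (gf (x.1.1, x.2)) (fun n ih => gh ((x.1.1, (n, ih)), x.2)) x.1.2

theorem approx_primrec {α σ : Type} [Primcodable α] [Primcodable σ] {gf : α × ℕ → σ}
    {gh : (α × (ℕ × σ)) × ℕ → σ} (h1 : Primrec gf) (h2 : Primrec gh) :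
    Primrec (approx gf gh) := by
  have hg : Primrec (fun x : (α × ℕ) × ℕ => gf (x.1.1, x.2)) :=
    h1.comp ((Primrec.fst.comp Primrec.fst).pair Primrec.snd)
  have hh : Primrec₂ (fun (x : (α × ℕ) × ℕ) (p : ℕ × σ) => gh ((x.1.1, p), x.2)) := by
    have h3 : Primrec (fun y : ((α × ℕ) × ℕ) × (ℕ × σ) => gh ((y.1.1.1, y.2), y.1.2)) :=
      h2.comp (((Primrec.fst.comp (Primrec.fst.comp Primrec.fst)).pair Primrec.snd).pair
        (Primrec.snd.comp Primrec.fst))
    exact h3
  exact Primrec.nat_rec' (Primrec.snd.comp Primrec.fst) hg hh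

end XREC

open XREC

theorem t_REC : S_REC := by
  intro α σ _ _ f h ⟨gf, hgf, hf⟩ ⟨gh, hgh, hh⟩
  refine ⟨approx gf gh, approx_primrec hgf hgh, ?_⟩
  rintro ⟨a, n⟩
  induction n with
  | zero => exact hf a
  | succ n ih =>
    filter_upwards [ih, hh (a, (n, Nat.rec (motive := fun _ => σ) (f a)
      (fun n ih => h (a, (n, ih))) n))] with s h1 h2
    change gh ((a, (n, approx gf gh ((a, n), s))), s) = _
    rw [h1]
    exact h2

end Pool.Agent.H662.TR
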