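import Pool.Agent.H662.TR.Stm

set_option autoImplicit false

namespace Pool.Agent.H662.TR

namespace XSG

theorem mem_primrec : PrimrecRel (fun (L : List Str) (σ : Str) => σ ∈ L) :=
  (PrimrecRel.exists_mem_list (R := fun (a b : Str) => a = b) Primrec.eq).of_eq (by
    intro L σ
    constructor
    · rintro ⟨a, ha, rfl⟩; exact ha
    · intro h; exact ⟨σ, h, rfl⟩)

end XSG

open XSG in
theorem t_SG : S_SG := by
  intro A hA
  obtain ⟨g, hg, hlim⟩ := hA
  refine ⟨fun x => decide (x.1 + 4 ≤ x.2.2.1.unpair.1 ∧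
    x.2.1 ∈ g ((x.2.2.1.unpair.1, x.2.2.1.unpair.2.unpair.1),
      x.2.2.1.unpair.2.unpair.2 + x.2.2.2)), ?_, ?_⟩
  · have hk : Primrec (fun x : ℕ × List Bool × ℕ × ℕ => x.1) := Primrec.fst
    have hσ : Primrec (fun x : ℕ × List Bool × ℕ × ℕ => x.2.1) := Primrec.fst.comp Primrec.snd
    have ha : Primrec (fun x : ℕ × List Bool × ℕ × ℕ => x.2.2.1.unpair) :=
      Primrec.unpair.comp (Primrec.fst.comp (Primrec.snd.comp Primrec.snd))
    have ht : Primrec (fun x : ℕ × List Bool × ℕ × ℕ => x.2.2.2) :=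
      Primrec.snd.comp (Primrec.snd.comp Primrec.snd)
    have hb : Primrec (fun x : ℕ × List Bool × ℕ × ℕ => x.2.2.1.unpair.1) := Primrec.fst.comp ha
    have hc : Primrec (fun x : ℕ × List Bool × ℕ × ℕ => x.2.2.1.unpair.2.unpair) :=
      Primrec.unpair.comp (Primrec.snd.comp ha)
    have hm : Primrec (fun x : ℕ × List Bool × ℕ × ℕ => x.2.2.1.unpair.2.unpair.1) :=
      Primrec.fst.comp hc
    have hs : Primrec (fun x : ℕ × List Bool × ℕ × ℕ => x.2.2.1.unpair.2.unpair.2) :=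
      Primrec.snd.comp hc
    have h1 : PrimrecPred (fun x : ℕ × List Bool × ℕ × ℕ => x.1 + 4 ≤ x.2.2.1.unpair.1) :=
      Primrec.nat_le.comp (Primrec.nat_add.comp hk (Primrec.const 4)) hb
    have h2 : Primrec (fun x : ℕ × List Bool × ℕ × ℕ =>
        g ((x.2.2.1.unpair.1, x.2.2.1.unpair.2.unpair.1), x.2.2.1.unpair.2.unpair.2 + x.2.2.2)) :=
      hg.comp ((hb.pair hm).pair (Primrec.nat_add.comp hs ht))
    have h3 : PrimrecPred (fun x : ℕ × List Bool × ℕ × ℕ => x.2.1 ∈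
        g ((x.2.2.1.unpair.1, x.2.2.1.unpair.2.unpair.1), x.2.2.1.unpair.2.unpair.2 + x.2.2.2)) :=
      mem_primrec.comp h2 hσ
    have h4 := h1.and h3
    exact h4.decide.to_comp
  · intro k σ
    simp only [decide_eq_true_eq]
    constructor
    · rintro ⟨a, ha⟩
      refine ⟨a.unpair.1, a.unpair.2.unpair.1, (ha 0).1, ?_⟩
      obtain ⟨s, hs⟩ := Filter.eventually_atTop.1 (hlim (a.unpair.1, a.unpair.2.unpair.1))
      have h := hs (a.unpair.2.unpair.2 + s) (Nat.le_add_left _ _)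
      rw [← h]
      exact (ha s).2
    · rintro ⟨b, m, hb, hσ⟩
      obtain ⟨s, hs⟩ := Filter.eventually_atTop.1 (hlim (b, m))
      refine ⟨Nat.pair b (Nat.pair m s), fun t => ?_⟩
      simp only [Nat.unpair_pair]
      refine ⟨hb, ?_⟩
      rw [hs (s + t) (Nat.le_add_right _ _)]
      exact hσ

end Pool.Agent.H662.TR
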