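import Pool.Agent.H662.TR.Stm

/-! # Project TR: the leaf SM (supermartingale bound) -/

set_option autoImplicit false

namespace Pool.Agent.H662.TR

namespace XSM

theorem countP_split (a c : ℕ) (p : Str → Bool) :
    (strs (a + c)).countP p =
      ((strs a).map (fun α => (strs c).countP (fun γ => p (α ++ γ)))).sum := by
  induction a generalizing p with
  | zero => simp [strs]
  | succ a ih =>
    have h : a + 1 + c = (a + c) + 1 := by omega
    rw [h]
    have h1 : strs (a + c + 1) = (strs (a + c)).map (fun σ => false :: σ) ++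
        (strs (a + c)).map (fun σ => true :: σ) := rfl
    have h2 : strs (a + 1) = (strs a).map (fun σ => false :: σ) ++
        (strs a).map (fun σ => true :: σ) := rfl
    rw [h1, h2, List.countP_append, List.map_append, List.sum_append, List.countP_map,
      List.countP_map, List.map_map, List.map_map, ih, ih]
    rfl

theorem sum_bound (l : List Str) (f : Str → ℕ) (A C : ℕ) (p : Str → Bool)
    (h : ∀ α ∈ l, f α * C ≤ A * (if p α = true then 16 else 1)) :
    (l.map f).sum * C ≤ A * (16 * l.countP p + l.length) := by
  induction l with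
  | nil => simp
  | cons a l ih =>
    have h1 := h a (by simp)
    have h2 := ih (fun α hα => h α (by simp [hα]))
    rw [List.map_cons, List.sum_cons, List.countP_cons, List.length_cons, add_mul]
    by_cases hp : p a = true
    · rw [if_pos hp] at h1
      rw [if_pos hp]
      nlinarith
    · rw [if_neg hp] at h1
      rw [if_neg hp]
      nlinarith

theorem sum_bound' (l : List Str) (f : Str → ℕ) (A C : ℕ)
    (h : ∀ α ∈ l, f α * C ≤ A) : (l.map f).sum * C ≤ A * l.length := by
  induction l with
  | nil => simp
  | cons a l ih =>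
    have h1 := h a (by simp)
    have h2 := ih (fun α hα => h α (by simp [hα]))
    rw [List.map_cons, List.sum_cons, List.length_cons, add_mul]
    nlinarith

/-- the number of extensions of `ρ` in `B` -/
theorem bad_le (r : ℕ) (ρ : Str) (B : List Str) :
    (strs r).countP (fun α => decide (ρ ++ α ∈ B)) ≤ cnt B ρ := by
  rw [List.countP_eq_length_filter]
  unfold cnt
  rw [← List.length_map (f := fun α => ρ ++ α)]
  have hnd : (((strs r).filter (fun α => decide (ρ ++ α ∈ B))).map (fun α => ρ ++ α)).Nodup :=
    ((nodup_strs r).filter _).map (fun a b h => List.append_cancel_left h)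
  refine (hnd.subperm ?_).length_le
  intro x hx
  rw [List.mem_map] at hx
  obtain ⟨α, hα, rfl⟩ := hx
  rw [List.mem_filter] at hα ⊢
  refine ⟨of_decide_eq_true hα.2, ?_⟩
  rw [pre_iff]
  exact List.prefix_append _ _

theorem main (hCL : S_CL) (hDW : S_DW) (β : (ℕ × Str) × ℕ → Bool) (hβ : Hyp β) (d b m : ℕ)
    (τ : Node) (hτ : inT β d τ) (hl : τ.length = m + 1) :
    ∀ (j k : ℕ) (ρ : Str) (bd gd : ℕ), ρ.length + k = m →
      (strs k).countP (fun γ =>
        ((step β d b τ (ρ ++ γ))^[j] (ρ.length, bd, gd, false)).2.2.2) * 2 ^ (b + gd) ≤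
      2 ^ k * 2 ^ (3 * bd) := by
  intro j
  induction j with
  | zero =>
    intro k ρ bd gd _
    have h0 : (strs k).countP (fun γ =>
        ((step β d b τ (ρ ++ γ))^[0] (ρ.length, bd, gd, false)).2.2.2) = 0 := by
      rw [List.countP_eq_zero]
      intro γ _
      simp
    rw [h0, zero_mul]
    exact Nat.zero_le _
  | succ j ih =>
    intro k ρ bd gd hk
    obtain ⟨v, hv⟩ : ∃ v, v = dat β d (τ.take (ρ.length + 1)) := ⟨_, rfl⟩
    have hlen : (τ.take (ρ.length + 1)).length = ρ.length + 1 := by
      rw [List.length_take, hl]; omega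
    have hne : τ.take (ρ.length + 1) ≠ [] := by
      intro h
      rw [h] at hlen
      simp at hlen
    have hW : W β d (τ.take (ρ.length + 1)) v := by
      rw [hv]
      exact hDW β hβ d _ (hCL β hβ d τ _ hτ hne (List.take_prefix _ _))
    have hn : ρ.length ≤ v.1 := by
      have := hW.1
      rw [hlen] at this
      omega
    by_cases hc : v.1 + 1 ≤ m ∧ 16 * cnt v.2 ρ ≤ 2 ^ (v.1 - ρ.length)
    · obtain ⟨k', hk'⟩ : ∃ k', k' = m - (v.1 + 1) := ⟨_, rfl⟩
      obtain ⟨r, hr⟩ : ∃ r, r = v.1 - ρ.length := ⟨_, rfl⟩
      have hkk : k = r + (1 + k') := by omega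
      have hvr : v.1 = ρ.length + r := by omega
      obtain ⟨p, hp⟩ : ∃ p : Str → Bool, p = (fun γ =>
        ((step β d b τ (ρ ++ γ))^[j + 1] (ρ.length, bd, gd, false)).2.2.2) := ⟨_, rfl⟩
      -- the new state
      have hstep : ∀ α ∈ strs r, ∀ x ∈ strs 1, ∀ γ ∈ strs k',
          step β d b τ ((ρ ++ (α ++ x)) ++ γ) (ρ.length, bd, gd, false) =
          if ρ ++ α ∈ v.2 then (v.1 + 1, bd + 1, gd, decide (gd + b ≤ 3 * (bd + 1)))
          else (v.1 + 1, bd, gd + 1, false) := by
        intro α hα x hx γ hγ
        rw [mem_strs] at hα hx hγ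
        have e1 : ((ρ ++ (α ++ x)) ++ γ).take ρ.length = ρ := by
          rw [List.append_assoc, List.take_left]
        have e2 : ((ρ ++ (α ++ x)) ++ γ).take v.1 = ρ ++ α := by
          have : (ρ ++ (α ++ x)) ++ γ = (ρ ++ α) ++ (x ++ γ) := by simp
          rw [this]
          have h3 : v.1 = (ρ ++ α).length := by rw [List.length_append, hα, hvr]
          rw [h3, List.take_left]
        have e3 : v.1 + 1 ≤ ((ρ ++ (α ++ x)) ++ γ).length := by
          simp only [List.length_append, hα, hx, hγ]
          omega
        unfold step stepc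
        simp only
        rw [← hv, e1, e2, if_pos ⟨e3, hc.2⟩]
        simp
      -- the count for each choice of the next bits
      have hg : ∀ α ∈ strs r, ∀ x ∈ strs 1,
          (strs k').countP (fun γ => p (α ++ (x ++ γ))) * 2 ^ (b + gd + 1) ≤
          2 ^ k' * 2 ^ (3 * bd) * (if (decide (ρ ++ α ∈ v.2)) = true then 16 else 1) := by
        intro α hα x hx
        have hα' := mem_strs.1 hα
        have hx' := mem_strs.1 hx
        have hρ' : (ρ ++ (α ++ x)).length = v.1 + 1 := by
          simp only [List.length_append, hα', hx']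
          omega
        have hkm : (ρ ++ (α ++ x)).length + k' = m := by rw [hρ']; omega
        by_cases hB : ρ ++ α ∈ v.2
        · rw [if_pos (decide_eq_true hB)]
          by_cases hf : gd + b ≤ 3 * (bd + 1)
          · have h1 : (strs k').countP (fun γ => p (α ++ (x ++ γ))) ≤ 2 ^ k' := by
              rw [← length_strs k']
              exact List.countP_le_length
            have h2 : 2 ^ (b + gd + 1) ≤ 2 ^ (3 * bd) * 16 := by
              have : 2 ^ (3 * bd) * 16 = 2 ^ (3 * bd + 4) := by rw [pow_add]; norm_num
              rw [this]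
              exact Nat.pow_le_pow_right (by norm_num) (by omega)
            calc (strs k').countP (fun γ => p (α ++ (x ++ γ))) * 2 ^ (b + gd + 1)
                ≤ 2 ^ k' * (2 ^ (3 * bd) * 16) := Nat.mul_le_mul h1 h2
              _ = 2 ^ k' * 2 ^ (3 * bd) * 16 := by ring
          · have h1 : (strs k').countP (fun γ => p (α ++ (x ++ γ))) =
                (strs k').countP (fun γ => ((step β d b τ ((ρ ++ (α ++ x)) ++ γ))^[j]
                  ((ρ ++ (α ++ x)).length, bd + 1, gd, false)).2.2.2) := by
              refine List.countP_congr ?_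
              intro γ hγ
              have h3 : ρ ++ (α ++ (x ++ γ)) = (ρ ++ (α ++ x)) ++ γ := by simp
              rw [hp]
              simp only
              rw [h3, Function.iterate_succ_apply, hstep α hα x hx γ hγ, if_pos hB, hρ',
                decide_eq_false hf]
            have h2 := ih k' (ρ ++ (α ++ x)) (bd + 1) gd hkm
            rw [h1]
            calc _ = (strs k').countP (fun γ => ((step β d b τ ((ρ ++ (α ++ x)) ++ γ))^[j]
                  ((ρ ++ (α ++ x)).length, bd + 1, gd, false)).2.2.2) * 2 ^ (b + gd) * 2 := by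
                  rw [pow_succ]; ring
              _ ≤ 2 ^ k' * 2 ^ (3 * (bd + 1)) * 2 := Nat.mul_le_mul_right 2 h2
              _ = 2 ^ k' * 2 ^ (3 * bd) * 16 := by
                  have : 2 ^ (3 * (bd + 1)) = 2 ^ (3 * bd) * 8 := by
                    rw [mul_add, pow_add]; norm_num
                  rw [this]; ring
        · have hB' : ¬ (decide (ρ ++ α ∈ v.2) = true) := by simpa using hB
          rw [if_neg hB', mul_one]
          have h1 : (strs k').countP (fun γ => p (α ++ (x ++ γ))) =
              (strs k').countP (fun γ => ((step β d b τ ((ρ ++ (α ++ x)) ++ γ))^[j]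
                ((ρ ++ (α ++ x)).length, bd, gd + 1, false)).2.2.2) := by
            refine List.countP_congr ?_
            intro γ hγ
            have h3 : ρ ++ (α ++ (x ++ γ)) = (ρ ++ (α ++ x)) ++ γ := by simp
            rw [hp]
            simp only
            rw [h3, Function.iterate_succ_apply, hstep α hα x hx γ hγ, if_neg hB, hρ']
          have h2 := ih k' (ρ ++ (α ++ x)) bd (gd + 1) hkm
          rw [h1]
          exact h2
      -- the sum
      have hf : ∀ α ∈ strs r, (strs (1 + k')).countP (fun γ => p (α ++ γ)) * 2 ^ (b + gd + 1) ≤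
          2 * (2 ^ k' * 2 ^ (3 * bd)) * (if (decide (ρ ++ α ∈ v.2)) = true then 16 else 1) := by
        intro α hα
        rw [countP_split 1 k' (fun γ => p (α ++ γ))]
        have h1 := sum_bound' (strs 1) (fun x => (strs k').countP (fun γ => p (α ++ (x ++ γ))))
          (2 ^ k' * 2 ^ (3 * bd) * (if (decide (ρ ++ α ∈ v.2)) = true then 16 else 1))
          (2 ^ (b + gd + 1)) (fun x hx => hg α hα x hx)
        rw [length_strs] at h1
        calc _ ≤ _ := h1
          _ = _ := by ring
      have hs := sum_bound (strs r) (fun α => (strs (1 + k')).countP (fun γ => p (α ++ γ)))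
        (2 * (2 ^ k' * 2 ^ (3 * bd))) (2 ^ (b + gd + 1)) (fun α => decide (ρ ++ α ∈ v.2)) hf
      rw [← countP_split r (1 + k') p, length_strs] at hs
      have hbad := bad_le r ρ v.2
      have hc2 := hc.2
      rw [← hr] at hc2
      have h5 : 16 * (strs r).countP (fun α => decide (ρ ++ α ∈ v.2)) + 2 ^ r ≤ 2 * 2 ^ r := by
        omega
      rw [hkk, ← hp]
      have h6 : (strs (r + (1 + k'))).countP p * 2 ^ (b + gd + 1) ≤
          2 * (2 ^ k' * 2 ^ (3 * bd)) * (2 * 2 ^ r) :=
        le_trans hs (Nat.mul_le_mul_left _ h5)
      have h7 : (strs (r + (1 + k'))).countP p * 2 ^ (b + gd) * 2 ≤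
          2 ^ (r + (1 + k')) * 2 ^ (3 * bd) * 2 := by
        calc _ = (strs (r + (1 + k'))).countP p * 2 ^ (b + gd + 1) := by rw [pow_succ]; ring
          _ ≤ 2 * (2 ^ k' * 2 ^ (3 * bd)) * (2 * 2 ^ r) := h6
          _ = _ := by rw [pow_add 2 r, pow_add 2 1]; ring
      omega
    · -- the state never changes
      have h0 : (strs k).countP (fun γ =>
          ((step β d b τ (ρ ++ γ))^[j + 1] (ρ.length, bd, gd, false)).2.2.2) = 0 := by
        rw [List.countP_eq_zero]
        intro γ hγ
        have hγ' := mem_strs.1 hγ
        have hfix : step β d b τ (ρ ++ γ) (ρ.length, bd, gd, false) =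
            (ρ.length, bd, gd, false) := by
          unfold step stepc
          simp only
          rw [← hv, List.take_left, if_neg]
          intro h
          apply hc
          refine ⟨?_, h.2⟩
          have := h.1
          rw [List.length_append, hγ'] at this
          omega
        have := Function.iterate_fixed hfix (j + 1)
        rw [this]
        simp
      rw [h0, zero_mul]
      exact Nat.zero_le _

end XSM

theorem t_SM (hCL : S_CL) (hDW : S_DW) : S_SM := by
  intro β hβ d b m τ hτ hl
  rw [← List.countP_eq_length_filter]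
  by_cases hm : 5 ≤ m
  · obtain ⟨k, rfl⟩ : ∃ k, m = 5 + k := ⟨m - 5, by omega⟩
    rw [XSM.countP_split 5 k]
    have h := XSM.sum_bound' (strs 5)
      (fun ρ => (strs k).countP (fun γ => (run β d b τ (ρ ++ γ)).2.2.2)) (2 ^ k) (2 ^ b) ?_
    · rw [length_strs] at h
      calc _ ≤ _ := h
        _ = _ := by rw [pow_add]; ring
    · intro ρ hρ
      have hρ' := mem_strs.1 hρ
      have h1 := XSM.main hCL hDW β hβ d b (5 + k) τ hτ hl (5 + k) k ρ 0 0 (by rw [hρ'])
      rw [mul_zero, pow_zero, mul_one, add_zero] at h1
      have h2 : (strs k).countP (fun γ => (run β d b τ (ρ ++ γ)).2.2.2) =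
          (strs k).countP (fun γ =>
            ((step β d b τ (ρ ++ γ))^[5 + k] (ρ.length, 0, 0, false)).2.2.2) := by
        refine List.countP_congr ?_
        intro γ hγ
        have hγ' := mem_strs.1 hγ
        unfold run
        rw [List.length_append, hρ', hγ']
      rw [h2]
      exact h1
  · have h0 : (strs m).countP (fun ξ => (run β d b τ ξ).2.2.2) = 0 := by
      rw [List.countP_eq_zero]
      intro ξ hξ
      have hξ' := mem_strs.1 hξ
      have hW := hDW β hβ d τ hτ
      have htake : τ.take 6 = τ := List.take_of_length_le (by omega)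
      have hfix : step β d b τ ξ (5, 0, 0, false) = (5, 0, 0, false) := by
        unfold step stepc
        simp only
        rw [show (5 + 1 : ℕ) = 6 from rfl, htake, if_neg]
        intro h
        have h1 := h.1
        have h2 := hW.1
        omega
      unfold run
      rw [Function.iterate_fixed hfix]
      simp
    rw [h0, zero_mul]
    exact Nat.zero_le _

end Pool.Agent.H662.TR
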