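import Pool.Agent.H662.TR.Stm

/-! Leaf UB: union bound (helper75, for helper662). -/

set_option autoImplicit false

namespace Pool.Agent.H662.TR

namespace XUB

theorem filter_union {α : Type} (p q r : α → Bool) (h : ∀ x, p x = true → q x = true ∨ r x = true)
    (l : List α) : (l.filter p).length ≤ (l.filter q).length + (l.filter r).length := by
  induction l with
  | nil => simp
  | cons a l ih =>
    rw [List.filter_cons, List.filter_cons, List.filter_cons]
    by_cases hp : p a = true
    · rcases h a hp with hq | hr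
      · rw [if_pos hp, if_pos hq]
        split_ifs <;> (try simp only [List.length_cons]) <;> omega
      · rw [if_pos hp, if_pos hr]
        split_ifs <;> (try simp only [List.length_cons]) <;> omega
    · rw [if_neg hp]
      split_ifs <;> (try simp only [List.length_cons]) <;> omega

end XUB

theorem t_UB (hDW : S_DW) (hDB : S_DB) (hSM : S_SM) : S_UB := by
  intro β hβ b m τ hin hlen
  obtain ⟨w1, w2, w3, w4⟩ := hDW β hβ (b + 5) τ hin
  obtain ⟨v, hv⟩ : ∃ v, v = dat β (b + 5) τ := ⟨_, rfl⟩
  rw [← hv] at w1 w2 w3 w4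
  have hm : m ≤ v.1 := by omega
  rw [hlen, Nat.add_sub_cancel] at w4
  have hB : v.2.length * 2 ^ (b + 5) ≤ 2 ^ v.1 := by
    have h := w3 0
    unfold adm at h
    rw [Bool.and_eq_true, decide_eq_true_eq] at h
    exact h.2
  have h1 := hDB v.1 m (b + 5) v.2 hm w2 hB
  rw [w4] at h1
  have h2 := hSM β hβ (b + 5) b m τ hin hlen
  have h3 := XUB.filter_union (fun ξ => @decide (US β b τ ξ) (Classical.propDecidable _))
    (fun ξ => F1 τ ξ) (fun ξ => (run β (b + 5) b τ ξ).2.2.2)
    (fun ξ h => @of_decide_eq_true (US β b τ ξ) (Classical.propDecidable _) h) (strs m)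
  have h4 : ((strs m).filter (fun ξ => F1 τ ξ)).length * 2 ^ b ≤ 2 ^ m := by
    have h5 : ((strs m).filter (fun ξ => F1 τ ξ)).length * 2 ^ (b + 5) =
        32 * (((strs m).filter (fun ξ => F1 τ ξ)).length * 2 ^ b) := by
      rw [pow_add]
      ring
    rw [h5] at h1
    omega
  calc _ ≤ (((strs m).filter (fun ξ => F1 τ ξ)).length +
        ((strs m).filter (fun ξ => (run β (b + 5) b τ ξ).2.2.2)).length) * 2 ^ b :=
        Nat.mul_le_mul_right _ h3
    _ ≤ 2 * 2 ^ m := by
        rw [Nat.add_mul]
        omega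

end Pool.Agent.H662.TR
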