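import Pool.Agent.H662.TR.Stm

set_option autoImplicit false

namespace Pool.Agent.H662.TR

namespace XWE

/-- the stages stabilize -/
theorem stab {β : (ℕ × Str) × ℕ → Bool} (hβ : Hyp β) (d : ℕ) (l : List Str) (s₀ : ℕ) :
    ∃ s, s₀ ≤ s ∧ ∀ σ ∈ l, ∀ s', s ≤ s' → β ((d, σ), s') = β ((d, σ), s) := by
  induction l with
  | nil => exact ⟨s₀, le_rfl, fun σ hσ => absurd hσ List.not_mem_nil⟩
  | cons a l ih =>
    obtain ⟨s, hs, h⟩ := ih
    by_cases ha : ∃ t, β ((d, a), t) = true
    · obtain ⟨t, ht⟩ := ha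
      refine ⟨max s t, hs.trans (le_max_left _ _), fun σ hσ s' hs' => ?_⟩
      rcases List.mem_cons.1 hσ with rfl | hσ
      · rw [hβ.mono d σ t s' ((le_max_right _ _).trans hs') ht,
          hβ.mono d σ t (max s t) (le_max_right _ _) ht]
      · rw [h σ hσ s' ((le_max_left _ _).trans hs'), h σ hσ (max s t) (le_max_left _ _)]
    · push Not at ha
      refine ⟨s, hs, fun σ hσ s' hs' => ?_⟩
      rcases List.mem_cons.1 hσ with rfl | hσ
      · rw [Bool.eq_false_iff.2 (ha s'), Bool.eq_false_iff.2 (ha s)]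
      · exact h σ hσ s' hs'

end XWE

theorem t_WE (hGG : S_GG) : S_WE := by
  intro β hβ d τ hτ
  obtain ⟨e, he⟩ : ∃ e, e = Encodable.encode τ := ⟨_, rfl⟩
  have hdec : Encodable.decode (α := Node) e = some τ := by
    rw [he]
    exact Encodable.encodek τ
  unfold inT at hτ
  rw [← he] at hτ
  have hng : ¬ Good β d (τ :: Gr β d e) := by
    intro hg
    apply hτ
    unfold Gr
    rw [hdec, Option.elim_some, if_pos hg]
    exact List.mem_cons_self
  unfold Good at hng
  push Not at hng
  obtain ⟨n, s₀, hns⟩ := hng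
  obtain ⟨s, hs, hst⟩ := XWE.stab hβ d (strs n) s₀
  have hok : okay β d (Gr β d e) n s = true := hGG β hβ d e n s
  unfold okay at hok
  rw [List.any_eq_true] at hok
  obtain ⟨B, hB, hB2⟩ := hok
  rw [Bool.and_eq_true] at hB2
  obtain ⟨hadm, hav⟩ := hB2
  unfold adm at hadm
  rw [Bool.and_eq_true, List.all_eq_true] at hadm
  obtain ⟨hbad, hcard⟩ := hadm
  -- admissible for all stages
  have hall : ∀ s', adm β d n s' B = true := by
    intro s'
    unfold adm
    rw [Bool.and_eq_true, List.all_eq_true]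
    refine ⟨fun σ hσ => ?_, hcard⟩
    unfold bad at hσ
    rw [List.mem_filter] at hσ
    refine hbad σ ?_
    unfold bad
    rw [List.mem_filter]
    refine ⟨hσ.1, ?_⟩
    have h1 : β ((d, σ), max s s') = true := hβ.mono d σ s' _ (le_max_right _ _) hσ.2
    rw [hst σ hσ.1 (max s s') (le_max_left _ _)] at h1
    exact h1
  have hnav : ¬ (avoid (τ :: Gr β d e) n B = true) := by
    intro h
    apply hns
    unfold okay
    rw [List.any_eq_true]
    refine ⟨B, hB, ?_⟩
    rw [Bool.and_eq_true]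
    exact ⟨hall s₀, h⟩
  have hpass : τ.length ≤ n + 1 ∧ cc n B (τ.length - 1) = τ := by
    by_contra hcon
    apply hnav
    unfold avoid
    unfold avoid at hav
    rw [List.all_cons, hav, Bool.and_true, Bool.not_eq_true', Bool.and_eq_false_iff]
    by_cases h1 : τ.length ≤ n + 1
    · right
      exact decide_eq_false fun h2 => hcon ⟨h1, h2⟩
    · left
      exact decide_eq_false h1
  exact ⟨(n, B), hpass.1, hB, hall, hpass.2⟩

end Pool.Agent.H662.TR
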