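import Pool.Agent.H662.TR.Stm

set_option autoImplicit false

namespace Pool.Agent.H662.TR.XWT

open Finset

lemma sum_toFinset_le (w : Str → ℝ) (hw : ∀ σ, 0 ≤ w σ) (l : List Str) :
    ∑ σ ∈ l.toFinset, w σ ≤ (l.map w).sum := by
  induction l with
  | nil => simp
  | cons a l ih =>
    rw [List.toFinset_cons, List.map_cons, List.sum_cons]
    by_cases h : a ∈ l.toFinset
    · rw [Finset.insert_eq_of_mem h]
      linarith [hw a]
    · rw [Finset.sum_insert h]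
      linarith

lemma sum_Ico_le (a N : ℕ) : ∑ b ∈ Ico a N, ((1:ℝ)/2) ^ b ≤ 2 * ((1:ℝ)/2) ^ a := by
  rw [Finset.sum_Ico_eq_sum_range]
  have h : ∀ i ∈ range (N - a), ((1:ℝ)/2) ^ (a + i) = ((1:ℝ)/2) ^ a * ((1:ℝ)/2) ^ i :=
    fun i _ => pow_add _ _ _
  rw [Finset.sum_congr rfl h, ← Finset.mul_sum]
  have h2 := sum_geometric_two_le (N - a)
  have h3 : (0:ℝ) ≤ ((1:ℝ)/2) ^ a := by positivity
  nlinarith

end Pool.Agent.H662.TR.XWT

namespace Pool.Agent.H662.TR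

open Finset XWT

theorem t_WT : S_WT := by
  intro A hmono hw k S hS
  classical
  choose! b m hb hm using hS
  set M := S.sup m with hM
  set N := S.sup b + 1 with hN
  have hmaps : ∀ σ ∈ S, b σ ∈ Ico (k + 4) N := by
    intro σ hσ
    rw [Finset.mem_Ico]
    exact ⟨hb σ hσ, Nat.lt_succ_of_le (Finset.le_sup (f := b) hσ)⟩
  rw [← Finset.sum_fiberwise_of_maps_to hmaps]
  have h1 : ∀ c ∈ Ico (k + 4) N, ∑ σ ∈ S with b σ = c, ((1:ℝ)/2) ^ σ.length ≤ 4 * ((1:ℝ)/2) ^ c := by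
    intro c _
    have hsub : (S.filter (fun σ => b σ = c)) ⊆ (A (c, M)).toFinset := by
      intro σ hσ
      rw [Finset.mem_filter] at hσ
      rw [List.mem_toFinset]
      have h2 := hm σ hσ.1
      rw [hσ.2] at h2
      exact hmono c (m σ) M (Finset.le_sup (f := m) hσ.1) σ h2
    calc ∑ σ ∈ S with b σ = c, ((1:ℝ)/2) ^ σ.length
        ≤ ∑ σ ∈ (A (c, M)).toFinset, ((1:ℝ)/2) ^ σ.length :=
          Finset.sum_le_sum_of_subset_of_nonneg hsub (fun _ _ _ => by positivity)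
      _ ≤ ((A (c, M)).map (fun σ => ((1:ℝ)/2) ^ σ.length)).sum :=
          sum_toFinset_le (fun σ => ((1:ℝ)/2) ^ σ.length) (fun _ => by positivity) _
      _ ≤ 4 * ((1:ℝ)/2) ^ c := hw c M
  refine (Finset.sum_le_sum h1).trans ?_
  rw [← Finset.mul_sum]
  have h2 := sum_Ico_le (k + 4) N
  have h3 : ((1:ℝ)/2) ^ (k + 4) = ((1:ℝ)/2) ^ k * (1 / 16) := by
    rw [pow_add]; norm_num
  have h4 : (0:ℝ) ≤ ((1:ℝ)/2) ^ k := by positivity
  rw [h3] at h2
  linarith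

end Pool.Agent.H662.TR
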