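import Pool.Agent.H662.TR.Fin
import Pool.Agent.H662.TR.AI
import Pool.Agent.H662.TR.ALL
import Pool.Agent.H662.TR.BAS
import Pool.Agent.H662.TR.BU
import Pool.Agent.H662.TR.CL
import Pool.Agent.H662.TR.CN
import Pool.Agent.H662.TR.CO
import Pool.Agent.H662.TR.DB
import Pool.Agent.H662.TR.DW
import Pool.Agent.H662.TR.FI
import Pool.Agent.H662.TR.FOLD
import Pool.Agent.H662.TR.GG
import Pool.Agent.H662.TR.ITE
import Pool.Agent.H662.TR.ITR
import Pool.Agent.H662.TR.KL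
import Pool.Agent.H662.TR.KO
import Pool.Agent.H662.TR.LA
import Pool.Agent.H662.TR.LD
import Pool.Agent.H662.TR.LG
import Pool.Agent.H662.TR.LT
import Pool.Agent.H662.TR.LU
import Pool.Agent.H662.TR.MB
import Pool.Agent.H662.TR.MIN
import Pool.Agent.H662.TR.MO
import Pool.Agent.H662.TR.NE
import Pool.Agent.H662.TR.PA
import Pool.Agent.H662.TR.PI
import Pool.Agent.H662.TR.PR1
import Pool.Agent.H662.TR.PR2
import Pool.Agent.H662.TR.PR3
import Pool.Agent.H662.TR.PR4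
import Pool.Agent.H662.TR.PR5
import Pool.Agent.H662.TR.PW
import Pool.Agent.H662.TR.REC
import Pool.Agent.H662.TR.SG
import Pool.Agent.H662.TR.SM
import Pool.Agent.H662.TR.UB
import Pool.Agent.H662.TR.WE
import Pool.Agent.H662.TR.WT

/-! # Assembly of the proof of S14403 -/

set_option autoImplicit false

namespace Pool.Agent.H662.TR

theorem all_FI : S_FI := by
  have hGG := t_GG
  have hWE := t_WE hGG
  have hDW := t_DW hWE
  have hCL := t_CL hGG
  have hCN := t_CN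
  have hNE := t_NE hGG hCN
  have hDB := t_DB
  have hSM := t_SM hCL hDW
  have hUB := t_UB hDW hDB hSM
  have hMO := t_MO hCL hDW
  have hPA := t_PA hDW
  have hKO := t_KO hCL hMO hPA t_KL
  have hMB := t_MB hNE hCL hUB hMO t_AI t_PW
  have hPR2 := t_PR2 t_PR1
  have hPR3 := t_PR3 t_PR1 hPR2
  have hPR4 := t_PR4 t_PR1
  have hPR5 := t_PR5 t_PR1
  have hLG := t_LG hPR3 t_PI
  have hLT := t_LT hLG t_BAS t_ITE t_REC t_ALL
  have hLD := t_LD hLT t_PR1 hPR2 hPR3 t_BAS t_MIN t_PI hWE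
  have hLU := t_LU hLD hPR4 hPR5 t_BAS t_ITR
  have hLA := t_LA hLU hLT t_PR1 hPR4 t_BAS t_ITE t_ALL t_FOLD t_REC
  exact t_FI hKO t_CO hMB t_AI hLA t_SG t_WT t_BAS

theorem main : ∀ U : List Bool →. List Bool, Partrec U → ∀ X Y : ℕ → Bool, Esc X → Esc Y →
    ∃ d : ℕ, ∃ᶠ n in Filter.atTop,
      (∀ q : List Bool, List.ofFn (fun i : Fin n => X i) ∈ U q → n ≤ q.length + d) ∧
      (∀ q : List Bool, List.ofFn (fun i : Fin n => Y i) ∈ U q → n ≤ q.length + d) :=
  fin_result all_FI t_BU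

end Pool.Agent.H662.TR
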