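import Pool.Agent.H662.TR.Stm

/-! # The final step of S14403 from `S_FI` and `S_BU` -/

set_option autoImplicit false

namespace Pool.Agent.H662.TR

theorem xs_eq_ofFn (X : ℕ → Bool) (n : ℕ) : xs X n = List.ofFn (fun i : Fin n => X i) := by
  apply List.ext_getElem
  · simp [xs]
  · intro i h1 h2
    simp [xs]

theorem fin_result (hFI : S_FI) (hBU : S_BU) :
    ∀ U : List Bool →. List Bool, Partrec U → ∀ X Y : ℕ → Bool, Esc X → Esc Y →
      ∃ d : ℕ, ∃ᶠ n in Filter.atTop,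
        (∀ q : List Bool, List.ofFn (fun i : Fin n => X i) ∈ U q → n ≤ q.length + d) ∧
        (∀ q : List Bool, List.ofFn (fun i : Fin n => Y i) ∈ U q → n ≤ q.length + d) := by
  intro U hU X Y hX hY
  obtain ⟨β, hβ, hH, hB⟩ := hBU U hU
  obtain ⟨b, hb⟩ := hFI β hβ hH X Y hX hY
  refine ⟨b + 5, hb.mono ?_⟩
  rintro n ⟨h1, h2⟩
  have key : ∀ Z : ℕ → Bool, ¬ Bd β (b + 5) (xs Z n) →
      ∀ q : List Bool, List.ofFn (fun i : Fin n => Z i) ∈ U q → n ≤ q.length + (b + 5) := by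
    intro Z hZ q hq
    by_contra hlt
    apply hZ
    rw [hB]
    refine ⟨q, ?_, ?_⟩
    · rw [xs_eq_ofFn]; exact hq
    · rw [length_xs]; omega
  exact ⟨key X h1, key Y h2⟩

end Pool.Agent.H662.TR
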