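import Pool.Agent.H662.TR.Stm

/-!
# Koenig lemma for nodes
-/

set_option autoImplicit false

namespace Pool.Agent.H662.TR

namespace XKL

theorem length_nodes {m : ℕ} {τ : Node} (h : τ ∈ nodes m) : τ.length = m + 1 := by
  induction m generalizing τ with
  | zero =>
    simp only [nodes, List.mem_map] at h
    obtain ⟨r, _, rfl⟩ := h
    rfl
  | succ m ih =>
    simp only [nodes, List.mem_flatMap, List.mem_map] at h
    obtain ⟨σ, hσ, r, _, rfl⟩ := h
    simp [ih hσ]

theorem take_nodes {i k : ℕ} {τ : Node} (h : τ ∈ nodes k) (hik : i ≤ k) :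
    τ.take (i + 1) ∈ nodes i := by
  induction k generalizing τ with
  | zero =>
    obtain rfl : i = 0 := by omega
    rw [List.take_of_length_le (by rw [length_nodes h])]
    exact h
  | succ k ih =>
    rcases Nat.lt_or_ge k i with hlt | hge
    · obtain rfl : i = k + 1 := by omega
      rw [List.take_of_length_le (by rw [length_nodes h])]
      exact h
    · simp only [nodes, List.mem_flatMap, List.mem_map] at h
      obtain ⟨σ, hσ, r, _, rfl⟩ := h
      have hl := length_nodes hσ
      rw [List.take_append_of_le_length (by omega)]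
      exact ih hσ hge

/-- pigeonhole -/
theorem pigeon {α : Type} (l : List α) (p : ℕ → α → Prop)
    (hp : ∀ k k' a, k ≤ k' → p k' a → p k a) (h : ∀ k, ∃ a ∈ l, p k a) :
    ∃ a ∈ l, ∀ k, p k a := by
  classical
  by_contra hc
  push Not at hc
  have h1 : ∃ K, ∀ a ∈ l, ¬ p K a := by
    clear h
    induction l with
    | nil => exact ⟨0, fun a ha => by simp at ha⟩
    | cons b l ih =>
      obtain ⟨K, hK⟩ := ih (fun a ha => hc a (List.mem_cons_of_mem _ ha))
      obtain ⟨k, hk⟩ := hc b List.mem_cons_self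
      refine ⟨max K k, fun a ha hpa => ?_⟩
      rcases List.mem_cons.1 ha with rfl | ha
      · exact hk (hp _ _ _ (le_max_right _ _) hpa)
      · exact hK a ha (hp _ _ _ (le_max_left _ _) hpa)
  obtain ⟨K, hK⟩ := h1
  obtain ⟨a, ha, hpa⟩ := h K
  exact hK a ha hpa

/-- nodes with extensions of all lengths -/
def E (D : Node → Prop) (i : ℕ) (τ : Node) : Prop :=
  τ ∈ nodes i ∧ ∀ k, ∃ τ' ∈ nodes (i + k), D τ' ∧ τ'.take (i + 1) = τ

theorem E_D {D : Node → Prop} {i : ℕ} {τ : Node} (h : E D i τ) : D τ := by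
  obtain ⟨τ', h1, h2, h3⟩ := h.2 0
  have hl := length_nodes h1
  rw [List.take_of_length_le (by omega)] at h3
  rw [← h3]
  exact h2

theorem E_find {D : Node → Prop} (hD : ∀ τ τ' : Node, D τ → τ' ≠ [] → τ' <+: τ → D τ') (i : ℕ)
    (q : Node → Prop)
    (h : ∀ k, ∃ τ' ∈ nodes (i + k), D τ' ∧ q (τ'.take (i + 1))) : ∃ τ, E D i τ ∧ q τ := by
  obtain ⟨a, ha, hp⟩ := pigeon (nodes i)
    (fun k ρ => (∃ τ' ∈ nodes (i + k), D τ' ∧ τ'.take (i + 1) = ρ) ∧ q ρ) (by
      rintro k k' a hk ⟨⟨τ', h1, h2, h3⟩, hq⟩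
      refine ⟨⟨τ'.take (i + k + 1), take_nodes h1 (by omega), ?_, ?_⟩, hq⟩
      · apply hD _ _ h2
        · have hl := length_nodes h1
          intro h0
          have := congrArg List.length h0
          rw [List.length_take, hl] at this
          simp at this
        · exact List.take_prefix _ _
      · rw [List.take_take, Nat.min_eq_left (by omega)]
        exact h3) (by
      intro k
      obtain ⟨τ', h1, h2, h3⟩ := h k
      exact ⟨τ'.take (i + 1), take_nodes h1 (by omega), ⟨τ', h1, h2, rfl⟩, h3⟩)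
  exact ⟨a, ⟨ha, fun k => (hp k).1⟩, (hp 0).2⟩

theorem E_step {D : Node → Prop} (hD : ∀ τ τ' : Node, D τ → τ' ≠ [] → τ' <+: τ → D τ') {i : ℕ}
    {τ : Node} (h : E D i τ) : ∃ τ₁, E D (i + 1) τ₁ ∧ τ₁.take (i + 1) = τ := by
  refine E_find hD (i + 1) (fun ρ => ρ.take (i + 1) = τ) (fun k => ?_)
  obtain ⟨τ', h1, h2, h3⟩ := h.2 (1 + k)
  refine ⟨τ', by rwa [Nat.add_assoc], h2, ?_⟩
  rw [List.take_take, Nat.min_eq_left (by omega)]
  exact h3

/-- the path -/
noncomputable def path {D : Node → Prop}
    (hD : ∀ τ τ' : Node, D τ → τ' ≠ [] → τ' <+: τ → D τ') (h0 : ∃ τ, E D 0 τ) :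
    (i : ℕ) → {τ : Node // E D i τ}
  | 0 => ⟨h0.choose, h0.choose_spec⟩
  | i + 1 => ⟨(E_step hD (path hD h0 i).2).choose, (E_step hD (path hD h0 i).2).choose_spec.1⟩

theorem path_take {D : Node → Prop}
    (hD : ∀ τ τ' : Node, D τ → τ' ≠ [] → τ' <+: τ → D τ') (h0 : ∃ τ, E D 0 τ) (i : ℕ) :
    (path hD h0 (i + 1)).1.take (i + 1) = (path hD h0 i).1 :=
  (E_step hD (path hD h0 i).2).choose_spec.2

end XKL

open XKL in
theorem t_KL : S_KL := by
  intro D hD hN
  have h0 : ∃ τ, E D 0 τ := by
    obtain ⟨τ, h1, -⟩ := E_find hD 0 (fun _ => True) (fun k => by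
      obtain ⟨τ, h1, h2⟩ := hN k
      have hl := length_nodes h1
      refine ⟨τ.take (k + 1), ?_, ?_, trivial⟩
      · rw [Nat.zero_add]
        exact take_nodes h1 (by omega)
      · apply hD _ _ h2
        · intro h0
          have := congrArg List.length h0
          rw [List.length_take, hl] at this
          simp at this
        · exact List.take_prefix _ _)
    exact ⟨τ, h1⟩
  have key : ∀ m, seg (fun i => (path hD h0 i).1.getD i []) m = (path hD h0 m).1 := by
    intro m
    induction m with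
    | zero =>
      have hl := length_nodes (path hD h0 0).2.1
      match hp : (path hD h0 0).1, hl with
      | [a], _ => simp [seg, hp]
    | succ m ih =>
      have hl := length_nodes (path hD h0 (m + 1)).2.1
      have e1 : seg (fun i => (path hD h0 i).1.getD i []) (m + 1) =
          seg (fun i => (path hD h0 i).1.getD i []) m ++ [(path hD h0 (m + 1)).1.getD (m + 1) []] := by
        simp [seg, List.range_succ]
      rw [e1, ih, ← path_take hD h0 m]
      have e2 : (path hD h0 (m + 1)).1.drop (m + 1) = [(path hD h0 (m + 1)).1.getD (m + 1) []] := by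
        rw [List.drop_eq_getElem_cons (by omega), List.drop_of_length_le (by omega),
          List.getD_eq_getElem _ _ (by omega)]
      rw [← e2, List.take_append_drop]
  exact ⟨_, fun m => by rw [key m]; exact E_D (path hD h0 m).2⟩

end Pool.Agent.H662.TR
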