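import Pool.Agent.H662.TR.Stm

/-!
# `nodes`, `pairs` and `F1` are primitive recursive
-/

set_option autoImplicit false

namespace Pool.Agent.H662.TR

namespace XPR4

theorem pow2 : Primrec (fun n : ℕ => 2 ^ n) := by
  refine (Primrec.nat_rec₁ (f := fun _ ih => ih * 2) 1
    (Primrec.nat_mul.comp Primrec.snd (Primrec.const 2)).to₂).of_eq fun n => ?_
  induction n with
  | zero => rfl
  | succ n ih =>
    rw [pow_succ, ← ih]

theorem prods_foldr (l : List Str) (N : ℕ) : prods l N = l.foldr (fun σ acc =>
    (List.range (N + 1)).flatMap (fun v => acc.map (fun r => (σ, v) :: r))) [[]] := by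
  induction l with
  | nil => rfl
  | cons σ l ih =>
    rw [List.foldr_cons, ← ih]
    rfl

theorem prods_primrec : Primrec (fun x : List Str × ℕ => prods x.1 x.2) := by
  have h1 : Primrec₂ (fun (x : List Str × ℕ) (y : Str × List Vec) =>
      (List.range (x.2 + 1)).flatMap (fun v => y.2.map (fun r => (y.1, v) :: r))) := by
    refine Primrec.list_flatMap (f := fun z : (List Str × ℕ) × (Str × List Vec) =>
      List.range (z.1.2 + 1)) (g := fun z v => z.2.2.map (fun r => (z.2.1, v) :: r)) ?_ ?_
    · exact Primrec.list_range.comp (Primrec.succ.comp (Primrec.snd.comp Primrec.fst))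
    · refine Primrec.list_map (f := fun w : ((List Str × ℕ) × (Str × List Vec)) × ℕ => w.1.2.2)
        (g := fun w r => (w.1.2.1, w.2) :: r) ?_ ?_
      · exact Primrec.snd.comp (Primrec.snd.comp Primrec.fst)
      · exact Primrec.list_cons.comp
          (Primrec.pair (Primrec.fst.comp (Primrec.snd.comp (Primrec.fst.comp Primrec.fst)))
            (Primrec.snd.comp Primrec.fst)) Primrec.snd
  refine (Primrec.list_foldr (f := fun x : List Str × ℕ => x.1)
    (g := fun _ => ([[]] : List Vec)) Primrec.fst (Primrec.const _) h1).of_eq fun x => ?_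
  exact (prods_foldr x.1 x.2).symm

theorem nodes_primrec (h : Primrec strs) : Primrec nodes := by
  have h1 : Primrec₂ (fun (m : ℕ) (ih : List Node) => ih.flatMap (fun τ =>
      (prods (strs (m + 1)) (2 ^ (m + 1))).map (fun r => τ ++ [r]))) := by
    refine Primrec.list_flatMap (f := fun z : ℕ × List Node => z.2)
      (g := fun z τ => (prods (strs (z.1 + 1)) (2 ^ (z.1 + 1))).map (fun r => τ ++ [r])) ?_ ?_
    · exact Primrec.snd
    · refine Primrec.list_map (f := fun w : (ℕ × List Node) × Node =>
        prods (strs (w.1.1 + 1)) (2 ^ (w.1.1 + 1))) (g := fun w r => w.2 ++ [r]) ?_ ?_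
      · have h2 : Primrec (fun w : (ℕ × List Node) × Node => w.1.1 + 1) :=
          Primrec.succ.comp (Primrec.fst.comp Primrec.fst)
        exact prods_primrec.comp (Primrec.pair (h.comp h2) (pow2.comp h2))
      · exact Primrec.list_concat.comp (Primrec.snd.comp Primrec.fst) Primrec.snd
  refine (Primrec.nat_rec₁ (nodes 0) h1).of_eq fun m => ?_
  induction m with
  | zero => rfl
  | succ m ih =>
    show List.flatMap _ _ = _
    rw [ih]
    rfl

theorem pairs_primrec (h : Primrec strs) : Primrec pairs := by
  refine Primrec.list_flatMap (f := fun m : ℕ => strs m)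
    (g := fun m ξ => (strs m).map (fun η => (ξ, η))) h ?_
  refine Primrec.list_map (f := fun w : ℕ × Str => strs w.1) (g := fun w η => (w.2, η)) ?_ ?_
  · exact h.comp Primrec.fst
  · exact Primrec.pair (Primrec.snd.comp Primrec.fst) Primrec.snd

theorem any_foldr {α : Type} (l : List α) (f : α → Bool) :
    l.any f = l.foldr (fun a b => f a || b) false := by
  induction l with
  | nil => rfl
  | cons a l ih => rw [List.foldr_cons, ← ih, List.any_cons]

theorem F1_primrec (h : Primrec (fun x : Str × Str => pre x.1 x.2)) :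
    Primrec (fun x : Node × Str => F1 x.1 x.2) := by
  have h1 : Primrec₂ (fun (x : Node × Str) (y : (Str × ℕ) × Bool) =>
      ((pre y.1.1 x.2 && decide (2 ^ y.1.1.length ≤ 32 * y.1.2)) || y.2)) := by
    refine Primrec.or.comp (Primrec.and.comp ?_ ?_) ?_
    · exact h.comp (Primrec.pair (Primrec.fst.comp (Primrec.fst.comp Primrec.snd))
        (Primrec.snd.comp Primrec.fst))
    · refine Primrec.nat_le.decide.comp (pow2.comp (Primrec.list_length.comp
        (Primrec.fst.comp (Primrec.fst.comp Primrec.snd)))) ?_
      exact Primrec.nat_mul.comp (Primrec.const 32)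
        (Primrec.snd.comp (Primrec.fst.comp Primrec.snd))
    · exact Primrec.snd.comp Primrec.snd
  refine (Primrec.list_foldr (f := fun x : Node × Str => x.1.flatten)
    (g := fun _ => false) (Primrec.list_flatten.comp Primrec.fst) (Primrec.const _)
    h1).of_eq fun x => ?_
  unfold F1
  rw [any_foldr]

end XPR4

/-- PR4 -/
theorem t_PR4 (hPR1 : S_PR1) : S_PR4 :=
  ⟨XPR4.nodes_primrec hPR1.1, XPR4.pairs_primrec hPR1.1, XPR4.F1_primrec hPR1.2.2.1⟩

end Pool.Agent.H662.TR
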