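import Mathlib

/-!
# Definitions and statements for S14403 (MP_14681b_lc, positive answer)

Two sequences that are random relative to the halting problem have infinitely many common
incompressible prefix lengths.  All definitions are in `Pool.Agent.H662.TR`.  Every `S_X` below is a
proposition; a leaf is a theorem `t_X : S_X`, possibly from hypotheses `S_Y` named in its docstring.
-/

set_option autoImplicit false

namespace Pool.Agent.H662.TR

/-- strings -/
abbrev Str := List Bool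
/-- a vector: values attached to strings -/
abbrev Vec := List (Str × ℕ)
/-- a node: a list of vectors, entry `i` is the vector of level `i` -/
abbrev Node := List Vec

/-- all strings of length `n` -/
def strs : ℕ → List Str
  | 0 => [[]]
  | n + 1 => (strs n).map (fun σ => false :: σ) ++ (strs n).map (fun σ => true :: σ)

/-- all sublists -/
def subs : List Str → List (List Str)
  | [] => [[]]
  | a :: l => subs l ++ (subs l).map (fun m => a :: m)

/-- `σ` is an initial segment of `τ` -/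
def pre (σ τ : Str) : Bool := decide (τ.take σ.length = σ)

/-- number of elements of `B` extending `σ` -/
def cnt (B : List Str) (σ : Str) : ℕ := (B.filter (fun τ => pre σ τ)).length

/-- level `i` code of `B ⊆ strs n` : for each `σ` of length `i` the number
`⌊2^i * (cnt B σ / 2^(n-i))⌋` -/
def code (n : ℕ) (B : List Str) (i : ℕ) : Vec :=
  (strs i).map (fun σ => (σ, 2 ^ i * cnt B σ / 2 ^ (n - i)))

/-- the node of `B` up to level `m` (so a list of length `m+1`) -/
def cc (n : ℕ) (B : List Str) (m : ℕ) : Node := (List.range (m + 1)).map (code n B)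

/-- stage `s` approximation of the set of bad strings of length `n` -/
def bad (β : (ℕ × Str) × ℕ → Bool) (d n s : ℕ) : List Str :=
  (strs n).filter (fun σ => β ((d, σ), s))

/-- `B ⊆ strs n` avoids all the nodes in `E` -/
def avoid (E : List Node) (n : ℕ) (B : List Str) : Bool :=
  E.all (fun τ => !(decide (τ.length ≤ n + 1) && decide (cc n B (τ.length - 1) = τ)))

/-- `B` contains the stage `s` bad strings of length `n`, and has density at most `2^{-d}` -/
def adm (β : (ℕ × Str) × ℕ → Bool) (d n s : ℕ) (B : List Str) : Bool :=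
  (bad β d n s).all (fun σ => decide (σ ∈ B)) && decide (B.length * 2 ^ d ≤ 2 ^ n)

/-- at level `n`, stage `s`, there is an admissible `B` avoiding `E` -/
def okay (β : (ℕ × Str) × ℕ → Bool) (d : ℕ) (E : List Node) (n s : ℕ) : Bool :=
  (subs (strs n)).any (fun B => adm β d n s B && avoid E n B)

/-- `E` can be avoided at every level and stage -/
def Good (β : (ℕ × Str) × ℕ → Bool) (d : ℕ) (E : List Node) : Prop :=
  ∀ n s, okay β d E n s = true

open Classical in
/-- greedy list of avoided nodes -/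
noncomputable def Gr (β : (ℕ × Str) × ℕ → Bool) (d : ℕ) : ℕ → List Node
  | 0 => []
  | e + 1 =>
    (Encodable.decode (α := Node) e).elim (Gr β d e)
      (fun τ => if Good β d (τ :: Gr β d e) then τ :: Gr β d e else Gr β d e)

/-- the tree of the nodes which are not avoided -/
def inT (β : (ℕ × Str) × ℕ → Bool) (d : ℕ) (τ : Node) : Prop :=
  τ ∉ Gr β d (Encodable.encode τ + 1)

/-- `(n, B)` is a witness for the node `τ` : `B ⊆ strs n` contains all bad strings of length `n`, has
density at most `2^{-d}`, and passes through `τ` -/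
def W (β : (ℕ × Str) × ℕ → Bool) (d : ℕ) (τ : Node) (v : ℕ × List Str) : Prop :=
  τ.length ≤ v.1 + 1 ∧ v.2 ∈ subs (strs v.1) ∧ (∀ s, adm β d v.1 s v.2 = true) ∧
    cc v.1 v.2 (τ.length - 1) = τ

/-- search predicate -/
def Q (β : (ℕ × Str) × ℕ → Bool) (d : ℕ) (τ : Node) (c : ℕ) : Prop :=
  ¬ inT β d τ ∨ ∃ w, Encodable.decode (α := ℕ × List Str) c = some w ∧ W β d τ w

/-- the least code of a witness for `τ` -/
noncomputable def dcode (β : (ℕ × Str) × ℕ → Bool) (d : ℕ) (τ : Node) : ℕ := sInf {c : ℕ | Q β d τ c}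

/-- the chosen witness for `τ` -/
noncomputable def dat (β : (ℕ × Str) × ℕ → Bool) (d : ℕ) (τ : Node) : ℕ × List Str :=
  (Encodable.decode (α := ℕ × List Str) (dcode β d τ)).getD (0, [])

/-- state of the betting strategy: position, number of bad steps, number of good steps, hit flag -/
abbrev St := ℕ × ℕ × ℕ × Bool

/-- one step of the betting strategy on `ξ`, given the witness `v` -/
def stepc (b : ℕ) (v : ℕ × List Str) (ξ : Str) (q : St) : St :=
  if v.1 + 1 ≤ ξ.length ∧ 16 * cnt v.2 (ξ.take q.1) ≤ 2 ^ (v.1 - q.1) then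
    (if ξ.take v.1 ∈ v.2 then
      (v.1 + 1, q.2.1 + 1, q.2.2.1, q.2.2.2 || decide (q.2.2.1 + b ≤ 3 * (q.2.1 + 1)))
    else (v.1 + 1, q.2.1, q.2.2.1 + 1, q.2.2.2))
  else q

/-- one step of the betting strategy along the node `τ` -/
noncomputable def step (β : (ℕ × Str) × ℕ → Bool) (d b : ℕ) (τ : Node) (ξ : Str) (q : St) : St :=
  stepc b (dat β d (τ.take (q.1 + 1))) ξ q

/-- the final state of the betting strategy -/
noncomputable def run (β : (ℕ × Str) × ℕ → Bool) (d b : ℕ) (τ : Node) (ξ : Str) : St :=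
  (step β d b τ ξ)^[ξ.length] (5, 0, 0, false)

/-- `ξ` has an initial segment where the node has density at least `1/32` -/
def F1 (τ : Node) (ξ : Str) : Bool :=
  τ.flatten.any (fun p => pre p.1 ξ && decide (2 ^ p.1.length ≤ 32 * p.2))

/-- the small open set (at the level of `τ`) in which one of the two sequences has to be -/
def US (β : (ℕ × Str) × ℕ → Bool) (b : ℕ) (τ : Node) (ξ : Str) : Prop :=
  F1 τ ξ = true ∨ (run β (b + 5) b τ ξ).2.2.2 = true

/-- all vectors over the strings in the list with values at most `N` -/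
def prods : List Str → ℕ → List Vec
  | [], _ => [[]]
  | σ :: l, N => (List.range (N + 1)).flatMap (fun v => (prods l N).map (fun r => (σ, v) :: r))

/-- all candidate nodes of length `m+1` -/
def nodes : ℕ → List Node
  | 0 => (prods (strs 0) (2 ^ 0)).map (fun r => [r])
  | m + 1 => (nodes m).flatMap (fun τ => (prods (strs (m + 1)) (2 ^ (m + 1))).map (fun r => τ ++ [r]))

/-- every node of the tree of level `m` catches `ξ` or `η` -/
def VV (β : (ℕ × Str) × ℕ → Bool) (b m : ℕ) (ξ η : Str) : Prop :=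
  ∀ τ ∈ nodes m, inT β (b + 5) τ → US β b τ ξ ∨ US β b τ η

/-- all pairs of strings of length `m` -/
def pairs (m : ℕ) : List (Str × Str) := (strs m).flatMap (fun ξ => (strs m).map (fun η => (ξ, η)))

open Classical in
/-- add the pair `p` when it is caught and comparable (in either coordinate) to no earlier pair -/
noncomputable def addp (β : (ℕ × Str) × ℕ → Bool) (b m : ℕ) (acc : List (Str × Str)) (p : Str × Str) :
    List (Str × Str) :=
  if VV β b m p.1 p.2 ∧ ∀ r ∈ acc, pre r.1 p.1 = false ∧ pre r.2 p.2 = false then p :: acc else acc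

/-- greedy matching up to level `m` -/
noncomputable def AL (β : (ℕ × Str) × ℕ → Bool) (b : ℕ) : ℕ → List (Str × Str)
  | 0 => []
  | m + 1 => (pairs (m + 1)).foldl (addp β b (m + 1)) (AL β b m)

/-- initial segment of a sequence -/
def xs (X : ℕ → Bool) (n : ℕ) : Str := (List.range n).map X

/-- initial segment of a path -/
def seg (P : ℕ → Vec) (m : ℕ) : Node := (List.range (m + 1)).map P

/-- bad strings -/
def Bd (β : (ℕ × Str) × ℕ → Bool) (d : ℕ) (σ : Str) : Prop := ∃ s, β ((d, σ), s) = true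

/-- assumptions on the approximation `β` -/
structure Hyp (β : (ℕ × Str) × ℕ → Bool) : Prop where
  mono : ∀ d σ s t, s ≤ t → β ((d, σ), s) = true → β ((d, σ), t) = true
  small : ∀ d n s, (bad β d n s).length * 2 ^ d ≤ 2 ^ n

/-! ## Limit computability -/

/-- limit computable function, with a primitive recursive approximation -/
def LP {α σ : Type} [Primcodable α] [Primcodable σ] (f : α → σ) : Prop :=
  ∃ g : α × ℕ → σ, Primrec g ∧ ∀ a, ∀ᶠ s in Filter.atTop, g (a, s) = f a

open Classical in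
/-- limit computable predicate -/
def LPP {α : Type} [Primcodable α] (p : α → Prop) : Prop := LP (fun a => decide (p a))

/-! ## Basic facts about strings -/

theorem mem_strs {n : ℕ} {σ : Str} : σ ∈ strs n ↔ σ.length = n := by
  induction n generalizing σ with
  | zero => simp [strs]
  | succ n ih =>
    simp only [strs, List.mem_append, List.mem_map]
    constructor
    · rintro (⟨a, ha, rfl⟩ | ⟨a, ha, rfl⟩) <;> simp [ih.1 ha]
    · intro h
      match σ, h with
      | [], h => simp at h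
      | false :: t, h => exact Or.inl ⟨t, ih.2 (by simpa using h), rfl⟩
      | true :: t, h => exact Or.inr ⟨t, ih.2 (by simpa using h), rfl⟩

theorem length_strs (n : ℕ) : (strs n).length = 2 ^ n := by
  induction n with
  | zero => simp [strs]
  | succ n ih => simp [strs, ih, pow_succ]; ring

theorem nodup_strs (n : ℕ) : (strs n).Nodup := by
  induction n with
  | zero => simp [strs]
  | succ n ih =>
    simp only [strs]
    refine List.Nodup.append (ih.map (fun a b h => by simpa using h))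
      (ih.map (fun a b h => by simpa using h)) ?_
    intro a h1 h2
    simp only [List.mem_map] at h1 h2
    obtain ⟨x, _, rfl⟩ := h1
    obtain ⟨y, _, hy⟩ := h2
    simp at hy

theorem mem_subs {l B : List Str} : B ∈ subs l ↔ List.Sublist B l := by
  induction l generalizing B with
  | nil => simp [subs]
  | cons a l ih =>
    simp only [subs, List.mem_append, List.mem_map]
    constructor
    · rintro (h | ⟨m, hm, rfl⟩)
      · exact (ih.1 h).cons a
      · exact (ih.1 hm).cons_cons a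
    · intro h
      cases h with
      | cons _ h => exact Or.inl (ih.2 h)
      | cons_cons _ h => exact Or.inr ⟨_, ih.2 h, rfl⟩

theorem pre_iff {σ τ : Str} : pre σ τ = true ↔ σ <+: τ := by
  simp only [pre, decide_eq_true_eq]
  constructor
  · intro h; rw [← h]; exact List.take_prefix _ _
  · intro h; exact (List.prefix_iff_eq_take.1 h).symm

theorem length_xs (X : ℕ → Bool) (n : ℕ) : (xs X n).length = n := by simp [xs]

theorem take_xs (X : ℕ → Bool) {i n : ℕ} (h : i ≤ n) : (xs X n).take i = xs X i := by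
  simp [xs, ← List.map_take, List.take_range, Nat.min_eq_left h]

theorem length_seg (P : ℕ → Vec) (n : ℕ) : (seg P n).length = n + 1 := by simp [seg]

theorem take_seg (P : ℕ → Vec) {i n : ℕ} (h : i ≤ n) : (seg P n).take (i + 1) = seg P i := by
  simp [seg, ← List.map_take, List.take_range, Nat.min_eq_left (Nat.succ_le_succ h)]

theorem length_cc (n : ℕ) (B : List Str) (m : ℕ) : (cc n B m).length = m + 1 := by simp [cc]

theorem take_cc (n : ℕ) (B : List Str) {i m : ℕ} (h : i ≤ m) :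
    (cc n B m).take (i + 1) = cc n B i := by
  simp [cc, ← List.map_take, List.take_range, Nat.min_eq_left (Nat.succ_le_succ h)]

/-! ## Statements: the tree -/

/-- GG. Proof: induction on `e`. For `e = 0` take `B = bad β d n s` (a filter, so a sublist of `strs n`),
which is admissible by `Hyp.small`; `avoid [] = true`. The step is by definition of `Gr`. -/
def S_GG : Prop := ∀ β, Hyp β → ∀ d e, Good β d (Gr β d e)

/-- WE. Proof: put `e = encode τ`, `G = Gr β d e`. As `τ ∉ Gr β d (e+1)` and `decode e = some τ`,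
`Good β d (τ :: G)` fails: there are `n s0` with `okay β d (τ :: G) n s0 = false`. Take a stage `s ≥ s0` with
`β ((d,σ),s') = β ((d,σ),s)` for all `s' ≥ s` and `σ ∈ strs n` (exists by `mono`, finitely many `σ`). By `S_GG`
there is `B ∈ subs (strs n)` with `adm β d n s B` and `avoid G n B`. Then `adm β d n s' B` for all `s'` (for
`s' ≤ s` by mono), and `avoid (τ :: G) n B` is false (else `okay` at `s0`), so `τ.length ≤ n + 1` and
`cc n B (τ.length - 1) = τ`. So `(n, B)` is a witness. -/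
def S_WE : Prop := ∀ β, Hyp β → ∀ d τ, inT β d τ → ∃ v, W β d τ v

/-- DW (from S_WE). Proof: the set `{c | Q β d τ c}` is nonempty (encode of a witness), `Nat.sInf_mem`. -/
def S_DW : Prop := ∀ β, Hyp β → ∀ d τ, inT β d τ → W β d τ (dat β d τ)

/-- CL (from S_GG). `T` is closed under nonempty initial segments. Proof: `Gr` is increasing in `e`. If
`τ' ∈ Gr β d e'` (`e' = encode τ' + 1`), let `e = encode τ` and `f = max e e'`. By S_GG for `f`: for all `n s`
there is an admissible `B` avoiding `Gr β d f ∋ τ'`. If `B` passed through `τ` (`τ.length ≤ n+1`,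
`cc n B (τ.length-1) = τ`) it would pass through `τ'` (`take_cc`). So `B` avoids `τ :: Gr β d e`, hence
`Good β d (τ :: Gr β d e)` and `τ ∈ Gr β d (e+1)`. -/
def S_CL : Prop := ∀ β, Hyp β → ∀ d (τ τ' : Node), inT β d τ → τ' ≠ [] → τ' <+: τ → inT β d τ'

/-- CN. Proof: `cc n B (m+1) = cc n B m ++ [code n B (m+1)]`; `code n B i ∈ prods (strs i) (2^i)` because
`cnt B σ ≤ 2^(n-i)` for `σ ∈ strs i`, `i ≤ n` (the strings of length `n` extending `σ`; `B` is a sublist of
the nodup list `strs n`). -/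
def S_CN : Prop := ∀ n B m, m ≤ n → B ∈ subs (strs n) → cc n B m ∈ nodes m

/-- NE (from S_GG, S_CN). Every level has a node of `T`. Proof: otherwise every `τ ∈ nodes m` is in some
`Gr β d (encode τ + 1)`, so all are in `Gr β d f` for a large `f` (`Gr` is increasing). By S_GG with
`n = m, s = 0` there is `B ∈ subs (strs m)` avoiding `Gr β d f`; but `cc m B m ∈ nodes m`, contradiction. -/
def S_NE : Prop := ∀ β, Hyp β → ∀ d m, ∃ τ ∈ nodes m, inT β d τ

/-! ## Statements: measure bounds -/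

/-- DB (maximal inequality). Proof: `F1 (cc n B m) ξ` (for `ξ ∈ strs m`) iff for some `i ≤ m`,
`σ = ξ.take i`, `2^i ≤ 32 * (2^i * cnt B σ / 2^(n-i))`, which implies `2^(n-i) ≤ 32 * cnt B σ` ('σ is
heavy'). Claim, by induction on `k`: for `ρ` with `ρ.length + k = m`, the number of `ξ ∈ strs m` extending
`ρ` and having a heavy initial segment of length `≥ ρ.length`, times `2^(n-m)`, is `≤ 32 * cnt B ρ`. If `ρ` is
heavy, the number is at most `2^k` and `2^(n-m+k) = 2^(n-ρ.length) ≤ 32 * cnt B ρ`. If not, it is the sum over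
`ρ ++ [false]`, `ρ ++ [true]` (or zero if `k = 0`) and `cnt B ρ` is at least the sum of the two counts. For
`ρ = []`: number `* 2^(n-m) ≤ 32 * B.length`, and `B.length * 2^d ≤ 2^n`. -/
def S_DB : Prop := ∀ n m d B, m ≤ n → B ∈ subs (strs n) → B.length * 2 ^ d ≤ 2 ^ n →
  ((strs m).filter (fun ξ => F1 (cc n B m) ξ)).length * 2 ^ d ≤ 32 * 2 ^ m

/-- SM (from S_CL, S_DW). Supermartingale bound. Proof: claim by induction on the fuel `j`: for every
`ρ` with `μ = ρ.length ≤ m` and every `bd gd`, the number `N` of `ξ ∈ strs m` extending `ρ` such that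
`((step β d b τ ξ)^[j] (μ, bd, gd, false)).2.2.2 = true` satisfies `N * 2^(b+gd) ≤ 2^(m-μ) * 2^(3*bd)`.
`j = 0` : `N = 0`. Step: `v = dat β d (τ.take (μ+1))`, `n = v.1 ≥ μ` (S_DW, S_CL), `v.2 ∈ subs (strs n)`. If
`n + 1 > m` or `16 * cnt v.2 ρ > 2^(n-μ)` the state never changes and `N = 0`. Otherwise put
`c = cnt v.2 ρ ≤ 2^(n-μ)/16`; split the `ξ` according to `ρ' = ξ.take (n+1)`; there are `2*c` such `ρ'` with
`ρ'.take n ∈ v.2` and `2*(2^(n-μ) - c)` others. For the first kind the new state is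
`(n+1, bd+1, gd, gd + b ≤ 3*(bd+1))`: either the flag is set and `N(ρ') ≤ 2^(m-n-1)`,
`2^(b+gd) ≤ 2^(3*(bd+1))`, or it is not and the induction hypothesis applies; in both cases
`N(ρ') * 2^(b+gd) ≤ 2^(m-n-1) * 2^(3*bd+3)`. For the second kind `N(ρ') * 2^(b+gd+1) ≤ 2^(m-n-1) * 2^(3*bd)`.
Summing: `N * 2^(b+gd) ≤ 2^(m-n-1) * 2^(3*bd) * (16*c + 2^(n-μ) - c) ≤ 2^(m-μ) * 2^(3*bd)`. For `5 ≤ m` apply it
to all `ρ ∈ strs 5` (`N(ρ) * 2^b ≤ 2^(m-5)`); for `m < 5` all steps are stuck (`n ≥ m` as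
`τ.take 6 = τ`), so nothing is counted. (Once the flag is set it stays; for `ξ.length = m` the run uses
fuel `m`.) -/
def S_SM : Prop := ∀ β, Hyp β → ∀ d b m τ, inT β d τ → τ.length = m + 1 →
  ((strs m).filter (fun ξ => (run β d b τ ξ).2.2.2)).length * 2 ^ b ≤ 2 ^ m

open Classical in
/-- UB (from S_DW, S_DB, S_SM). Proof: with `(n, B) = dat β (b+5) τ` we have `τ = cc n B m`, `m ≤ n`, `B`
sublist, `B.length * 2^(b+5) ≤ 2^n` (from `adm`). Union bound of S_DB (`32 = 2^5`) and S_SM. -/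
def S_UB : Prop := ∀ β, Hyp β → ∀ b m τ, inT β (b + 5) τ → τ.length = m + 1 →
  ((strs m).filter (fun ξ => decide (US β b τ ξ))).length * 2 ^ b ≤ 2 * 2 ^ m

/-- MO (from S_CL, S_DW). Monotonicity. Proof: `F1` is clearly monotone (`τ.flatten` is an initial segment
of `τ'.flatten`, `pre p.1 ξ → pre p.1 ξ'`). For `run`: let `q_j`, `q'_j` be the states after `j` steps on
`(τ,ξ)`, `(τ',ξ')`. By induction on `j`: either `q_j = q'_j` and (`j = 0` or `q_j.1 ≤ ξ.length`), or the flag of
`q_j` equals the flag of `q_i` for an `i ≤ j` with `q_i = q'_i`, and `q_j` is stuck, so flag `q_j → ` flag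
`q'_j`. Here the flag is monotone along the run, `dat` is applied to `τ.take (μ+1) = τ'.take (μ+1)` if
`μ ≤ ξ.length`, `ξ.take` agrees with `ξ'.take` up to `ξ.length`. If `ξ.length < 5` then the run on `(τ,ξ)`
never moves, because `τ.take 6 = τ` and `(dat τ).1 + 1 ≥ τ.length = ξ.length + 1 > ξ.length`. The number of
steps is `ξ.length ≤ ξ'.length`. (A convenient form: if a step does not change the state, all later
ones do not.) -/
def S_MO : Prop := ∀ β, Hyp β → ∀ b (τ τ' : Node) (ξ ξ' : Str), inT β (b + 5) τ' → τ <+: τ' → ξ <+: ξ' →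
  τ.length = ξ.length + 1 → τ'.length = ξ'.length + 1 → US β b τ ξ → US β b τ' ξ'

/-- PA (from S_DW; S_MO if useful). The path argument. Proof: suppose `US β b (seg P m) (xs X m)` and
`US β b (seg P m) (xs Y m)` fail for all `m`. Put `d = b+5`, `μ_0 = 5`, `v_j = dat β d (seg P μ_j)`,
`μ_{j+1} = v_j.1 + 1 > μ_j` (S_DW: `μ_j + 1 ≤ v_j.1 + 1`). For `Z ∈ {X, Y}` failure of `F1` at `m = μ_j` gives for
`σ = xs Z μ_j`: `32 * (2^μ * cnt v_j.2 σ / 2^(n-μ)) < 2^μ` (`n = v_j.1`; note
`seg P μ_j = cc n v_j.2 μ_j` contains the pair of `σ`), so as `μ ≥ 5`, `32 * cnt v_j.2 σ ≤ 2^(n-μ)`: indeed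
`q = 2^μ * c / 2^(n-μ)` satisfies `32 q ≤ 2^μ - 32`, `2^μ * c < (q+1) * 2^(n-μ)`, so
`32 * 2^μ * c < 2^μ * 2^(n-μ)`. Hence the run on `(seg P m, xs Z m)` for `m ≥ μ_j` makes (at least) the
first `j` steps: its state after `j` steps (`i ≤ j ≤ m` automatically since `μ_j ≥ 5 + j`) is
`(μ_j, bd_j^Z, gd_j^Z, flag)`, where `bd^Z_j + gd^Z_j = j` and `bd^Z` counts the `i < j` with
`xs Z v_i.1 ∈ v_i.2`. The flag is false (as `US` fails at `m = μ_j`), hence at the last bad step
`3 * bd_j < gd + b`, so `3 * bd_j^Z < gd_j^Z + b` or `bd_j^Z = 0`. For `i ≥ N` one of `xs X v_i.1`, `xs Y v_i.1`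
is bad, `v_i.1 ≥ i`, so it is in `v_i.2` (W: `adm` for all stages). Hence `bd^X_j + bd^Y_j ≥ j - N`, while
`4 * (bd^X_j + bd^Y_j) ≤ 2*j + 2*b`. Contradiction for `j > 2*N + b + ...`. -/
def S_PA : Prop := ∀ β, Hyp β → ∀ b (X Y : ℕ → Bool) (P : ℕ → Vec),
  (∃ N, ∀ n, N ≤ n → Bd β (b + 5) (xs X n) ∨ Bd β (b + 5) (xs Y n)) →
  (∀ m, inT β (b + 5) (seg P m)) → ∃ m, US β b (seg P m) (xs X m) ∨ US β b (seg P m) (xs Y m)

/-- KL. Koenig lemma. `D` is closed under nonempty initial segments and has, for each `m ≥ 1`, an element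
in `nodes m`. Then there is an infinite path. Proof: standard; `τ ∈ nodes (m+1)` iff `τ = τ' ++ [r]` with
`τ' ∈ nodes m` and `r` in the finite list `prods ..`; build the path with infinitely many extensions. -/
def S_KL : Prop := ∀ D : Node → Prop, (∀ τ τ' : Node, D τ → τ' ≠ [] → τ' <+: τ → D τ') →
  (∀ m, ∃ τ ∈ nodes (m + 1), D τ) → ∃ P : ℕ → Vec, ∀ m, D (seg P m)

/-- KO (from S_CL, S_MO, S_PA, S_KL). Proof: if not, for each `m` there is `τ ∈ nodes (m+1)` in `T` with
neither `US β b τ (xs X (m+1))` nor `US β b τ (xs Y (m+1))`. Apply S_KL to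
`D τ = τ ≠ [] ∧ inT β (b+5) τ ∧ ¬ US β b τ (xs X (τ.length-1)) ∧ ¬ US β b τ (xs Y (τ.length-1))` (closed by S_CL,
S_MO) and then S_PA. -/
def S_KO : Prop := ∀ β, Hyp β → ∀ b (X Y : ℕ → Bool),
  (∃ N, ∀ n, N ≤ n → Bd β (b + 5) (xs X n) ∨ Bd β (b + 5) (xs Y n)) →
  ∃ m, VV β b (m + 1) (xs X (m + 1)) (xs Y (m + 1))

/-- AI. Structure of the greedy matching. Proof: induction on `m`, and on the fold. -/
def S_AI : Prop := ∀ β b m,
  (∀ p ∈ AL β b m, p.1.length ≤ m ∧ p.2.length = p.1.length ∧ VV β b p.1.length p.1 p.2) ∧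
  (AL β b m).Pairwise (fun p r => ¬ (p.1 <+: r.1) ∧ ¬ (r.1 <+: p.1) ∧ ¬ (p.2 <+: r.2) ∧ ¬ (r.2 <+: p.2)) ∧
  (∀ m', m ≤ m' → ∀ p ∈ AL β b m, p ∈ AL β b m')

/-- PW. Kraft type inequality. Proof: each `σ` in `l` has exactly `2^(m - σ.length)` extensions in `strs m`,
all in `E`, and these sets are disjoint for different entries of `l`. -/
def S_PW : Prop := ∀ (m : ℕ) (l : List Str) (E : Str → Prop) (N : ℕ),
  (∀ σ ∈ l, σ.length ≤ m) → l.Pairwise (fun σ ρ => ¬ (σ <+: ρ) ∧ ¬ (ρ <+: σ)) →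
  (∀ σ ∈ l, ∀ ξ : Str, ξ.length = m → σ <+: ξ → E ξ) →
  (∀ S : Finset Str, (∀ ξ ∈ S, ξ.length = m ∧ E ξ) → S.card ≤ N) →
  (l.map (fun σ => ((1:ℝ)/2) ^ σ.length)).sum * 2 ^ m ≤ N

/-- MB (from S_NE, S_CL, S_UB, S_MO, S_AI, S_PW). Proof: fix `m`, `τ ∈ nodes m` in `T` (S_NE), so
`τ.length = m+1`. For `p ∈ AL β b m`, `i = p.1.length ≤ m`, `τ.take (i+1) ∈ T` is in `nodes i`, so by `VV` it
catches `p.1` or `p.2`. By S_MO every `ξ ∈ strs m` extending a caught coordinate satisfies `US β b τ ξ`, and by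
S_UB there are at most `2 * 2^m / 2^b` such `ξ`. Apply S_PW to the first coordinates of the `p` caught in the
first coordinate, and to the second coordinates of the others; `p.1.length = p.2.length`. Total
`≤ 2 * (2 * (1/2)^b)`. -/
def S_MB : Prop := ∀ β, Hyp β → ∀ b m,
  ((AL β b m).map (fun p => ((1:ℝ)/2) ^ p.1.length)).sum ≤ 4 * ((1:ℝ)/2) ^ b ∧
  ((AL β b m).map (fun p => ((1:ℝ)/2) ^ p.2.length)).sum ≤ 4 * ((1:ℝ)/2) ^ b

/-- CO. Proof: the pair `p = (xs X (m+1), xs Y (m+1))` is in `pairs (m+1)`. When the fold reaches `p`, either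
it is added or some `r` in the accumulator has `pre r.1 p.1` or `pre r.2 p.2`; the accumulator only grows, so
`r ∈ AL β b (m+1)`. Use `pre_iff` and `take_xs`. -/
def S_CO : Prop := ∀ β b m (X Y : ℕ → Bool), VV β b (m + 1) (xs X (m + 1)) (xs Y (m + 1)) →
  ∃ p ∈ AL β b (m + 1), p.1 = xs X p.1.length ∨ p.2 = xs Y p.2.length

/-! ## Statements: limit computability -/

/-- BAS. Proof: direct. -/
def S_BAS : Prop :=
  (∀ (α σ : Type) [Primcodable α] [Primcodable σ] (f : α → σ), Primrec f → LP f) ∧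
  (∀ (α σ τ : Type) [Primcodable α] [Primcodable σ] [Primcodable τ] (f : σ → τ) (g : α → σ),
    LP f → LP g → LP (fun a => f (g a))) ∧
  (∀ (α σ τ : Type) [Primcodable α] [Primcodable σ] [Primcodable τ] (f : α → σ) (g : α → τ),
    LP f → LP g → LP (fun a => (f a, g a))) ∧
  (∀ (α : Type) [Primcodable α] (p q : α → Prop), LPP p → LPP q →
    LPP (fun a => ¬ p a) ∧ LPP (fun a => p a ∧ q a) ∧ LPP (fun a => p a ∨ q a) ∧
      LPP (fun a => p a → q a)) ∧
  (∀ (α σ : Type) [Primcodable α] [Primcodable σ] (f : α → σ) (p : σ → Prop), LPP p → LP f →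
    LPP (fun a => p (f a)))

open Classical in
/-- ITE. Proof: direct. -/
def S_ITE : Prop := ∀ (α σ : Type) [Primcodable α] [Primcodable σ] (p : α → Prop) (f g : α → σ),
  LPP p → LP f → LP g → LP (fun a => if p a then f a else g a)

/-- REC. Proof: approximations of primitive recursion converge, by induction on the argument. -/
def S_REC : Prop := ∀ (α σ : Type) [Primcodable α] [Primcodable σ] (f : α → σ) (h : α × (ℕ × σ) → σ),
  LP f → LP h → LP (fun x : α × ℕ => Nat.rec (motive := fun _ => σ) (f x.1)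
    (fun n ih => h (x.1, (n, ih))) x.2)

/-- FOLD. Proof: `Primrec.list_foldl`; for fixed `a` induction on the list `l a`. -/
def S_FOLD : Prop := ∀ (α τ σ : Type) [Primcodable α] [Primcodable τ] [Primcodable σ]
  (l : α → List τ) (g : α → σ) (h : α × (σ × τ) → σ), LP l → LP g → LP h →
  LP (fun a => (l a).foldl (fun s t => h (a, (s, t))) (g a))

/-- ALL. Proof: like FOLD, or from FOLD. -/
def S_ALL : Prop := ∀ (α τ : Type) [Primcodable α] [Primcodable τ]
  (l : α → List τ) (p : α × τ → Prop), LP l → LPP p →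
  LPP (fun a => ∀ t ∈ l a, p (a, t)) ∧ LPP (fun a => ∃ t ∈ l a, p (a, t))

/-- ITR. Proof: `Primrec.nat_iterate` or from REC. -/
def S_ITR : Prop := ∀ (α σ : Type) [Primcodable α] [Primcodable σ]
  (n : α → ℕ) (g : α → σ) (h : α × σ → σ), LP n → LP g → LP h →
  LP (fun a => (fun s => h (a, s))^[n a] (g a))

/-- MIN. Proof: approximation `g(a,s)` = least `n ≤ s` for which the stage `s` approximation of `p (a,n)` is
true (bounded search, e.g. `Primrec` list `find?`/`findIdx` on `List.range (s+1)`, or `Nat.rec`); for large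
`s` it is the least `n` with `p (a,n)`. -/
def S_MIN : Prop := ∀ (α : Type) [Primcodable α] (p : α × ℕ → Prop), LPP p → (∀ a, ∃ n, p (a, n)) →
  LP (fun a => sInf {n : ℕ | p (a, n)})

/-- PI. Proof: approximation: `∀ n < s, R (a,n)`. -/
def S_PI : Prop := ∀ (α : Type) [Primcodable α] (R : α × ℕ → Bool), Primrec R →
  LPP (fun a => ∀ n, R (a, n) = true)

/-- PR1. Proof: `strs` by `Nat.rec`, `subs` by `List.foldr`, `cnt` by a filter (or foldr) and length. -/
def S_PR1 : Prop := Primrec strs ∧ Primrec subs ∧ Primrec (fun x : Str × Str => pre x.1 x.2) ∧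
  Primrec (fun x : List Str × Str => cnt x.1 x.2)

/-- PR2 (from S_PR1). Note `n ↦ 2^n` is primitive recursive (Nat.rec). -/
def S_PR2 : Prop := Primrec (fun x : (ℕ × List Str) × ℕ => code x.1.1 x.1.2 x.2) ∧
  Primrec (fun x : (ℕ × List Str) × ℕ => cc x.1.1 x.1.2 x.2)

/-- PR3 (from S_PR1, S_PR2). -/
def S_PR3 : Prop := ∀ β : (ℕ × Str) × ℕ → Bool, Primrec β →
  Primrec (fun x : ((ℕ × ℕ) × ℕ) × List Str => adm β x.1.1.1 x.1.1.2 x.1.2 x.2) ∧
  Primrec (fun x : (List Node × ℕ) × List Str => avoid x.1.1 x.1.2 x.2) ∧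
  Primrec (fun x : ((ℕ × List Node) × ℕ) × ℕ => okay β x.1.1.1 x.1.1.2 x.1.2 x.2)

/-- PR4 (from S_PR1). `prods` by `List.foldr`, `nodes` by `Nat.rec`. -/
def S_PR4 : Prop := Primrec nodes ∧ Primrec pairs ∧ Primrec (fun x : Node × Str => F1 x.1 x.2)

/-- PR5 (from S_PR1). -/
def S_PR5 : Prop := Primrec (fun x : ((ℕ × (ℕ × List Str)) × Str) × St => stepc x.1.1.1 x.1.1.2 x.1.2 x.2)

/-- LG (from S_PR3, S_PI). Proof: `Good β d E ↔ ∀ c, okay β d E (unpair c).1 (unpair c).2`. -/
def S_LG : Prop := ∀ β, Primrec β → LPP (fun x : ℕ × List Node => Good β x.1 x.2)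

/-- LT (from S_LG, S_BAS, S_ITE, S_REC, S_ALL). Proof: `Gr` is a `Nat.rec` with `α = ℕ` (the parameter
`d`); the option elimination: use `decode`, `Option.isSome`, `getD []` and S_ITE. `inT` is the negated
membership: use S_ALL or `PrimrecPred` of list membership. -/
def S_LT : Prop := ∀ β, Primrec β → LP (fun x : ℕ × ℕ => Gr β x.1 x.2) ∧
  LPP (fun x : ℕ × Node => inT β x.1 x.2)

/-- LD (from S_LT, S_PR1, S_PR2, S_PR3, S_BAS, S_MIN, S_PI, S_WE). Proof: `Q` is a Boolean combination of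
`inT` (S_LT), a Pi1 predicate `∀ s, adm ...` (S_PI) and primitive recursive ones, after replacing
`∃ w, decode c = some w ∧ W β d τ w` by `decode c ≠ none ∧ W β d τ ((decode c).getD (0,[]))`; it is total by
S_WE (encode of a witness); S_MIN gives `dcode`; compose with decode. -/
def S_LD : Prop := ∀ β, Primrec β → Hyp β → LP (fun x : ℕ × Node => dat β x.1 x.2)

/-- LU (from S_LD, S_PR4, S_PR5, S_BAS, S_ITR). -/
def S_LU : Prop := ∀ β, Primrec β → Hyp β → LPP (fun x : (ℕ × Node) × Str => US β x.1.1 x.1.2 x.2)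

/-- LA (from S_LU, S_LT, S_PR1, S_PR4, S_BAS, S_ITE, S_ALL, S_FOLD, S_REC). Proof: first
`VV : LPP (fun x : (ℕ × ℕ) × (Str × Str) => VV β x.1.1 x.1.2 x.2.1 x.2.2)` by S_ALL over `nodes m`, then `addp`,
then the fold, then `Nat.rec`. -/
def S_LA : Prop := ∀ β, Primrec β → Hyp β → LP (fun x : ℕ × ℕ => AL β x.1 x.2)

/-- SG. Proof: let `g : (ℕ × ℕ) × ℕ → List Str` approximate `A`. Let `a` code `(b, m, s0)` and
`R (k, σ, a, t) := k + 4 ≤ b ∧ σ ∈ g ((b, m), s0 + t)`. -/
def S_SG : Prop := ∀ A : ℕ × ℕ → List Str, LP A → ∃ R : ℕ × List Bool × ℕ × ℕ → Bool, Computable R ∧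
  ∀ k σ, (∃ a, ∀ t, R (k, σ, a, t) = true) ↔ ∃ b m, k + 4 ≤ b ∧ σ ∈ A (b, m)

/-- WT. Proof: choose `b σ`, `m σ` for `σ ∈ S`, `M` the maximum of the `m σ`. Split `S` by the value of `b σ`;
the part with `b σ = b` is contained in the set of entries of `A (b, M)`, so its weight is at most
`4 * (1/2)^b`. Sum over `b ≥ k + 4` : at most `8 * (1/2)^(k+4) ≤ (1/2)^k`. -/
def S_WT : Prop := ∀ A : ℕ × ℕ → List Str,
  (∀ b m m', m ≤ m' → ∀ σ ∈ A (b, m), σ ∈ A (b, m')) →
  (∀ b m, ((A (b, m)).map (fun σ => ((1:ℝ)/2) ^ σ.length)).sum ≤ 4 * ((1:ℝ)/2) ^ b) →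
  ∀ k : ℕ, ∀ S : Finset Str, (∀ σ ∈ S, ∃ b m, k + 4 ≤ b ∧ σ ∈ A (b, m)) →
  ∑ σ ∈ S, ((1:ℝ)/2) ^ σ.length ≤ ((1:ℝ)/2) ^ k

/-- the hypothesis on `X` in the frozen statement -/
def Esc (X : ℕ → Bool) : Prop :=
  ¬ ∃ R : ℕ × List Bool × ℕ × ℕ → Bool, Computable R ∧
    (∀ k : ℕ, ∀ S : Finset (List Bool),
      (∀ σ ∈ S, ∃ a : ℕ, ∀ b : ℕ, R (k, σ, a, b) = true) →
      ∑ σ ∈ S, ((1:ℝ)/2) ^ σ.length ≤ ((1:ℝ)/2) ^ k) ∧
    ∀ k : ℕ, ∃ n : ℕ, ∃ a : ℕ, ∀ b : ℕ,
      R (k, List.ofFn (fun i : Fin n => X i), a, b) = true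

/-- FI (from S_KO, S_CO, S_MB, S_AI, S_LA, S_SG, S_WT, S_BAS). Proof: suppose that for every `b`,
eventually `Bd β (b+5) (xs X n)` or `Bd β (b+5) (xs Y n)`. S_KO, S_CO: for every `b` there are `m`,
`p ∈ AL β b m` with `p.1 = xs X _` or `p.2 = xs Y _`. One of the two happens for infinitely many `b`; say the
first. Let `A (b, m) = (AL β b m).map Prod.fst` (LP by S_LA), `R` from S_SG. S_WT, S_MB, S_AI give the weight
bound, and `X` is captured at all levels. Contradiction with `Esc X`. -/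
def S_FI : Prop := ∀ β, Primrec β → Hyp β → ∀ X Y, Esc X → Esc Y →
  ∃ b, ∃ᶠ n in Filter.atTop, ¬ Bd β (b + 5) (xs X n) ∧ ¬ Bd β (b + 5) (xs Y n)

/-- BU. Proof: let `c` be a code of `U` (through encodings; `Nat.Partrec.Code.exists_code`). Put
`β ((d, σ), s) = true` iff there are `i < σ.length`, `i + d < σ.length` and `q ∈ strs i` with
`Nat.Partrec.Code.evaln s c (encode q) = some (encode σ)`. Primitive recursive by
`Nat.Partrec.Code.primrec_evaln`, monotone by `evaln_mono`; and the bad strings of length `n` inject into the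
strings of length `< n - d` (`2^(n-d) - 1` of them). -/
def S_BU : Prop := ∀ U : List Bool →. List Bool, Partrec U → ∃ β : (ℕ × Str) × ℕ → Bool,
  Primrec β ∧ Hyp β ∧ ∀ d σ, Bd β d σ ↔ ∃ q, σ ∈ U q ∧ q.length + d < σ.length

end Pool.Agent.H662.TR
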